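import Pool.Agent.T9h21.BC.BF
import Pool.Agent.TH838.J1549

/-!
# The pseudo-model: the axioms
-/

set_option autoImplicit false

namespace Pool.Agent.T9h21.BC

open Pool.Agent.TH636.BC
open Pool.Agent.TH672 (Fm Str upd upd_same upd_ne upd_self upd_upd upd_comm num digits)
open Pool.Agent.TH672.Form (ren)
open Pool.Agent.TH197.J1545 (DM D Dop Dsucc Dadd Dmul sat_congr sat_robinson sat_proves D_zero
  D_succ D_add D_mul D_op D_eq D_all D_ex Dadd_zero Dadd_succ Dmul_zero Dmul_succ Dsucc_ne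
  Dsucc_inj Dsucc_surj strs_Ax num_app digits_odd digits_even digits_num num_snoc)
open Pool.Agent.TH838.J1549 (Q sat_inst sat_inst3 free_inst)

/-! ### instances -/

theorem noCol_iter {ψ : Fml} (h : NoCol ψ) : ∀ n : ℕ, NoCol (blk^[n] ψ)
  | 0 => h
  | n + 1 => by
    rw [Function.iterate_succ_apply']
    exact ⟨trivial, trivial, noCol_iter h n⟩

theorem noCol_inst {x n : ℕ} {φ : Fml} (h : NoCol φ) : NoCol (inst x n φ) :=
  ⟨trivial, noCol_iter (ψ := .all x (.imp (.eq x 0) φ)) ⟨trivial, h⟩ n⟩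

theorem vlt_iter {m : ℕ} {ψ : Fml} : ∀ {n : ℕ}, Vlt m (blk^[n] ψ) → Vlt m ψ
  | 0, h => h
  | n + 1, h => by
    rw [Function.iterate_succ_apply'] at h
    exact vlt_iter h.2.2.2.2

theorem vlt_inst {m x n : ℕ} {φ : Fml} (h : Vlt m (inst x n φ)) : 0 < m ∧ x < m ∧ Vlt m φ := by
  have h1 : Vlt m (.all x (.imp (.eq x 0) φ)) := vlt_iter h.2.2
  exact ⟨h.1, h1.1, h1.2.2⟩

theorem tru_iter {m : ℕ} (h1 : 1 < m) {ψ : Fml} : ∀ {n a : ℕ},
    (∀ t, Ok m t → t.v 0 = .inl (a + n) → Tru m ψ t) →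
    ∀ t, Ok m t → t.v 0 = .inl a → Tru m (blk^[n] ψ) t
  | 0, a, h => fun t ht h0 => h t ht h0
  | n + 1, a, h => by
    intro t ht h0
    rw [Function.iterate_succ_apply']
    intro t' ht' hA
    show SuccS t' 0 1 → _
    have e0 : t'.v 0 = .inl a := by rw [hA.1 0 (by omega) (by decide), h0]
    intro hS
    have e1 : t'.v 1 = .inl (a + 1) := by
      simp only [SuccS, e0] at hS
      exact hS
    intro t'' ht'' hA' hE
    have e2 : t''.v 0 = .inl (a + 1) := by
      rw [hE.1, hA'.1 1 h1 (by decide), e1]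
    exact tru_iter h1 (n := n) (a := a + 1)
      (fun r hr hr0 => h r hr (by rw [hr0]; congr 1; omega)) t'' ht'' e2

theorem tr1_inst {m x n : ℕ} (h1 : 1 < m) (hx : x ≠ 0) {φ : Fml}
    (h : ∀ t, Ok m t → t.v x = .inl n → Tru m φ t) : Tr1 m (inst x n φ) := by
  intro s _ t ht _ h0
  refine tru_iter h1 (n := n) (a := 0) (fun r hr hr0 => ?_) t ht h0
  rw [Nat.zero_add] at hr0
  intro r' hr' hA hE
  refine h r' hr' ?_
  rw [hE.1, hA.1 0 (by omega) (Ne.symm hx), hr0]

/-! ### the real structure -/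

/-- the functions of the real structure -/
def qD : Q D where
  o := .inl 0
  s := Dsucc
  a := Dadd
  m := Dmul
  zero_iff _ := Iff.rfl
  succ_iff _ _ := Iff.rfl
  add_iff _ _ _ := Iff.rfl
  mul_iff _ _ _ := Iff.rfl
  s_ne := Dsucc_ne
  s_inj _ _ := Dsucc_inj
  cases x := by
    by_cases h : x = .inl 0
    · exact Or.inl h
    · exact Or.inr (Dsucc_surj x h)
  a_o := Dadd_zero
  a_s := Dadd_succ
  m_o := Dmul_zero
  m_s := Dmul_succ

theorem nm_qD : ∀ n : ℕ, qD.nm n = (.inl n : DM)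
  | 0 => rfl
  | n + 1 => by
    show Dsucc (qD.nm n) = _
    rw [nm_qD n]; rfl

theorem sat_instD {φ : Fml} {x : ℕ} (hx : 2 ≤ x) (h0 : ¬ φ.Free 0) (h1 : ¬ φ.Free 1)
    (n : ℕ) (v : ℕ → DM) : Fm.Sat D (inst x n φ) v ↔ Fm.Sat D φ (upd v x (.inl n)) := by
  rw [sat_inst qD hx h0 h1 n v, nm_qD]

theorem noCol_appn {σ : List Bool} {ψ : Fml} (h : NoCol ψ) : NoCol (appn σ ψ) :=
  noCol_inst (noCol_inst ⟨trivial, trivial, h⟩)

theorem sat_appn {σ : List Bool} {ψ : Fml} (h0 : ¬ ψ.Free 0) (h1 : ¬ ψ.Free 1) {v : ℕ → DM}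
    {a : ℕ} (ha : v 17 = .inl a) : Fm.Sat D (appn σ ψ) v ↔
      Fm.Sat D ψ (upd (upd (upd (upd v 21 (.inl (2 ^ σ.length))) 23 (.inl (num σ)))
        25 (.inl (2 ^ σ.length * a))) 27 (.inl (2 ^ σ.length * a + num σ))) := by
  unfold appn
  rw [sat_instD (by omega), sat_instD (by omega)]
  · simp only [D_all, Fm.sat_imp, D_mul, D_add]
    simp only [upd, ha]
    simp [Dmul, Dadd]
  · simp [Fm.Free, h0]
  · simp [Fm.Free, h1]
  · exact fun h => absurd rfl (free_inst h).1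
  · intro h
    have := (free_inst h).2.2
    simp [Fm.Free, h1] at this

/-! ### the axioms without colours -/

theorem noCol_robinson : ∀ φ ∈ robinson, NoCol φ := by
  simp [robinson, NoCol, Fm.ex, Fm.or, Fm.neg]

theorem D_nat (x : ℕ) (v : ℕ → DM) : Fm.Sat D (nat x) v ↔ ∃ a, v x = .inl a := by
  show (v x).isLeft = true ↔ _
  rcases v x with a | p <;> simp

theorem D_lt (x y : ℕ) (v : ℕ → DM) :
    Fm.Sat D (lt x y) v ↔ ∃ p q, v x = .inl p ∧ v y = .inl q ∧ p < q := Iff.rfl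

theorem D_ht (x y : ℕ) (v : ℕ → DM) :
    Fm.Sat D (ht x y) v ↔ ∃ h, (∃ k, v x = .inr (k, h)) ∧ v y = .inl h := Iff.rfl

theorem D_Ef (x y : ℕ) (v : ℕ → DM) :
    Fm.Sat D (Ef x y) v ↔ ∃ p q, v x = .inl p ∧ v y = .inl q ∧ Erel p q := Iff.rfl

theorem D_Cf (x y z : ℕ) (v : ℕ → DM) :
    Fm.Sat D (Cf x y z) v ↔ ∃ p q r, v x = .inl p ∧ v y = .inl q ∧ v z = .inl r ∧ Crel p q r :=
  Iff.rfl

/-- the basic axioms without the axioms about colours -/
def T0' : List Fml := [
  .ex 15 (.zero 15),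
  .all 15 (.ex 17 (.succ 15 17)),
  .all 15 (.all 17 (.imp (.succ 15 17) (.neg (.zero 17)))),
  .all 15 (.imp (.zero 15) (nat 15)),
  .all 15 (.all 17 (.imp (nat 15) (.imp (.succ 15 17) (nat 17)))),
  .all 15 (.all 17 (.imp (.zero 15) (.neg (lt 17 15)))),
  .all 15 (.all 17 (.all 19 (.imp (.succ 15 17) (.imp (lt 19 17) (.or (lt 19 15) (.eq 19 15)))))),
  .all 15 (.all 17 (.imp (nat 15) (.imp (nat 17)
    (.ex 19 (.and (nat 19) (.all 21 (.imp (lt 19 21) (.and (lt 15 21) (lt 17 21))))))))),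
  .all 15 (.all 17 (.imp (ht 15 17) (nat 17))),
  .all 15 (.imp (nat 15) (.ex 17 (.ex 19 (.and (ht 17 19) (lt 15 19)))))]

/-- the axiom on the existence of colours -/
def Ca : Fml := .all 15 (.all 17 (.all 19 (.all 21 (.imp (ht 15 19) (.imp (ht 17 21)
  (.imp (lt 19 21) (.ex 23 (col 15 17 23))))))))

/-- the axiom on triangles -/
def Cb : Fml := .all 15 (.all 17 (.all 19 (.all 21 (.imp (col 15 17 21) (.imp (col 15 19 21)
    (.neg (col 17 19 21)))))))

theorem T0_eq : T0 = T0' ++ [Ca, Cb] := rfl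

theorem noCol_T0' : ∀ φ ∈ T0', NoCol φ := by
  simp [T0', NoCol, Fm.ex, Fm.or, Fm.and, Fm.neg, nat, lt, ht]

theorem sat_T0' : ∀ φ ∈ T0', ∀ v : ℕ → DM, Fm.Sat D φ v := by
  intro φ hφ v
  simp only [T0', List.mem_cons, List.not_mem_nil, or_false] at hφ
  rcases hφ with rfl | rfl | rfl | rfl | rfl | rfl | rfl | rfl | rfl | rfl
  · rw [D_ex]; exact ⟨.inl 0, rfl⟩
  · intro a
    rw [D_ex]
    exact ⟨Dsucc a, by simp [upd]⟩
  · intro a b h1 h2
    simp only [D_succ, D_zero, upd] at h1 h2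
    simp at h1 h2
    exact Dsucc_ne a (h1.symm.trans h2)
  · intro a h1
    simp only [D_zero, upd_same] at h1
    rw [D_nat, upd_same]
    exact ⟨0, h1⟩
  · intro a b h1 h2
    rw [D_nat] at h1 ⊢
    simp [upd] at h1 h2 ⊢
    obtain ⟨n, rfl⟩ := h1
    exact ⟨n + 1, h2⟩
  · intro a b h1 h2
    rw [D_lt] at h2
    simp only [D_zero, upd] at h1 h2
    simp at h1 h2
    rw [h1] at h2
    simp at h2
  · intro a b c h1 h2
    rw [Fm.sat_or, D_lt, D_eq]
    rw [D_lt] at h2
    simp only [D_succ, upd] at h1 h2 ⊢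
    simp at h1 h2 ⊢
    obtain ⟨p, hp, q, hq, hpq⟩ := h2
    rw [hp]
    rcases a with a | a
    · rw [h1] at hq
      simp [Dsucc] at hq
      rcases Nat.lt_or_ge p a with h3 | h3
      · left; simpa using h3
      · right
        congr 1; omega
    · rw [h1] at hq
      simp [Dsucc] at hq
  · intro a b h1 h2
    rw [D_nat] at h1 h2
    simp only [upd] at h1 h2
    simp at h1 h2
    obtain ⟨p, rfl⟩ := h1
    obtain ⟨q, rfl⟩ := h2
    rw [D_ex]
    refine ⟨.inl (max p q), ?_⟩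
    rw [Fm.sat_and, D_nat, D_all]
    refine ⟨⟨max p q, by simp [upd]⟩, fun c h3 => ?_⟩
    rw [Fm.sat_and, D_lt, D_lt]
    rw [D_lt] at h3
    obtain ⟨p', r, h5, h6, h7⟩ := h3
    have h5' : max p q = p' := by simpa [upd] using h5
    have h6' : c = .inl r := by simpa [upd] using h6
    subst h5' h6'
    exact ⟨⟨p, r, by simp [upd], by simp [upd], by omega⟩,
      ⟨q, r, by simp [upd], by simp [upd], by omega⟩⟩
  · intro a b h1
    rw [D_nat]
    rw [D_ht] at h1
    obtain ⟨h, -, h2⟩ := h1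
    exact ⟨h, h2⟩
  · intro a h1
    rw [D_nat] at h1
    simp only [upd_same] at h1
    obtain ⟨p, rfl⟩ := h1
    rw [D_ex]
    refine ⟨.inr (0, p + 1), ?_⟩
    rw [D_ex]
    refine ⟨.inl (p + 1), ?_⟩
    rw [Fm.sat_and, D_lt, D_ht]
    simp [upd]

/-! ### the axioms for the computation of strings -/

theorem noCol_Ef (x y : ℕ) : NoCol (Ef x y) := by simp [NoCol, Ef]

theorem noCol_Cf (x y z : ℕ) : NoCol (Cf x y z) := by simp [NoCol, Cf]

theorem noCol_TE : ∀ φ ∈ TE, NoCol φ := by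
  intro φ hφ
  simp only [TE, List.mem_cons, List.not_mem_nil, or_false] at hφ
  rcases hφ with rfl | rfl | rfl | rfl | rfl
  · exact ⟨trivial, noCol_inst (noCol_Ef _ _)⟩
  · exact ⟨noCol_Ef _ _, trivial, noCol_appn (noCol_Ef _ _)⟩
  · exact ⟨noCol_Ef _ _, trivial, noCol_appn (noCol_Cf _ _ _)⟩
  · exact ⟨noCol_Cf _ _ _, trivial, trivial, trivial, trivial, noCol_Cf _ _ _⟩
  · exact ⟨noCol_Cf _ _ _, trivial, trivial, trivial, trivial, trivial, trivial, noCol_Cf _ _ _⟩

theorem Erel_zero : Erel 0 (num hd) := by simp [Erel]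

theorem flatten_succ (x : ℕ) :
    (List.replicate (x + 1) bs).flatten = (List.replicate x bs).flatten ++ bs := by
  rw [List.replicate_succ', List.flatten_append]; simp

theorem Erel_succ {x w : ℕ} (h : Erel x w) : Erel (x + 1) (2 ^ bs.length * w + num bs) := by
  unfold Erel at h ⊢
  rw [flatten_succ, ← List.append_assoc, num_app, ← h]

theorem Crel_zero {x w : ℕ} (h : Erel x w) : Crel x 0 (2 ^ tl.length * w + num tl) := by
  unfold Crel
  unfold Erel at h
  rw [Pool.Agent.TH197.J1545.digits_zero, List.append_nil, num_app, ← h]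

theorem Crel_odd {x z w : ℕ} (h : Crel x z w) : Crel x (2 * z + 1) (2 * w + 1) := by
  unfold Crel at h ⊢
  rw [digits_odd, ← List.append_assoc, num_snoc, ← h]
  simp

theorem Crel_even {x z w : ℕ} (h : Crel x z w) : Crel x (2 * z + 2) (2 * w + 2) := by
  unfold Crel at h ⊢
  rw [digits_even, ← List.append_assoc, num_snoc, ← h]
  simp

theorem not_free_Ef {x y z : ℕ} (h1 : z ≠ x) (h2 : z ≠ y) : ¬ (Ef x y).Free z := by
  simp [Ef, Fm.Free, h1, h2]

theorem not_free_Cf {x y w z : ℕ} (h1 : z ≠ x) (h2 : z ≠ y) (h3 : z ≠ w) :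
    ¬ (Cf x y w).Free z := by
  simp [Cf, Fm.Free, h1, h2, h3]

theorem sat_TE : ∀ φ ∈ TE, ∀ v : ℕ → DM, Fm.Sat D φ v := by
  intro φ hφ v
  simp only [TE, List.mem_cons, List.not_mem_nil, or_false] at hφ
  rcases hφ with rfl | rfl | rfl | rfl | rfl
  · intro a h1
    simp only [D_zero, upd_same] at h1
    rw [sat_instD (by omega) (not_free_Ef (by decide) (by decide))
      (not_free_Ef (by decide) (by decide)), D_Ef]
    refine ⟨0, num hd, by simp [upd, h1], by simp [upd], Erel_zero⟩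
  · intro a b h1 c h2
    rw [D_Ef] at h1
    obtain ⟨p, q, h3, h4, h5⟩ := h1
    have h3' : a = .inl p := by simpa [upd] using h3
    have h4' : b = .inl q := by simpa [upd] using h4
    subst h3' h4'
    rw [D_succ] at h2
    have h2' : c = .inl (p + 1) := by simpa [upd, Dsucc] using h2
    subst h2'
    rw [sat_appn (not_free_Ef (by decide) (by decide)) (not_free_Ef (by decide) (by decide))
      (a := q) (by simp [upd]), D_Ef]
    exact ⟨p + 1, _, by simp [upd], by simp [upd], Erel_succ h5⟩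
  · intro a b h1 c h2
    rw [D_Ef] at h1
    obtain ⟨p, q, h3, h4, h5⟩ := h1
    have h3' : a = .inl p := by simpa [upd] using h3
    have h4' : b = .inl q := by simpa [upd] using h4
    subst h3' h4'
    rw [D_zero] at h2
    have h2' : c = .inl 0 := by simpa [upd] using h2
    subst h2'
    rw [sat_appn (not_free_Cf (by decide) (by decide) (by decide))
      (not_free_Cf (by decide) (by decide) (by decide)) (a := q) (by simp [upd]), D_Cf]
    exact ⟨p, 0, _, by simp [upd], by simp [upd], by simp [upd], Crel_zero h5⟩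
  · intro a b c h1 d h2 e h3 f h4 g h5
    rw [D_Cf] at h1
    obtain ⟨p, q, r, h6, h7, h8, h9⟩ := h1
    have h6' : a = .inl p := by simpa [upd] using h6
    have h7' : b = .inl q := by simpa [upd] using h7
    have h8' : c = .inl r := by simpa [upd] using h8
    subst h6' h7' h8'
    rw [D_add] at h2 h4
    rw [D_succ] at h3 h5
    have h2' : d = .inl (q + q) := by simpa [upd, Dadd] using h2
    subst h2'
    have h3' : e = .inl (q + q + 1) := by simpa [upd, Dsucc] using h3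
    subst h3'
    have h4' : f = .inl (r + r) := by simpa [upd, Dadd] using h4
    subst h4'
    have h5' : g = .inl (r + r + 1) := by simpa [upd, Dsucc] using h5
    subst h5'
    rw [D_Cf]
    refine ⟨p, 2 * q + 1, 2 * r + 1, by simp [upd], ?_, ?_, Crel_odd h9⟩
    · simp [upd]; omega
    · simp [upd]; omega
  · intro a b c h1 d h2 e h3 e2 h3b f h4 g h5 g2 h5b
    rw [D_Cf] at h1
    obtain ⟨p, q, r, h6, h7, h8, h9⟩ := h1
    have h6' : a = .inl p := by simpa [upd] using h6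
    have h7' : b = .inl q := by simpa [upd] using h7
    have h8' : c = .inl r := by simpa [upd] using h8
    subst h6' h7' h8'
    rw [D_add] at h2 h4
    rw [D_succ] at h3 h5 h3b h5b
    have h2' : d = .inl (q + q) := by simpa [upd, Dadd] using h2
    subst h2'
    have h3' : e = .inl (q + q + 1) := by simpa [upd, Dsucc] using h3
    subst h3'
    have h3b' : e2 = .inl (q + q + 1 + 1) := by simpa [upd, Dsucc] using h3b
    subst h3b'
    have h4' : f = .inl (r + r) := by simpa [upd, Dadd] using h4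
    subst h4'
    have h5' : g = .inl (r + r + 1) := by simpa [upd, Dsucc] using h5
    subst h5'
    have h5b' : g2 = .inl (r + r + 1 + 1) := by simpa [upd, Dsucc] using h5b
    subst h5b'
    rw [D_Cf]
    refine ⟨p, 2 * q + 2, 2 * r + 2, by simp [upd], ?_, ?_, Crel_even h9⟩
    · simp [upd]; omega
    · simp [upd]; omega

/-! ### the axioms about colours -/

theorem tru_neg {m : ℕ} {φ : Fml} {s : St} : Tru m φ.neg s ↔ ¬ Tru m φ s := Iff.rfl

theorem tru_ex {m x : ℕ} {φ : Fml} {s : St} :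
    Tru m (.ex x φ) s ↔ ∃ t, Ok m t ∧ Agr m x t s ∧ Tru m φ t := by
  unfold Fm.ex
  rw [tru_neg]
  simp only [Tru]
  constructor
  · intro h
    by_contra h1
    exact h fun t ht hA h2 => h1 ⟨t, ht, hA, h2⟩
  · rintro ⟨t, ht, hA, h2⟩ h
    exact h t ht hA h2

theorem tru_Ca {m : ℕ} (hV : Vlt m Ca) : Tr1 m Ca := by
  have h23 : 23 < m := by
    have := hV.2.2.2.2.2.2.2.1.1
    exact this
  intro s _ s1 _ _ s2 _ _ s3 _ _ t ht _ h1 h2 h3
  obtain ⟨a, e1, e2⟩ := h1
  obtain ⟨b, e3, e4⟩ := h2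
  obtain ⟨p, q, e5, e6, hpq⟩ := h3
  rw [tru_ex]
  have hne : t.c 15 17 ≠ 0 := by
    intro h0
    have h4 := ht.val 15 (by omega) 17 (by omega) (by rw [e1]; rfl) (by rw [e3]; rfl) h0
    rw [e1, e3] at h4
    have h5 : a = b := by simpa using h4
    rw [e5] at e2
    rw [e6] at e4
    have h6 : p = a := by simpa using e2
    have h7 : q = b := by simpa using e4
    omega
  refine ⟨setN t 23 (t.c 15 17 - 1), ok_setN ht _ _, agr_setN _ _ _ _, ?_⟩
  refine ⟨t.c 15 17 - 1, by simp [setN], ?_⟩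
  simp only [setN]
  simp
  omega

theorem tru_Cb {m : ℕ} (hV : Vlt m Cb) : Tr1 m Cb := by
  have h21 : 21 < m := by
    have := hV.2.2.2.1
    exact this
  intro s _ s1 _ _ s2 _ _ s3 _ _ t ht _ h1 h2 h3
  obtain ⟨d1, e1, e2⟩ := h1
  obtain ⟨d2, e3, e4⟩ := h2
  obtain ⟨d3, e5, e6⟩ := h3
  rw [e1] at e3 e5
  have h12 : d1 = d2 := by simpa using e3
  have h13 : d1 = d3 := by simpa using e5
  subst h12 h13
  have := ht.tri 15 (by omega) 17 (by omega) 19 (by omega) (by rw [e2, e6]) (by rw [e6, e4])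
  omega

/-! ### the last axiom -/

theorem tru_sg {P : Fml} (hA : Arith P) (hF : ∀ x, P.Free x → x = 2 ∨ x = 3 ∨ x = 4) {m : ℕ}
    (h : ∀ y < m, ∃ k, Proves robinson k
      (inst 2 (code (Ax P)) (inst 3 y (inst 4 (code [Fm.bot]) P.neg))))
    (n : ℕ) (hnP : n = tn P)
    (hV : Vlt m (inst 29 n (sgf P))) : Tr1 m (inst 29 n (sgf P)) := by
  obtain ⟨c, hc⟩ : ∃ c, c = code (Ax P) := ⟨_, rfl⟩
  rw [← hc] at h
  obtain ⟨-, h29, hV1⟩ := vlt_inst hV
  have hneg : ∀ x, P.neg.Free x → x = 2 ∨ x = 3 ∨ x = 4 := fun x hx => by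
    simp only [Fm.neg, Fm.Free, or_false] at hx
    exact hF x hx
  refine tr1_inst (by omega) (by decide) fun t ht ht29 => ?_
  intro t2 ht2 hA2 hC
  obtain ⟨p, q, r, e1, e2, e3, hCr⟩ := hC
  have e4 : t2.v 29 = .inl n := by rw [hA2.1 29 h29 (by decide), ht29]
  have h5 : p = n := by
    rw [e4] at e1
    simpa using e1.symm
  have h6 : q = n := by
    rw [e4] at e2
    simpa using e2.symm
  have h7 : r = c := by
    rw [h5, h6] at hCr
    unfold Crel at hCr
    rw [hCr, hc, hnP]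
    unfold code
    rw [strs_Ax]
  rw [h7] at e3
  obtain ⟨-, ⟨-, -, -, -⟩, h3m, h33m, h35m, h37m, -, -, -, hV2⟩ := hV1
  intro t3 ht3 hA3 t4 ht4 hA4 t5 ht5 hA5 t6 ht6 hA6 hn hc hl
  have v2 : t6.v 2 = .inl c := by
    rw [hA6.1 2 (by omega) (by decide), hA5.1 2 (by omega) (by decide),
      hA4.1 2 (by omega) (by decide), hA3.1 2 (by omega) (by decide), e3]
  obtain ⟨y, hy⟩ : ∃ y, t6.v 3 = .inl y := by
    have h8 : (t6.v 3).isLeft = true := hn
    rcases h9 : t6.v 3 with a | a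
    · exact ⟨a, rfl⟩
    · rw [h9] at h8; simp at h8
  obtain ⟨δ, e5, e6⟩ := hc
  have hδ : δ < m := by
    have := ht6.le 33 h33m 35 h35m
    rw [e6] at this
    omega
  have hyδ : y ≤ δ := by
    by_contra hlt
    exact hl ⟨δ, y, e5, hy, by omega⟩
  obtain ⟨k, hk⟩ := h y (by omega)
  obtain ⟨w, hw⟩ := exists_rel ht6
  have hNC : NoCol (inst 4 (code [Fm.bot]) P.neg) :=
    noCol_inst ⟨noCol_of_arith hA, trivial⟩
  rw [tru_iff_sat hNC hV2 ht6 hw]
  have w2 : w 2 = .inl c := by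
    rw [← pr_inl, ← hw.val 2 (by omega), v2]
  have w3 : w 3 = .inl y := by
    rw [← pr_inl, ← hw.val 3 (by omega), hy]
  have h8 := sat_proves (S := D) sat_robinson hk w
  rw [sat_inst3 qD hneg, nm_qD, nm_qD, nm_qD] at h8
  rw [sat_instD (by omega) (fun h => by have := hneg 0 h; omega)
    (fun h => by have := hneg 1 h; omega)]
  have e7 : upd (upd w 2 (.inl c)) 3 (.inl y) = w := by
    rw [← w2, upd_self, ← w3, upd_self]
  rw [e7] at h8
  exact h8

/-- The axioms are true in the pseudo-model of dimension `m` if Robinson arithmetic proves all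
sentences on the consistency below `m`. -/
theorem axS2 {P : Fml} (hA : Arith P) (hF : ∀ x, P.Free x → x = 2 ∨ x = 3 ∨ x = 4) {m : ℕ}
    (h : ∀ y < m, ∃ k, Proves robinson k
      (inst 2 (code (Ax P)) (inst 3 y (inst 4 (code [Fm.bot]) P.neg)))) :
    ∀ φ ∈ Ax P, Vlt m φ → Tr1 m φ := by
  intro φ hφ hV
  have hφ' : φ = sg P ∨ φ ∈ TB := by
    unfold Ax at hφ
    exact List.mem_cons.mp hφ
  rcases hφ' with hφ | hφ
  · obtain ⟨n, hn⟩ : ∃ n, n = tn P := ⟨_, rfl⟩
    have e : φ = inst 29 n (sgf P) := by rw [hφ, hn, sg]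
    rw [e] at hV ⊢
    exact tru_sg hA hF h n hn hV
  unfold TB at hφ
  rcases List.mem_append.mp hφ with hφ | hφ
  · rcases List.mem_append.mp hφ with hφ | hφ
    · exact tr1_of_sat (noCol_robinson φ hφ) hV (sat_robinson φ hφ)
    · rw [T0_eq] at hφ
      rcases List.mem_append.mp hφ with hφ | hφ
      · exact tr1_of_sat (noCol_T0' φ hφ) hV (sat_T0' φ hφ)
      · simp only [List.mem_cons, List.not_mem_nil, or_false] at hφ
        rcases hφ with rfl | rfl
        · exact tru_Ca hV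
        · exact tru_Cb hV
  · exact tr1_of_sat (noCol_TE φ hφ) hV (sat_TE φ hφ)

/-- The statement `AxS`. -/
theorem axS : AxS := by
  intro P hP m h
  refine axS2 hP.arith hP.free fun y hy => hP.neg _ _ _ ?_
  rintro ⟨Γ, φ, e1, e2, h3⟩
  have h4 := Pool.Agent.TH197.J1545.code_inj e1
  have h5 := Pool.Agent.TH197.J1545.code_inj e2
  have h6 : φ = .bot := by simpa using h5.symm
  subst h6
  rw [← h4] at h3
  exact h y hy h3

end Pool.Agent.T9h21.BC
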