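import Pool.Agent.TH636.BC.PM

/-!
# The pseudo-model: amalgamation of states
-/

set_option autoImplicit false

namespace Pool.Agent.T9h21.BC

open Pool.Agent.TH636.BC
open Pool.Agent.TH672 (Fm)

/-- the states agree on the variables in `F` -/
def AgOn (m : ℕ) (F : ℕ → Prop) (s t : St) : Prop :=
  (∀ i < m, F i → s.v i = t.v i) ∧ ∀ i < m, ∀ j < m, F i → F j → s.c i j = t.c i j

/-- renaming of the variables in a state -/
def sub (ρ : ℕ → ℕ) (s : St) : St := ⟨fun i => s.v (ρ i), fun i j => s.c (ρ i) (ρ j)⟩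

theorem ok_sub {m : ℕ} {ρ : ℕ → ℕ} (hρ : ∀ i < m, ρ i < m) {s : St} (h : Ok m s) :
    Ok m (sub ρ s) where
  norm i hi j hj := h.norm _ (hρ i hi) _ (hρ j hj)
  refl i hi := h.refl _ (hρ i hi)
  symm i hi j hj := h.symm _ (hρ i hi) _ (hρ j hj)
  le i hi j hj := h.le _ (hρ i hi) _ (hρ j hj)
  val i hi j hj := h.val _ (hρ i hi) _ (hρ j hj)
  cong i hi j hj k hk := h.cong _ (hρ i hi) _ (hρ j hj) _ (hρ k hk)
  tri i hi j hj k hk := h.tri _ (hρ i hi) _ (hρ j hj) _ (hρ k hk)

/-- the state in which the value of `x` is the number `a` -/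
def setN (s : St) (x a : ℕ) : St :=
  ⟨fun i => if i = x then .inl a else s.v i, fun i j => if i = x ∨ j = x then 0 else s.c i j⟩

theorem ok_setN {m : ℕ} {s : St} (h : Ok m s) (x a : ℕ) : Ok m (setN s x a) where
  norm i hi j hj hij := by
    simp only [setN] at hij ⊢
    split_ifs with h1
    · rfl
    · push Not at h1
      rw [if_neg h1.1, if_neg h1.2] at hij
      exact h.norm i hi j hj hij
  refl i hi := by
    simp only [setN]
    split_ifs
    · rfl
    · exact h.refl i hi
  symm i hi j hj := by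
    simp only [setN, or_comm (a := i = x)]
    split_ifs
    · rfl
    · exact h.symm i hi j hj
  le i hi j hj := by
    simp only [setN]
    split_ifs
    · omega
    · exact h.le i hi j hj
  val i hi j hj := by
    simp only [setN]
    by_cases h1 : i = x
    · simp [h1]
    · by_cases h2 : j = x
      · simp [h2]
      · simp only [h1, h2, if_false, or_self]
        exact h.val i hi j hj
  cong i hi j hj k hk := by
    simp only [setN]
    by_cases h1 : i = x
    · simp [h1]
    · by_cases h2 : j = x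
      · simp [h2]
      · simp only [h1, h2, if_false, or_self, false_or]
        intro h3 h4 h5
        rw [h.cong i hi j hj k hk h3 h4 h5]
  tri i hi j hj k hk := by
    simp only [setN]
    by_cases h1 : i = x
    · simp [h1]
    · by_cases h2 : j = x
      · simp [h2]
      · by_cases h3 : k = x
        · simp only [h1, h2, h3, or_true, if_true, if_false, or_self]
          intro h4 _
          exact h4
        · simp only [h1, h2, h3, if_false, or_self]
          exact h.tri i hi j hj k hk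

theorem agr_setN (m : ℕ) (s : St) (x a : ℕ) : Agr m x (setN s x a) s := by
  refine ⟨fun i _ hi => ?_, fun i _ j _ hi hj => ?_⟩
  · simp [setN, hi]
  · simp [setN, hi, hj]

/-- The choice of new colours. -/
theorem exists_inj (m : ℕ) (F : ℕ → Prop) (u : ℕ → ℕ) :
    ∃ g : ℕ → ℕ, (∀ k < m, ¬ F k → 1 ≤ g k ∧ g k ≤ m) ∧
      (∀ k < m, ¬ F k → ∀ j < m, F j → g k ≠ u j) ∧
      ∀ k < m, ¬ F k → ∀ k' < m, ¬ F k' → g k = g k' → k = k' := by
  classical
  obtain ⟨A, hA⟩ : ∃ A, A = (Finset.range m).filter (fun k => ¬ F k) := ⟨_, rfl⟩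
  obtain ⟨F', hF'⟩ : ∃ F', F' = (Finset.range m).filter F := ⟨_, rfl⟩
  obtain ⟨B, hB⟩ : ∃ B, B = Finset.Icc 1 m \ F'.image u := ⟨_, rfl⟩
  have hAc : F'.card + A.card = m := by
    rw [hA, hF', Finset.card_filter_add_card_filter_not, Finset.card_range]
  have hBc : A.card ≤ B.card := by
    have h1 : (Finset.Icc 1 m).card - (F'.image u).card ≤ B.card := by
      rw [hB]; exact Finset.le_card_sdiff _ _
    have h2 : (F'.image u).card ≤ F'.card := Finset.card_image_le
    rw [Nat.card_Icc] at h1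
    omega
  obtain ⟨e⟩ : Nonempty ({k // k ∈ A} ↪ {k // k ∈ B}) := by
    apply Function.Embedding.nonempty_of_card_le
    simpa using hBc
  have hmem : ∀ k, k < m → ¬ F k → k ∈ A := fun k hk hk' => by
    rw [hA, Finset.mem_filter, Finset.mem_range]; exact ⟨hk, hk'⟩
  have hBm : ∀ y ∈ B, (1 ≤ y ∧ y ≤ m) ∧ ∀ j < m, F j → y ≠ u j := by
    intro y hy
    rw [hB, Finset.mem_sdiff, Finset.mem_Icc] at hy
    refine ⟨hy.1, fun j hj hj' h2 => hy.2 ?_⟩
    rw [h2, Finset.mem_image]
    exact ⟨j, by rw [hF', Finset.mem_filter, Finset.mem_range]; exact ⟨hj, hj'⟩, rfl⟩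
  refine ⟨fun k => if hk : k ∈ A then (e ⟨k, hk⟩).1 else 0, fun k hk hk' => ?_,
    fun k hk hk' => ?_, fun k hk hk' k' hk1 hk1' hkk => ?_⟩
  · simp only [dif_pos (hmem k hk hk')]
    exact (hBm _ (e ⟨k, hmem k hk hk'⟩).2).1
  · simp only [dif_pos (hmem k hk hk')]
    exact (hBm _ (e ⟨k, hmem k hk hk'⟩).2).2
  · simp only [dif_pos (hmem k hk hk'), dif_pos (hmem k' hk1 hk1')] at hkk
    have := e.injective (Subtype.ext hkk)
    exact congrArg Subtype.val this

/-- The colours of the edges from a new node to the old nodes. -/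
theorem exists_col {m : ℕ} {s t : St} (hs : Ok m s) (ht : Ok m t) {x : ℕ} (hx : x < m)
    {F : ℕ → Prop} (hF : ¬ F x) (hst : AgOn m F s t)
    (hne : ∀ j < m, F j → (t.v j).isRight → t.c x j ≠ 0) :
    ∃ d : ℕ → ℕ, (∀ i < m, ∀ j < m, i ≠ x → j ≠ x → (s.v i).isRight → (s.v j).isRight →
        s.c i j = 0 → d i = d j) ∧
      (∀ j < m, j ≠ x → (s.v j).isRight → d j ≠ 0 ∧ d j ≤ m) ∧
      (∀ j < m, F j → (s.v j).isRight → d j = t.c x j) ∧
      ∀ i < m, ∀ j < m, i ≠ x → j ≠ x → (s.v i).isRight → (s.v j).isRight →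
        d i = d j → s.c i j ≠ d j := by
  classical
  obtain ⟨g, hg1, hg2, hg3⟩ := exists_inj m F (t.c x)
  obtain ⟨P, hP⟩ : ∃ P : ℕ → ℕ → Prop, ∀ j k, P j k ↔
    (k < m ∧ k ≠ x ∧ (s.v k).isRight ∧ s.c j k = 0) := ⟨_, fun _ _ => Iff.rfl⟩
  obtain ⟨rep, hrep⟩ : ∃ rep : ℕ → ℕ, ∀ j, rep j = if ∃ k, F k ∧ P j k then
    sInf {k | F k ∧ P j k} else sInf {k | P j k} := ⟨_, fun _ => rfl⟩
  have hPcong : ∀ i < m, ∀ j < m, (s.v i).isRight → (s.v j).isRight → s.c i j = 0 →
      P i = P j := by
    intro i hi j hj h1 h2 h3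
    funext k
    rw [eq_iff_iff, hP, hP]
    constructor
    · rintro ⟨h4, h5, h6, h7⟩
      exact ⟨h4, h5, h6, by rw [← hs.cong i hi j hj k h4 h1 h2 h3]; exact h7⟩
    · rintro ⟨h4, h5, h6, h7⟩
      exact ⟨h4, h5, h6, by rw [hs.cong i hi j hj k h4 h1 h2 h3]; exact h7⟩
  -- properties of the representatives
  have hr1 : ∀ j < m, j ≠ x → (s.v j).isRight → P j (rep j) := by
    intro j hj hjx hjr
    rw [hrep]
    split_ifs with h1
    · exact (Nat.sInf_mem (s := {k | F k ∧ P j k}) h1).2
    · exact Nat.sInf_mem (s := {k | P j k}) ⟨j, (hP j j).2 ⟨hj, hjx, hjr, hs.refl j hj⟩⟩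
  have hr2 : ∀ j, (∃ k, F k ∧ P j k) → F (rep j) := by
    intro j h1
    rw [hrep, if_pos h1]
    exact (Nat.sInf_mem (s := {k | F k ∧ P j k}) h1).1
  have hr3 : ∀ i < m, ∀ j < m, (s.v i).isRight → (s.v j).isRight → s.c i j = 0 →
      rep i = rep j := by
    intro i hi j hj h1 h2 h3
    rw [hrep, hrep, hPcong i hi j hj h1 h2 h3]
  have hr4 : ∀ i < m, ∀ j < m, i ≠ x → j ≠ x → (s.v i).isRight → (s.v j).isRight →
      rep i = rep j → s.c i j = 0 := by
    intro i hi j hj hix hjx h1 h2 h3
    obtain ⟨a1, -, a3, a4⟩ := (hP _ _).1 (hr1 i hi hix h1)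
    obtain ⟨b1, -, b3, b4⟩ := (hP _ _).1 (hr1 j hj hjx h2)
    rw [h3] at a1 a3 a4
    rw [hs.cong i hi _ a1 j hj h1 a3 a4, hs.symm _ a1 j hj]
    exact b4
  refine ⟨fun j => if F (rep j) then t.c x (rep j) else g (rep j), ?_, ?_, ?_, ?_⟩
  · intro i hi j hj _ _ h1 h2 h3
    simp only [hr3 i hi j hj h1 h2 h3]
  · intro j hj hjx hjr
    obtain ⟨a1, a2, a3, a4⟩ := (hP _ _).1 (hr1 j hj hjx hjr)
    simp only
    split_ifs with h1
    · refine ⟨hne _ a1 h1 ?_, ht.le x hx _ a1⟩
      rw [← hst.1 _ a1 h1]; exact a3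
    · have := hg1 _ a1 h1
      omega
  · intro j hj hjF hjr
    have hjx : j ≠ x := fun e => hF (e ▸ hjF)
    have h1 : F (rep j) := hr2 j ⟨j, hjF, (hP j j).2 ⟨hj, hjx, hjr, hs.refl j hj⟩⟩
    obtain ⟨a1, a2, a3, a4⟩ := (hP _ _).1 (hr1 j hj hjx hjr)
    simp only [if_pos h1]
    have h2 : t.c (rep j) j = 0 := by
      rw [← hst.2 _ a1 j hj h1 hjF, hs.symm _ a1 j hj]; exact a4
    have h3 := ht.cong _ a1 j hj x hx (by rw [← hst.1 _ a1 h1]; exact a3)
      (by rw [← hst.1 _ hj hjF]; exact hjr) h2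
    rw [ht.symm x hx _ a1, ht.symm x hx _ hj]
    exact h3
  · intro i hi j hj hix hjx h1 h2 h3 h4
    obtain ⟨a1, a2, a3, a4⟩ := (hP _ _).1 (hr1 i hi hix h1)
    obtain ⟨b1, b2, b3, b4⟩ := (hP _ _).1 (hr1 j hj hjx h2)
    simp only at h3 h4
    have e1 : s.c (rep i) (rep j) = s.c i j := by
      rw [← hs.cong i hi _ a1 _ b1 h1 a3 a4, hs.symm i hi _ b1, hs.symm i hi _ hj]
      exact (hs.cong j hj _ b1 i hi h2 b3 b4).symm
    split_ifs at h3 h4 with c1 c2 c2
    · have e2 : t.c (rep i) (rep j) = s.c i j := by rw [← e1]; exact (hst.2 _ a1 _ b1 c1 c2).symm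
      have e3 : t.c x (rep i) = 0 := by
        apply ht.tri x hx _ a1 _ b1
        · rw [e2, h4, h3]
        · rw [e2, h4]
      exact hne _ a1 c1 (by rw [← hst.1 _ a1 c1]; exact a3) e3
    · exact hg2 _ b1 c2 _ a1 c1 h3.symm
    · exact hg2 _ a1 c1 _ b1 c2 h3
    · have e2 := hg3 _ a1 c1 _ b1 c2 h3
      rw [hr4 i hi j hj hix hjx h1 h2 e2] at h4
      have := (hg1 _ b1 c2).1
      omega

/-- The state with a new node. -/
theorem exists_node {m : ℕ} {s t : St} (hs : Ok m s) (ht : Ok m t) {x h : ℕ} (hx : x < m)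
    {F : ℕ → Prop} (hF : ¬ F x) (hst : AgOn m F s t) (hv : t.v x = .inr h)
    (hne : ∀ j < m, F j → (t.v j).isRight → t.c x j ≠ 0) :
    ∃ r, Ok m r ∧ Agr m x r s ∧ r.v x = .inr h ∧
      (∀ j < m, j ≠ x → (s.v j).isRight → r.c x j ≠ 0) ∧
      ∀ j < m, F j → (s.v j).isRight → r.c x j = t.c x j := by
  obtain ⟨d, hd1, hd2, hd3, hd4⟩ := exists_col hs ht hx hF hst hne
  obtain ⟨r, hrv, hrc⟩ : ∃ r : St, (∀ i, r.v i = if i = x then .inr h else s.v i) ∧
      ∀ i j, r.c i j = if i = x then (if j = x then 0 else if (s.v j).isRight then d j else 0)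
        else if j = x then (if (s.v i).isRight then d i else 0) else s.c i j :=
    ⟨⟨_, _⟩, fun _ => rfl, fun _ _ => rfl⟩
  have rvx : r.v x = .inr h := by rw [hrv, if_pos rfl]
  have rvn : ∀ i, i ≠ x → r.v i = s.v i := fun i hi => by rw [hrv, if_neg hi]
  have rxx : r.c x x = 0 := by rw [hrc, if_pos rfl, if_pos rfl]
  have rxn : ∀ j, j ≠ x → (s.v j).isRight → r.c x j = d j := fun j hj h1 => by
    rw [hrc, if_pos rfl, if_neg hj, if_pos h1]
  have rnx : ∀ j, j ≠ x → (s.v j).isRight → r.c j x = d j := fun j hj h1 => by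
    rw [hrc, if_neg hj, if_pos rfl, if_pos h1]
  have rnn : ∀ i j, i ≠ x → j ≠ x → r.c i j = s.c i j := fun i j hi hj => by
    rw [hrc, if_neg hi, if_neg hj]
  have rxl : ∀ j, j ≠ x → ¬ (s.v j).isRight → r.c x j = 0 := fun j hj h1 => by
    rw [hrc, if_pos rfl, if_neg hj, if_neg h1]
  have rlx : ∀ j, j ≠ x → ¬ (s.v j).isRight → r.c j x = 0 := fun j hj h1 => by
    rw [hrc, if_neg hj, if_pos rfl, if_neg h1]
  have hlr : ∀ a : ℕ ⊕ ℕ, ¬ a.isRight ↔ a.isLeft := fun a => by cases a <;> simp
  have hok : Ok m r := by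
    constructor
    · intro i hi j hj hij
      by_cases h1 : i = x
      · subst h1
        by_cases h2 : j = i
        · subst h2; exact rxx
        · apply rxl j h2
          rw [hlr, ← rvn j h2]
          rcases hij with hij | hij
          · rw [rvx] at hij; cases hij
          · exact hij
      · by_cases h2 : j = x
        · subst h2
          apply rlx i h1
          rw [hlr, ← rvn i h1]
          rcases hij with hij | hij
          · exact hij
          · rw [rvx] at hij; cases hij
        · rw [rnn i j h1 h2]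
          rw [rvn i h1, rvn j h2] at hij
          exact hs.norm i hi j hj hij
    · intro i hi
      by_cases h1 : i = x
      · subst h1; exact rxx
      · rw [rnn i i h1 h1]; exact hs.refl i hi
    · intro i hi j hj
      by_cases h1 : i = x
      · subst h1
        by_cases h2 : j = i
        · subst h2; rfl
        · by_cases h3 : (s.v j).isRight
          · rw [rxn j h2 h3, rnx j h2 h3]
          · rw [rxl j h2 h3, rlx j h2 h3]
      · by_cases h2 : j = x
        · subst h2
          by_cases h3 : (s.v i).isRight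
          · rw [rxn i h1 h3, rnx i h1 h3]
          · rw [rxl i h1 h3, rlx i h1 h3]
        · rw [rnn i j h1 h2, rnn j i h2 h1]
          exact hs.symm i hi j hj
    · intro i hi j hj
      by_cases h1 : i = x
      · subst h1
        by_cases h2 : j = i
        · subst h2; rw [rxx]; omega
        · by_cases h3 : (s.v j).isRight
          · rw [rxn j h2 h3]; exact (hd2 j hj h2 h3).2
          · rw [rxl j h2 h3]; omega
      · by_cases h2 : j = x
        · subst h2
          by_cases h3 : (s.v i).isRight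
          · rw [rnx i h1 h3]; exact (hd2 i hi h1 h3).2
          · rw [rlx i h1 h3]; omega
        · rw [rnn i j h1 h2]
          exact hs.le i hi j hj
    · intro i hi j hj h3 h4 h5
      by_cases h1 : i = x
      · subst h1
        by_cases h2 : j = i
        · subst h2; rfl
        · rw [rvn j h2] at h4
          rw [rxn j h2 h4] at h5
          exact absurd h5 (hd2 j hj h2 h4).1
      · by_cases h2 : j = x
        · subst h2
          rw [rvn i h1] at h3
          rw [rnx i h1 h3] at h5
          exact absurd h5 (hd2 i hi h1 h3).1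
        · rw [rnn i j h1 h2] at h5
          rw [rvn i h1, rvn j h2] at *
          exact hs.val i hi j hj h3 h4 h5
    · intro i hi j hj k hk h3 h4 h5
      by_cases h1 : i = x
      · subst h1
        by_cases h2 : j = i
        · subst h2; rfl
        · rw [rvn j h2] at h4
          rw [rxn j h2 h4] at h5
          exact absurd h5 (hd2 j hj h2 h4).1
      · by_cases h2 : j = x
        · subst h2
          rw [rvn i h1] at h3
          rw [rnx i h1 h3] at h5
          exact absurd h5 (hd2 i hi h1 h3).1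
        · rw [rnn i j h1 h2] at h5
          rw [rvn i h1] at h3
          rw [rvn j h2] at h4
          by_cases h6 : k = x
          · subst h6
            rw [rnx i h1 h3, rnx j h2 h4]
            exact hd1 i hi j hj h1 h2 h3 h4 h5
          · rw [rnn i k h1 h6, rnn j k h2 h6]
            exact hs.cong i hi j hj k hk h3 h4 h5
    · -- triangles
      have hright : ∀ i < m, ∀ j < m, i ≠ x → j ≠ x → s.c i j ≠ 0 →
          (s.v i).isRight ∧ (s.v j).isRight := by
        intro i hi j hj _ _ h1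
        constructor
        · by_contra h2
          exact h1 (hs.norm i hi j hj (Or.inl ((hlr _).1 h2)))
        · by_contra h2
          exact h1 (hs.norm i hi j hj (Or.inr ((hlr _).1 h2)))
      intro i hi j hj k hk h3 h4
      by_contra h5
      by_cases h1 : i = x
      · subst h1
        by_cases h2 : j = i
        · subst h2; exact h5 rxx
        · by_cases h6 : k = i
          · subst h6; rw [rxx] at h4; exact h5 (by rw [h3, h4])
          · rw [rnn j k h2 h6] at h3 h4
            obtain ⟨g1, g2⟩ := hright j hj k hk h2 h6 (by rw [← h3]; exact h5)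
            rw [rxn j h2 g1] at h3 
            rw [rxn k h6 g2] at h4
            exact hd4 j hj k hk h2 h6 g1 g2 (by rw [h3, h4]) h4
      · by_cases h2 : j = x
        · subst h2
          by_cases h6 : k = j
          · subst h6; rw [rxx] at h3; exact h5 h3
          · rw [rnn i k h1 h6] at h4
            have h7 : s.c i k ≠ 0 := by rw [← h4, ← h3]; exact h5
            obtain ⟨g1, g2⟩ := hright i hi k hk h1 h6 h7
            rw [rxn k h6 g2] at h3 h4
            rw [rnx i h1 g1] at h3
            exact hd4 i hi k hk h1 h6 g1 g2 h3 h4.symm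
        · rw [rnn i j h1 h2] at h3 h5
          obtain ⟨g1, g2⟩ := hright i hi j hj h1 h2 h5
          by_cases h6 : k = x
          · subst h6
            rw [rnx j h2 g2] at h3 h4
            rw [rnx i h1 g1] at h4
            exact hd4 i hi j hj h1 h2 g1 g2 h4.symm h3
          · rw [rnn j k h2 h6] at h3 h4
            rw [rnn i k h1 h6] at h4
            exact h5 (hs.tri i hi j hj k hk h3 h4)
  refine ⟨r, hok, ⟨fun i _ hi => rvn i hi, fun i _ j _ hi hj => rnn i j hi hj⟩, rvx, ?_, ?_⟩
  · intro j hj hjx h1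
    rw [rxn j hjx h1]
    exact (hd2 j hj hjx h1).1
  · intro j hj hjF h1
    rw [rxn j (fun e => hF (e ▸ hjF)) h1]
    exact hd3 j hj hjF h1

end Pool.Agent.T9h21.BC
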