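import Pool.Agent.T9h21.BC.Snd

/-!
# The pseudo-model and the real structure: back and forth
-/

set_option autoImplicit false

namespace Pool.Agent.T9h21.BC

open Pool.Agent.TH636.BC
open Pool.Agent.TH672 (Fm Str upd upd_same upd_ne)
open Pool.Agent.TH672.Form (ren)
open Pool.Agent.TH197.J1545 (DM D Dop Dsucc Dadd Dmul sat_congr)

/-- the formula does not contain the predicate for the colours -/
def NoCol : Fml → Prop
  | .op i _ _ _ _ => i ≠ 3
  | .imp φ ψ => NoCol φ ∧ NoCol ψ
  | .all _ φ => NoCol φ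
  | _ => True

theorem noCol_of_arith {φ : Fml} : Arith φ → NoCol φ := by
  induction φ with
  | op i a b c d => intro h; exact absurd h id
  | imp φ ψ ih ih' => intro h; exact ⟨ih h.1, ih' h.2⟩
  | all x φ ih => intro h; exact ih h
  | _ => intro _; trivial

/-- a number, or the height of a node -/
def pr : DM → ℕ ⊕ ℕ
  | .inl a => .inl a
  | .inr p => .inr p.2

/-- the state `s` describes the values `v` -/
structure RelD (m : ℕ) (s : St) (v : ℕ → DM) : Prop where
  val : ∀ i < m, s.v i = pr (v i)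
  eqs : ∀ i < m, ∀ j < m, v i = v j ↔ Eqs s i j

theorem eqs_refl {m : ℕ} {s : St} (hs : Ok m s) {i : ℕ} (hi : i < m) : Eqs s i i :=
  ⟨rfl, hs.refl i hi⟩

theorem eqs_symm {m : ℕ} {s : St} (hs : Ok m s) {i j : ℕ} (hi : i < m) (hj : j < m)
    (h : Eqs s i j) : Eqs s j i :=
  ⟨h.1.symm, by rw [hs.symm j hj i hi]; exact h.2⟩

theorem eqs_trans {m : ℕ} {s : St} (hs : Ok m s) {i j k : ℕ} (hi : i < m) (hj : j < m)
    (hk : k < m) (h : Eqs s i j) (h' : Eqs s j k) : Eqs s i k := by
  refine ⟨h.1.trans h'.1, ?_⟩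
  rcases hv : s.v i with a | b
  · exact hs.norm i hi k hk (Or.inl (by rw [hv]; rfl))
  · have h1 : (s.v i).isRight := by rw [hv]; rfl
    have h2 : (s.v j).isRight := by rw [← h.1]; exact h1
    rw [hs.cong i hi j hj k hk h1 h2 h.2]
    exact h'.2

theorem eqs_num {m : ℕ} {s : St} (hs : Ok m s) {i j a : ℕ} (hi : i < m) (hj : j < m)
    (h : s.v i = .inl a) : Eqs s i j ↔ s.v j = .inl a :=
  ⟨fun h1 => by rw [← h1.1, h], fun h1 => ⟨by rw [h, h1],
    hs.norm i hi j hj (Or.inl (by rw [h]; rfl))⟩⟩

theorem pr_l (n : ℕ) : pr (.inl n) = .inl n := rfl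

theorem pr_r (p : ℕ × ℕ) : pr (.inr p) = .inr p.2 := rfl

theorem pr_inl {a : DM} {n : ℕ} : pr a = .inl n ↔ a = .inl n := by
  rcases a with a | p
  · simp [pr]
  · simp [pr]

theorem pr_inr {a : DM} {h : ℕ} : pr a = .inr h ↔ ∃ k, a = .inr (k, h) := by
  rcases a with a | ⟨k, h'⟩
  · simp [pr]
  · simp [pr, Prod.ext_iff]

/-- Back. -/
theorem back {m : ℕ} {s : St} {v : ℕ → DM} (hsv : RelD m s v) {x : ℕ} (hx : x < m)
    {t : St} (ht : Ok m t) (hts : Agr m x t s) : ∃ a : DM, RelD m t (upd v x a) := by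
  -- it suffices to have the right equalities with the other variables
  have red : ∀ a : DM, t.v x = pr a → (∀ j < m, j ≠ x → (a = v j ↔ Eqs t x j)) →
      RelD m t (upd v x a) := by
    intro a ha hj
    refine ⟨fun i hi => ?_, fun i hi k hk => ?_⟩
    · by_cases h1 : i = x
      · subst h1; rw [upd_same]; exact ha
      · rw [upd_ne v a h1, hts.1 i hi h1]; exact hsv.val i hi
    · by_cases h1 : i = x
      · by_cases h2 : k = x
        · subst h1; subst h2
          exact ⟨fun _ => eqs_refl ht hi, fun _ => rfl⟩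
        · subst h1
          rw [upd_same, upd_ne v a h2]
          exact hj k hk h2
      · by_cases h2 : k = x
        · subst h2
          rw [upd_same, upd_ne v a h1]
          constructor
          · intro h3
            exact eqs_symm ht hk hi ((hj i hi h1).1 h3.symm)
          · intro h3
            exact ((hj i hi h1).2 (eqs_symm ht hi hk h3)).symm
        · rw [upd_ne v a h1, upd_ne v a h2]
          rw [hsv.eqs i hi k hk]
          simp only [Eqs]
          rw [hts.1 i hi h1, hts.1 k hk h2, hts.2 i hi k hk h1 h2]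
  rcases hv : t.v x with n | h
  · refine ⟨.inl n, red _ (by rw [hv]; rfl) fun j hj hjx => ?_⟩
    rw [eqs_num ht hx hj hv, hts.1 j hj hjx, hsv.val j hj, pr_inl]
    exact ⟨fun h => h.symm, fun h => h.symm⟩
  · by_cases hE : ∃ j < m, j ≠ x ∧ Eqs t x j
    · obtain ⟨j, hj, hjx, hE⟩ := hE
      refine ⟨v j, red _ ?_ fun k hk hkx => ?_⟩
      · rw [hE.1, hts.1 j hj hjx]; exact hsv.val j hj
      · rw [hsv.eqs j hj k hk]
        have e : Eqs s j k ↔ Eqs t j k := by
          simp only [Eqs]
          rw [hts.1 j hj hjx, hts.1 k hk hkx, hts.2 j hj k hk hjx hkx]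
        rw [e]
        exact ⟨fun h3 => eqs_trans ht hx hj hk hE h3,
          fun h3 => eqs_trans ht hj hx hk (eqs_symm ht hx hj hE) h3⟩
    · push Not at hE
      obtain ⟨k, hk⟩ : ∃ k : ℕ, ∀ j < m, v j ≠ .inr (k, h) := by
        by_contra hcon
        push Not at hcon
        choose f hf1 hf2 using hcon
        have hinj : Function.Injective f := by
          intro a b hab
          have h1 := hf2 a
          rw [hab, hf2 b] at h1
          simp only [Sum.inr.injEq, Prod.mk.injEq, and_true] at h1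
          exact h1.symm
        exact Set.infinite_of_injective_forall_mem hinj (fun a => Set.mem_Iio.2 (hf1 a))
          (Set.finite_Iio m)
      refine ⟨.inr (k, h), red _ (by rw [hv]; rfl) fun j hj hjx => ?_⟩
      exact ⟨fun h3 => absurd h3.symm (hk j hj), fun h3 => absurd h3 (hE j hj hjx)⟩

/-- the state in which all variables have the same value, a node of height `h` -/
theorem ok_const (m h : ℕ) : Ok m ⟨fun _ => .inr h, fun _ _ => 0⟩ where
  norm _ _ _ _ _ := rfl
  refl _ _ := rfl
  symm _ _ _ _ := rfl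
  le _ _ _ _ := Nat.zero_le _
  val _ _ _ _ _ _ _ := rfl
  cong _ _ _ _ _ _ _ _ _ := rfl
  tri _ _ _ _ _ _ _ _ := rfl

/-- Forth. -/
theorem forth {m : ℕ} {s : St} {v : ℕ → DM} (hs : Ok m s) (hsv : RelD m s v) {x : ℕ} (hx : x < m)
    (a : DM) : ∃ t, Ok m t ∧ Agr m x t s ∧ RelD m t (upd v x a) := by
  have red : ∀ t : St, Ok m t → Agr m x t s → t.v x = pr a →
      (∀ j < m, j ≠ x → (a = v j ↔ Eqs t x j)) → RelD m t (upd v x a) := by
    intro t ht hts ha hj
    refine ⟨fun i hi => ?_, fun i hi k hk => ?_⟩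
    · by_cases h1 : i = x
      · subst h1; rw [upd_same]; exact ha
      · rw [upd_ne v a h1, hts.1 i hi h1]; exact hsv.val i hi
    · by_cases h1 : i = x
      · by_cases h2 : k = x
        · subst h1; subst h2
          exact ⟨fun _ => eqs_refl ht hi, fun _ => rfl⟩
        · subst h1
          rw [upd_same, upd_ne v a h2]
          exact hj k hk h2
      · by_cases h2 : k = x
        · subst h2
          rw [upd_same, upd_ne v a h1]
          constructor
          · intro h3
            exact eqs_symm ht hk hi ((hj i hi h1).1 h3.symm)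
          · intro h3
            exact ((hj i hi h1).2 (eqs_symm ht hi hk h3)).symm
        · rw [upd_ne v a h1, upd_ne v a h2]
          rw [hsv.eqs i hi k hk]
          simp only [Eqs]
          rw [hts.1 i hi h1, hts.1 k hk h2, hts.2 i hi k hk h1 h2]
  rcases a with n | ⟨k, h⟩
  · refine ⟨setN s x n, ok_setN hs x n, agr_setN m s x n, ?_⟩
    have hv : (setN s x n).v x = .inl n := by simp [setN]
    refine red _ (ok_setN hs x n) (agr_setN m s x n) (by rw [hv]; rfl) fun j hj hjx => ?_
    rw [eqs_num (ok_setN hs x n) hx hj hv, (agr_setN m s x n).1 j hj hjx, hsv.val j hj, pr_inl]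
    exact ⟨fun h => h.symm, fun h => h.symm⟩
  · by_cases hE : ∃ j < m, j ≠ x ∧ v j = .inr (k, h)
    · obtain ⟨j, hj, hjx, hE⟩ := hE
      have h1 : Ok m (sub (ren x j) s) := ok_sub (ren_lt hj) hs
      have h2 := agr_sub m x j s
      refine ⟨_, h1, h2, red _ h1 h2 ?_ fun i hi hix => ?_⟩
      · simp only [sub, ren, if_true]
        rw [hsv.val j hj, hE]
      · rw [← hE, hsv.eqs j hj i hi]
        simp only [Eqs, sub, ren, if_true, if_neg hix]
    · push Not at hE
      obtain ⟨r, h1, h2, h3, h4, -⟩ := exists_node (F := fun _ => False) hs (ok_const m h)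
        (x := x) (h := h) hx id ⟨fun _ _ h => absurd h id, fun _ _ _ _ h => absurd h id⟩ rfl
        (fun _ _ h => absurd h id)
      refine ⟨r, h1, h2, red _ h1 h2 (by rw [h3]; rfl) fun j hj hjx => ?_⟩
      refine ⟨fun h5 => absurd h5.symm (hE j hj hjx), fun h5 => ?_⟩
      have h6 : (s.v j).isRight := by
        rw [← h2.1 j hj hjx, ← h5.1, h3]; rfl
      exact absurd h5.2 (h4 j hj hjx h6)

/-- For every state there are values. -/
theorem exists_rel {m : ℕ} {s : St} (hs : Ok m s) : ∃ v : ℕ → DM, RelD m s v := by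
  classical
  obtain ⟨f, hf⟩ : ∃ f : ℕ → ℕ, ∀ i < m, f i < m ∧ Eqs s i (f i) ∧
      ∀ j < m, Eqs s i j → f i ≤ j := by
    have h : ∀ i, ∃ k, i < m → (k < m ∧ Eqs s i k ∧ ∀ j < m, Eqs s i j → k ≤ j) := by
      intro i
      by_cases hi : i < m
      · have hne : ∃ k, k < m ∧ Eqs s i k := ⟨i, hi, eqs_refl hs hi⟩
        refine ⟨Nat.find hne, fun _ => ⟨(Nat.find_spec hne).1, (Nat.find_spec hne).2,
          fun j hj h => Nat.find_min' hne ⟨hj, h⟩⟩⟩
      · exact ⟨0, fun h => absurd h hi⟩
    choose f hf using h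
    exact ⟨f, fun i hi => hf i hi⟩
  refine ⟨fun i => match s.v i with
    | .inl a => .inl a
    | .inr h => .inr (f i, h), ⟨fun i hi => ?_, fun i hi j hj => ?_⟩⟩
  · rcases h : s.v i with a | b <;> simp [pr]
  · rcases h : s.v i with a | b
    · rw [eqs_num hs hi hj h]
      rcases h' : s.v j with a' | b'
      · simp only [Sum.inl.injEq, eq_comm]
      · simp only [reduceCtorEq]
    · rcases h' : s.v j with a' | b'
      · simp only [h, h', reduceCtorEq, Eqs, false_and]
      · simp only [Sum.inr.injEq, Prod.mk.injEq]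
        constructor
        · rintro ⟨h1, h2⟩
          have e1 := (hf i hi).2.1
          have e2 := (hf j hj).2.1
          rw [h1] at e1
          exact eqs_trans hs hi (hf j hj).1 hj e1 (eqs_symm hs hj (hf j hj).1 e2)
        · intro h1
          refine ⟨le_antisymm ?_ ?_, ?_⟩
          · exact (hf i hi).2.2 _ (hf j hj).1 (eqs_trans hs hi hj (hf j hj).1 h1 (hf j hj).2.1)
          · exact (hf j hj).2.2 _ (hf i hi).1
              (eqs_trans hs hj hi (hf i hi).1 (eqs_symm hs hi hj h1) (hf i hi).2.1)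
          · have := h1.1
            rw [h, h'] at this
            simpa using this

/-- Truth in the pseudo-model and in the real structure. -/
theorem tru_iff_sat {m : ℕ} : ∀ {φ : Fml}, NoCol φ → Vlt m φ → ∀ {s : St} {v : ℕ → DM},
    Ok m s → RelD m s v → (Tru m φ s ↔ Fm.Sat D φ v) := by
  intro φ
  induction φ with
  | bot => intro _ _ s v _ _; rfl
  | eq x y =>
    intro _ hV s v hs h
    exact (h.eqs x hV.1 y hV.2).symm
  | zero x =>
    intro _ hV s v hs h
    show s.v x = .inl 0 ↔ v x = .inl 0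
    rw [h.val x hV, pr_inl]
  | succ x y =>
    intro _ hV s v hs h
    show SuccS s x y ↔ v y = Dsucc (v x)
    have h1 := h.val x hV.1
    have h2 := h.val y hV.2
    rcases hx : v x with a | p
    · rw [hx, pr_l] at h1
      simp only [SuccS, h1, h2, Dsucc, pr_inl]
    · have h3 := h.eqs x hV.1 y hV.2
      rw [hx, pr_r] at h1
      rw [hx] at h3
      simp only [SuccS, h1, Dsucc]
      rw [← h3]
      exact eq_comm
  | add x y z =>
    intro _ hV s v hs h
    show AddS s x y z ↔ v z = Dadd (v x) (v y)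
    have h1 := h.val x hV.1
    have h2 := h.val y hV.2.1
    have h3 := h.val z hV.2.2
    have e1 := h.eqs x hV.1 z hV.2.2
    have e2 := h.eqs y hV.2.1 z hV.2.2
    rcases hx : v x with a | p <;> rcases hy : v y with b | q <;>
      rw [hx] at h1 e1 <;> rw [hy] at h2 e2
    · rw [pr_l] at h1 h2
      simp only [AddS, h1, h2, h3, Dadd, pr_inl]
    · rw [pr_l] at h1
      rw [pr_r] at h2
      simp only [AddS, h1, h2, Dadd]
      rw [← e2]; exact eq_comm
    · rw [pr_r] at h1
      rw [pr_l] at h2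
      simp only [AddS, h1, h2, Dadd]
      rw [← e1]; exact eq_comm
    · rw [pr_r] at h1 h2
      simp only [AddS, h1, h2, Dadd]
      rw [← e2]; exact eq_comm
  | mul x y z =>
    intro _ hV s v hs h
    show MulS s x y z ↔ v z = Dmul (v x) (v y)
    have h1 := h.val x hV.1
    have h2 := h.val y hV.2.1
    have h3 := h.val z hV.2.2
    have e1 := h.eqs x hV.1 z hV.2.2
    have e2 := h.eqs y hV.2.1 z hV.2.2
    rcases hx : v x with a | p <;> rcases hy : v y with b | q <;>
      rw [hx] at h1 e1 <;> rw [hy] at h2 e2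
    · rw [pr_l] at h1 h2
      simp only [MulS, h1, h2, h3, Dmul, pr_inl]
    · rw [pr_l] at h1
      rw [pr_r] at h2
      simp only [MulS, h1, h2, Dmul]
      rw [← e2]; exact eq_comm
    · rw [pr_r] at h1
      rw [pr_l] at h2
      simp only [MulS, h1, h2, h3, Dmul]
      split_ifs with hb
      · rw [pr_inl]
      · rw [← e1]; exact eq_comm
    · rw [pr_r] at h1 h2
      simp only [MulS, h1, h2, Dmul]
      rw [← e1]; exact eq_comm
  | op i a b c d =>
    intro hN hV s v hs h
    show OpS s i a b c ↔ Dop i (v a) (v b) (v c)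
    have h1 := h.val a hV.1
    have h2 := h.val b hV.2.1
    have h3 := h.val c hV.2.2.1
    match i, hN with
    | 0, _ =>
      show (s.v a).isLeft = true ↔ (v a).isLeft = true
      rw [h1]
      rcases v a with a | p <;> simp [pr]
    | 1, _ =>
      show (∃ p q, s.v a = .inl p ∧ s.v b = .inl q ∧ p < q) ↔
        (∃ p q, v a = .inl p ∧ v b = .inl q ∧ p < q)
      simp only [h1, h2, pr_inl]
    | 2, _ =>
      show (∃ h, s.v a = .inr h ∧ s.v b = .inl h) ↔ (∃ h, (∃ k, v a = .inr (k, h)) ∧ v b = .inl h)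
      simp only [h1, h2, pr_inl, pr_inr]
    | 3, h => exact absurd rfl h
    | 4, _ =>
      show (∃ p q, s.v a = .inl p ∧ s.v b = .inl q ∧ Erel p q) ↔
        (∃ p q, v a = .inl p ∧ v b = .inl q ∧ Erel p q)
      simp only [h1, h2, pr_inl]
    | 5, _ =>
      show (∃ p q r, s.v a = .inl p ∧ s.v b = .inl q ∧ s.v c = .inl r ∧ Crel p q r) ↔
        (∃ p q r, v a = .inl p ∧ v b = .inl q ∧ v c = .inl r ∧ Crel p q r)
      simp only [h1, h2, h3, pr_inl]
    | (n + 6), _ => exact Iff.rfl
  | imp φ ψ ih ih' =>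
    intro hN hV s v hs h
    simp only [Tru, Fm.sat_imp]
    rw [ih hN.1 hV.1 hs h, ih' hN.2 hV.2 hs h]
  | all x φ ih =>
    intro hN hV s v hs h
    simp only [Tru, Fm.sat_all]
    constructor
    · intro H a
      obtain ⟨t, ht, hts, hta⟩ := forth hs h hV.1 a
      exact (ih hN hV.2 ht hta).1 (H t ht hts)
    · intro H t ht hts
      obtain ⟨a, ha⟩ := back h hV.1 ht hts
      exact (ih hN hV.2 ht ha).2 (H a)

/-- Formulas that are true in the real structure are true in the pseudo-model. -/
theorem tr1_of_sat {m : ℕ} {φ : Fml} (hN : NoCol φ) (hV : Vlt m φ)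
    (h : ∀ v : ℕ → DM, Fm.Sat D φ v) : Tr1 m φ := by
  intro s hs
  obtain ⟨v, hv⟩ := exists_rel hs
  exact (tru_iff_sat hN hV hs hv).2 (h v)

/-- Arithmetical sentences: truth in the pseudo-model of dimension `m` is truth in the real
structure. -/
theorem tr1_iff_sat {m : ℕ} {φ : Fml} (hN : NoCol φ) (hV : Vlt m φ) (hC : φ.Closed) :
    Tr1 m φ ↔ ∀ v : ℕ → DM, Fm.Sat D φ v := by
  refine ⟨fun h v => ?_, tr1_of_sat hN hV⟩
  obtain ⟨w, hw⟩ := exists_rel (ok_const m 0)
  have h1 := (tru_iff_sat hN hV (ok_const m 0) hw).1 (h _ (ok_const m 0))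
  exact (sat_congr fun x hx => absurd hx (hC x)).1 h1

end Pool.Agent.T9h21.BC
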