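import Pool.Agent.T9h21.BC.Def

set_option autoImplicit false
set_option linter.unusedSectionVars false

/-!
Inequalities on contracted nodes: a 2-factor that satisfies the subtour constraints of all unions
of classes has the same contraction as a tour.
-/

namespace Pool.Agent.T9h21.BC

open Finset Equiv.Perm

section con

variable {P : Finset (ℤ × ℤ)}

theorem mem_of_closed (σ : Equiv.Perm P) (p0 : P) (T : Finset P) (h0 : p0 ∈ T)
    (hT : ∀ v ∈ T, σ v ∈ T) (v : P) (h : SameCycle σ p0 v) : v ∈ T := by
  obtain ⟨i, hi⟩ := h.exists_nat_pow_eq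
  rw [← hi]
  clear hi
  induction i with
  | zero => simpa using h0
  | succ i ih =>
    rw [pow_succ', Equiv.Perm.mul_apply]
    exact hT _ ih

/-- exchanging the successors of points of different cycles merges the cycles -/
theorem merge (σ : Equiv.Perm P) (p0 a b : P) (ha : SameCycle σ p0 a) (hb : ¬ SameCycle σ p0 b) :
    (∀ v, SameCycle σ p0 v → SameCycle (σ * Equiv.swap a b) p0 v) ∧
      SameCycle (σ * Equiv.swap a b) p0 b := by
  classical
  set τ := σ * Equiv.swap a b with hτ
  have hab : a ≠ b := fun h => hb (h ▸ ha)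
  have t1 : τ a = σ b := by rw [hτ, Equiv.Perm.mul_apply, Equiv.swap_apply_left]
  have t2 : τ b = σ a := by rw [hτ, Equiv.Perm.mul_apply, Equiv.swap_apply_right]
  have t3 : ∀ v, v ≠ a → v ≠ b → τ v = σ v := by
    intro v h1 h2
    rw [hτ, Equiv.Perm.mul_apply, Equiv.swap_apply_of_ne_of_ne h1 h2]
  have cl : ∀ (ρ : Equiv.Perm P) u v, SameCycle ρ u v → SameCycle ρ u (ρ v) := by
    intro ρ u v h
    exact sameCycle_apply_right.2 h
  have hA : SameCycle τ p0 a := by
    by_contra hcon
    have h1 := mem_of_closed σ p0 (univ.filter fun v => SameCycle σ p0 v ∧ SameCycle τ p0 v)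
      (by simp [SameCycle.refl]) (by
        intro v hv
        rw [mem_filter] at hv ⊢
        obtain ⟨_, h1, h2⟩ := hv
        have h3 : v ≠ a := fun h => hcon (h ▸ h2)
        have h4 : v ≠ b := fun h => hb (h ▸ h1)
        refine ⟨mem_univ _, cl σ p0 v h1, ?_⟩
        rw [← t3 v h3 h4]
        exact cl τ p0 v h2) a ha
    rw [mem_filter] at h1
    exact hcon h1.2.2
  have hB : SameCycle τ p0 b := by
    by_contra hcon
    have h1 := mem_of_closed σ (σ b) (univ.filter fun v => SameCycle σ b v ∧ SameCycle τ p0 v)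
      (by
        rw [mem_filter]
        refine ⟨mem_univ _, cl σ b b (SameCycle.refl σ b), ?_⟩
        rw [← t1]
        exact cl τ p0 a hA) (by
        intro v hv
        rw [mem_filter] at hv ⊢
        obtain ⟨_, h1, h2⟩ := hv
        have h3 : v ≠ a := fun h => hb (ha.trans (h ▸ h1).symm)
        have h4 : v ≠ b := fun h => hcon (h ▸ h2)
        refine ⟨mem_univ _, cl σ b v h1, ?_⟩
        rw [← t3 v h3 h4]
        exact cl τ p0 v h2) b (sameCycle_apply_left.2 (SameCycle.refl σ b))
    rw [mem_filter] at h1
    exact hcon h1.2.2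
  refine ⟨fun v hv => ?_, hB⟩
  have h1 := mem_of_closed σ p0 (univ.filter fun v => SameCycle σ p0 v ∧ SameCycle τ p0 v)
    (by simp [SameCycle.refl]) (by
      intro v hv
      rw [mem_filter] at hv ⊢
      obtain ⟨_, h1, h2⟩ := hv
      refine ⟨mem_univ _, cl σ p0 v h1, ?_⟩
      have h4 : v ≠ b := fun h => hb (h ▸ h1)
      by_cases h3 : v = a
      · rw [h3, ← t2]
        exact cl τ p0 b hB
      · rw [← t3 v h3 h4]
        exact cl τ p0 v h2) v hv
  rw [mem_filter] at h1
  exact h1.2.2

/-- If the only nonempty closed union of classes is the set of all points then some tour has the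
same contraction. -/
theorem exists_tour {κ : Type} (c : P → κ) (s : Equiv.Perm P)
    (h : ∀ S : Finset P, S.Nonempty → (∀ v ∈ S, s v ∈ S) →
      (∀ u v, c u = c v → u ∈ S → v ∈ S) → S = univ) :
    ∃ σ : Equiv.Perm P, IsTour P σ ∧
      ∀ f : κ → κ → ℝ, ∑ v, f (c v) (c (σ v)) = ∑ v, f (c v) (c (s v)) := by
  classical
  rcases isEmpty_or_nonempty P with hP | ⟨⟨p0⟩⟩
  · exact ⟨s, fun u => (hP.false u).elim, fun f => rfl⟩
  set O : Equiv.Perm P → Finset P := fun π => univ.filter fun v => SameCycle (s * π) p0 v with hO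
  have hne : (univ.filter fun π : Equiv.Perm P => ∀ v, c (π v) = c v).Nonempty :=
    ⟨1, by simp⟩
  obtain ⟨π, hπ, hmax⟩ := Finset.exists_max_image _ (fun π => (O π).card) hne
  rw [mem_filter] at hπ
  have hπ := hπ.2
  have hmem : ∀ π v, v ∈ O π ↔ SameCycle (s * π) p0 v := by
    intro π v
    simp [hO]
  have huni : ∀ a b, c a = c b → a ∈ O π → b ∈ O π := by
    intro a b hab ha
    by_contra hb
    rw [hmem] at ha hb
    obtain ⟨h1, h2⟩ := merge (s * π) p0 a b ha hb
    have h3 : π * Equiv.swap a b ∈ univ.filter fun π : Equiv.Perm P => ∀ v, c (π v) = c v := by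
      rw [mem_filter]
      refine ⟨mem_univ _, fun v => ?_⟩
      rw [Equiv.Perm.mul_apply, hπ]
      by_cases h4 : v = a
      · rw [h4, Equiv.swap_apply_left, hab]
      · by_cases h5 : v = b
        · rw [h5, Equiv.swap_apply_right, hab]
        · rw [Equiv.swap_apply_of_ne_of_ne h4 h5]
    have h4 := hmax _ h3
    have h5 : O π ⊂ O (π * Equiv.swap a b) := by
      rw [Finset.ssubset_iff_of_subset]
      · refine ⟨b, ?_, ?_⟩
        · rw [hmem, ← mul_assoc]
          exact h2
        · rw [hmem]
          exact hb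
      · intro v hv
        rw [hmem] at hv ⊢
        rw [← mul_assoc]
        exact h1 v hv
    exact absurd (Finset.card_lt_card h5) (not_lt.2 h4)
  have hclO : ∀ v ∈ O π, (s * π) v ∈ O π := by
    intro v hv
    rw [hmem] at hv ⊢
    exact sameCycle_apply_right.2 hv
  have hall : O π = univ := by
    refine h (O π) ⟨p0, by rw [hmem]⟩ (fun v hv => ?_) huni
    have h1 : π⁻¹ v ∈ O π := by
      refine huni v _ ?_ hv
      have h2 : π (π⁻¹ v) = v := by simp
      have := hπ (π⁻¹ v)
      rw [h2] at this
      exact this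
    have h2 := hclO _ h1
    have h3 : π (π⁻¹ v) = v := by simp
    rwa [Equiv.Perm.mul_apply, h3] at h2
  refine ⟨s * π, ?_, ?_⟩
  · intro u v
    have hu : SameCycle (s * π) p0 u := by rw [← hmem, hall]; exact mem_univ _
    have hv : SameCycle (s * π) p0 v := by rw [← hmem, hall]; exact mem_univ _
    exact (hu.symm.trans hv).exists_nat_pow_eq
  · intro f
    have h1 := Equiv.sum_comp π (fun v => f (c v) (c (s v)))
    rw [← h1]
    refine Finset.sum_congr rfl fun v _ => ?_
    rw [hπ]
    rfl

theorem form_eq (c : P → ℕ) (f : ℕ → ℕ → ℝ) (s : Equiv.Perm P) :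
    ∑ u, ∑ v, f (c u) (c v) * inc P s u v = ∑ v, f (c v) (c (s v)) := by
  refine Finset.sum_congr rfl fun u _ => ?_
  unfold inc
  simp

/-- All inequalities that are valid for all tours and whose coefficients depend only on a partition
of the points into at most `k` classes, or into classes one of which contains all but less than
`K` points, belong to the inequalities of the relaxation with the parameters `K` and `2 ^ k`. -/
theorem contracted (P : Finset (ℤ × ℤ)) (B : ℝ) (K k : ℕ) (c : P → ℕ) (f : ℕ → ℕ → ℝ) (d : ℝ)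
    (hk : (univ.image c).card ≤ k ∨ ∃ i, P.card < K + (univ.filter fun v => c v = i).card)
    (h : ∀ s : Equiv.Perm P, IsTour P s → d ≤ ∑ u, ∑ v, f (c u) (c v) * inc P s u v) :
    Valid P B K (2 ^ k) (fun u v => f (c u) (c v)) d := by
  classical
  have key : ∀ s : Equiv.Perm P, (∀ S : Finset P, S.Nonempty → (∀ v ∈ S, s v ∈ S) →
      (∀ u v, c u = c v → u ∈ S → v ∈ S) → S = univ) →
      d ≤ ∑ u, ∑ v, f (c u) (c v) * inc P s u v := by
    intro s hs
    obtain ⟨σ, h1, h2⟩ := exists_tour c s hs
    have h3 := h σ h1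
    rw [form_eq] at h3 ⊢
    rw [← h2]
    exact h3
  rcases hk with hk | ⟨i, hi⟩
  · refine ⟨((univ.image c).powerset.image fun A => univ.filter fun v => c v ∈ A).filter
      fun S => S.Nonempty ∧ S ≠ univ, ?_, ?_, ?_⟩
    · refine (Finset.card_filter_le _ _).trans (Finset.card_image_le.trans ?_)
      rw [Finset.card_powerset]
      exact Nat.pow_le_pow_right (by norm_num) hk
    · intro S hS
      exact (mem_filter.1 hS).2
    · intro s _ _ _ hs
      refine key s fun S hS1 hS2 hS3 => ?_
      by_contra hS4
      obtain ⟨v, hv1, hv2⟩ := hs S (by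
        rw [mem_filter]
        refine ⟨?_, hS1, hS4⟩
        rw [mem_image]
        refine ⟨S.image c, ?_, ?_⟩
        · rw [mem_powerset]
          exact Finset.image_subset_image (Finset.subset_univ _)
        · ext v
          rw [mem_filter, mem_image]
          constructor
          · rintro ⟨_, u, hu, huv⟩
            exact hS3 u v huv hu
          · intro hv
            exact ⟨mem_univ _, v, hv, rfl⟩)
      exact hv2 (hS2 v hv1)
  · refine ⟨∅, by simp, by simp, ?_⟩
    intro s _ _ hlong _
    refine key s fun S hS1 hS2 hS3 => ?_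
    by_contra hS4
    have hmap : S.image s = S :=
      Finset.eq_of_subset_of_card_le (Finset.image_subset_iff.2 hS2)
        (by rw [Finset.card_image_of_injective _ s.injective])
    have hcomp : ∀ v ∈ Sᶜ, s v ∈ Sᶜ := by
      intro v hv
      rw [mem_compl] at hv ⊢
      intro h1
      rw [← hmap, mem_image] at h1
      obtain ⟨u, hu, huv⟩ := h1
      exact hv (s.injective huv ▸ hu)
    have hne : Sᶜ.Nonempty := by
      rw [Finset.nonempty_iff_ne_empty]
      intro h1
      exact hS4 (by rw [← compl_compl S, h1]; simp)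
    have h1 := hlong S hS1 hS2
    have h2 := hlong Sᶜ hne hcomp
    have h3 : S.card + Sᶜ.card = P.card := by
      rw [Finset.card_add_card_compl, Fintype.card_coe]
    set M : Finset P := univ.filter fun v => c v = i with hM
    have h4 : M ⊆ S ∨ M ⊆ Sᶜ := by
      by_cases h5 : ∃ u ∈ M, u ∈ S
      · obtain ⟨u, hu1, hu2⟩ := h5
        left
        intro v hv
        rw [hM, mem_filter] at hu1 hv
        exact hS3 u v (hu1.2.trans hv.2.symm) hu2
      · right
        intro v hv
        rw [mem_compl]
        exact fun h6 => h5 ⟨v, hv, h6⟩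
    rcases h4 with h4 | h4
    · have := Finset.card_le_card h4
      omega
    · have := Finset.card_le_card h4
      omega

end con

end Pool.Agent.T9h21.BC
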