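import Pool.Agent.W888.UG.KV

set_option autoImplicit false
set_option linter.unusedSectionVars false

/-!
Euclidean travelling salesman instances and relaxations.
-/

namespace Pool.Agent.T9h21.BC

open Finset

/-- The Euclidean distance of two points of the integer lattice. -/
noncomputable def dst (a b : ℤ × ℤ) : ℝ :=
  Real.sqrt (((a.1 - b.1 : ℤ) : ℝ) ^ 2 + ((a.2 - b.2 : ℤ) : ℝ) ^ 2)

variable (P : Finset (ℤ × ℤ))

/-- The length of a permutation `s` of the points: the sum of the Euclidean distances from the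
points to their successors. -/
noncomputable def len (s : Equiv.Perm P) : ℝ := ∑ v : P, dst v (s v)

/-- The incidence vector of a permutation: the entry of the pair `(u, v)` is `1` if `v` is the
successor of `u`, and `0` otherwise. -/
noncomputable def inc (s : Equiv.Perm P) (u v : P) : ℝ := if s u = v then 1 else 0

/-- `s` is the successor function of a cyclic ordering of all points (a tour): every point is
reached from every point. -/
def IsTour (s : Equiv.Perm P) : Prop := ∀ u v : P, ∃ k : ℕ, (s ^ k) u = v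

/-- The permutation `s` is a directed 2-factor: all its cycles contain at least three points. -/
def IsTwoFactor (s : Equiv.Perm P) : Prop := ∀ v : P, s v ≠ v ∧ s (s v) ≠ v

/-- All cycles of the permutation `s` contain at least `K` points: this holds for all nonempty sets
of points that are closed under `s`. -/
def LongCycles (K : ℕ) (s : Equiv.Perm P) : Prop :=
  ∀ S : Finset P, S.Nonempty → (∀ v ∈ S, s v ∈ S) → K ≤ S.card

/-- The inequality `∑ c u v * x u v ≥ d` holds for all 2-factors of length at most `B` whose cycles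
all have at least `K` points and that satisfy the subtour constraints (some edge leaves `S`) of at
most `N` sets `S`, chosen for the inequality. The point of a 2-factor `s` is its incidence vector
`inc P s`. -/
def Valid (B : ℝ) (K N : ℕ) (c : P → P → ℝ) (d : ℝ) : Prop :=
  ∃ 𝒮 : Finset (Finset P), 𝒮.card ≤ N ∧ (∀ S ∈ 𝒮, S.Nonempty ∧ S ≠ univ) ∧
    ∀ s : Equiv.Perm P, IsTwoFactor P s → len P s ≤ B → LongCycles P K s →
      (∀ S ∈ 𝒮, ∃ v ∈ S, s v ∉ S) → d ≤ ∑ u, ∑ v, c u v * inc P s u v

/-- The polynomials of degree at most `t` in the variables `x u v`, as functions of the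
permutation. -/
noncomputable def Poly (t : ℕ) : Submodule ℝ (Equiv.Perm P → ℝ) :=
  Submodule.span ℝ {f | ∃ T : Finset (P × P), T.card ≤ t ∧ 
    f = fun s : Equiv.Perm P => ∏ e ∈ T, inc P s e.1 e.2}

/-- The relaxation: the points `x` which are the mean of a probability distribution `μ` on the
2-factors of length at most `B`, all whose cycles have at least `K` points, that satisfies
`E [f ^ 2 * (c x - d)] ≥ 0` for all polynomials `f` of degree at most `t` and all inequalities
`c x ≥ d` with `Valid P B K N c d`. -/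
def Relax (B : ℝ) (K N t : ℕ) : Set (P → P → ℝ) :=
  {x | ∃ μ : Equiv.Perm P → ℝ, (∀ s, 0 ≤ μ s) ∧ ∑ s, μ s = 1 ∧
    (∀ s, μ s ≠ 0 → IsTwoFactor P s ∧ len P s ≤ B ∧ LongCycles P K s) ∧
    (∀ u v, x u v = ∑ s, μ s * inc P s u v) ∧
    ∀ c d, Valid P B K N c d → ∀ f ∈ Poly P t,
      0 ≤ ∑ s, μ s * (f s ^ 2 * ((∑ u, ∑ v, c u v * inc P s u v) - d))}

/-- The split closure of a relaxation `R`: the points which satisfy all cuts that are valid for the
two parts `a x ≤ b` and `a x ≥ b + 1` of `R`, for some integral linear form `a` and some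
integer `b`. -/
def splitClosure (R : Set (P → P → ℝ)) : Set (P → P → ℝ) :=
  {x | ∀ (a : P → P → ℤ) (b : ℤ), x ∈ convexHull ℝ
    ({y | y ∈ R ∧ ∑ u, ∑ v, (a u v : ℝ) * y u v ≤ b} ∪
      {y | y ∈ R ∧ (b : ℝ) + 1 ≤ ∑ u, ∑ v, (a u v : ℝ) * y u v})}

/-- A set that is closed under a tour is empty or contains all points. -/
theorem tour_closed (s : Equiv.Perm P) (h1 : IsTour P s) (S : Finset P) (hS : S.Nonempty)
    (hc : ∀ v ∈ S, s v ∈ S) : S = univ := by
  obtain ⟨u, hu⟩ := hS
  have h4 : ∀ k : ℕ, (s ^ k) u ∈ S := by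
    intro k
    induction k with
    | zero => simpa using hu
    | succ k ih =>
      rw [pow_succ', Equiv.Perm.mul_apply]
      exact hc _ ih
  rw [Finset.eq_univ_iff_forall]
  intro v
  obtain ⟨k, hk⟩ := h1 u v
  rw [← hk]
  exact h4 k

theorem tour_long (K : ℕ) (hK : K ≤ P.card) (s : Equiv.Perm P) (h1 : IsTour P s) :
    LongCycles P K s := by
  intro S hS hc
  rw [tour_closed P s h1 S hS hc, Finset.card_univ, Fintype.card_coe]
  exact hK

/-- The relaxation contains all tours of length at most `B`. -/
theorem tour_mem (B : ℝ) (K N t : ℕ) (hK : K ≤ P.card) (s : Equiv.Perm P) (h1 : IsTour P s)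
    (h2 : IsTwoFactor P s) (h3 : len P s ≤ B) : inc P s ∈ Relax P B K N t := by
  classical
  have key : ∀ F : Equiv.Perm P → ℝ, ∑ s', (if s' = s then (1 : ℝ) else 0) * F s' = F s := by
    intro F
    simp
  refine ⟨fun s' => if s' = s then 1 else 0, ?_, ?_, ?_, ?_, ?_⟩
  · intro s'
    show 0 ≤ (if s' = s then (1 : ℝ) else 0)
    split_ifs <;> norm_num
  · simp
  · intro s' hs'
    have : s' = s := by
      by_contra h
      exact hs' (if_neg h)
    rw [this]
    exact ⟨h2, h3, tour_long P K hK s h1⟩
  · intro u v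
    rw [key]
  · rintro c d ⟨𝒮, _, h𝒮, hv⟩ f _
    rw [key]
    refine mul_nonneg (sq_nonneg _) (sub_nonneg.2 (hv s h2 h3 (tour_long P K hK s h1)
      fun S hS => ?_))
    obtain ⟨hu, hne⟩ := h𝒮 S hS
    by_contra hcon
    push Not at hcon
    exact hne (tour_closed P s h1 S hu hcon)

/-- The split closure contains all integral points of the relaxation. -/
theorem split_mem (R : Set (P → P → ℝ)) (s : Equiv.Perm P) (h : inc P s ∈ R) :
    inc P s ∈ splitClosure P R := by
  intro a b
  apply subset_convexHull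
  have hz : ∑ u, ∑ v, (a u v : ℝ) * inc P s u v = ((∑ u, a u (s u) : ℤ) : ℝ) := by
    push_cast
    refine Finset.sum_congr rfl fun u _ => ?_
    unfold inc
    simp
  rcases le_or_gt (∑ u, a u (s u)) b with h1 | h1
  · left
    refine ⟨h, ?_⟩
    rw [hz]
    exact_mod_cast h1
  · right
    refine ⟨h, ?_⟩
    rw [hz]
    exact_mod_cast h1

theorem split_iter_mem (R : Set (P → P → ℝ)) (s : Equiv.Perm P) (h : inc P s ∈ R) (r : ℕ) :
    inc P s ∈ (splitClosure P)^[r] R := by
  induction r with
  | zero => exact h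
  | succ r ih =>
    rw [Function.iterate_succ_apply']
    exact split_mem P _ s ih

/-- The split closure is contained in every convex set that contains the relaxation. -/
theorem split_sub (R C : Set (P → P → ℝ)) (hC : Convex ℝ C) (h : R ⊆ C) :
    splitClosure P R ⊆ C := by
  intro x hx
  have h1 := hx 0 0
  refine (convexHull_min ?_ hC) h1
  rintro y (hy | hy)
  · exact h hy.1
  · exact h hy.1

/-- If there is no tour of length at most `B` then the relaxation contains no integral point. -/
theorem no_integral (B : ℝ) (K : ℕ) (hB : ∀ s : Equiv.Perm P, IsTour P s → B < len P s)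
    (x : P → P → ℝ) (hx : x ∈ Relax P B K 1 0) (hi : ∀ u v, x u v ≤ 0 ∨ 1 ≤ x u v) : False := by
  classical
  obtain ⟨μ, hμ0, hμ1, hsup, hmean, hval⟩ := hx
  obtain ⟨s0, hs0⟩ : ∃ s, 0 < μ s := by
    by_contra hcon
    push Not at hcon
    have : ∑ s, μ s ≤ 0 := Finset.sum_nonpos fun s _ => hcon s
    linarith
  have hterm : ∀ s u v, 0 ≤ μ s * inc P s u v := by
    intro s u v
    refine mul_nonneg (hμ0 s) ?_
    rw [inc]
    split_ifs <;> norm_num
  have hone : ∀ u, x u (s0 u) = 1 := by
    intro u
    have h1 : μ s0 ≤ x u (s0 u) := by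
      rw [hmean]
      have h2 := Finset.single_le_sum (f := fun s => μ s * inc P s u (s0 u))
        (fun s _ => hterm s u (s0 u)) (Finset.mem_univ s0)
      simp only [inc, if_true, mul_one] at h2 ⊢
      exact h2
    have h3 : 1 ≤ x u (s0 u) := by
      rcases hi u (s0 u) with h | h
      · linarith
      · exact h
    have h4 : x u (s0 u) ≤ 1 := by
      rw [hmean, ← hμ1]
      refine Finset.sum_le_sum fun s _ => ?_
      rw [inc]
      split_ifs
      · rw [mul_one]
      · rw [mul_zero]; exact hμ0 s
    linarith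
  have hzero : ∀ s, s ≠ s0 → μ s = 0 := by
    intro s hs
    obtain ⟨u, hu⟩ : ∃ u, s u ≠ s0 u := by
      by_contra hcon
      push Not at hcon
      exact hs (Equiv.ext hcon)
    have h1 := hone u
    rw [hmean, ← hμ1] at h1
    have h2 : ∑ s, (μ s - μ s * inc P s u (s0 u)) = 0 := by
      rw [Finset.sum_sub_distrib]
      linarith
    rw [Finset.sum_eq_zero_iff_of_nonneg] at h2
    · have h3 := h2 s (Finset.mem_univ _)
      rw [inc, if_neg hu] at h3
      linarith
    · intro s _
      rw [inc]
      split_ifs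
      · linarith
      · rw [mul_zero, sub_zero]; exact hμ0 s
  obtain ⟨h2f, hlen, _⟩ := hsup s0 hs0.ne'
  have hnot : ¬ IsTour P s0 := fun h => absurd (hB s0 h) (not_lt.2 hlen)
  unfold IsTour at hnot
  push Not at hnot
  obtain ⟨a, b, hab⟩ := hnot
  set S : Finset P := univ.filter fun v => ∃ k : ℕ, (s0 ^ k) a = v with hS
  have haS : a ∈ S := by
    rw [hS, Finset.mem_filter]
    exact ⟨Finset.mem_univ _, 0, by simp⟩
  have hbS : b ∉ S := by
    rw [hS, Finset.mem_filter]
    rintro ⟨_, k, hk⟩
    exact hab k hk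
  have hclosed : ∀ v ∈ S, s0 v ∈ S := by
    intro v hv
    rw [hS, Finset.mem_filter] at hv ⊢
    obtain ⟨_, k, hk⟩ := hv
    exact ⟨Finset.mem_univ _, k + 1, by rw [pow_succ', Equiv.Perm.mul_apply, hk]⟩
  have hvalid : Valid P B K 1 (fun u v => if u ∈ S ∧ v ∉ S then 1 else 0) 1 := by
    refine ⟨{S}, by simp, ?_, ?_⟩
    · intro S' hS'
      rw [Finset.mem_singleton] at hS'
      rw [hS']
      exact ⟨⟨a, haS⟩, fun h => hbS (h ▸ Finset.mem_univ b)⟩
    · intro s _ _ _ hs
      obtain ⟨v, hv, hsv⟩ := hs S (Finset.mem_singleton_self S)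
      have h1 : ∀ u v, 0 ≤ (if u ∈ S ∧ v ∉ S then (1 : ℝ) else 0) * inc P s u v := by
        intro u v
        rw [inc]
        split_ifs <;> norm_num
      have h2 : (1 : ℝ) ≤ ∑ v', (if v ∈ S ∧ v' ∉ S then (1 : ℝ) else 0) * inc P s v v' := by
        have h3 := Finset.single_le_sum
          (f := fun v' => (if v ∈ S ∧ v' ∉ S then (1 : ℝ) else 0) * inc P s v v')
          (fun v' _ => h1 v v') (Finset.mem_univ (s v))
        refine le_trans ?_ h3
        simp [inc, hv, hsv]
      refine h2.trans ?_
      exact Finset.single_le_sum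
        (f := fun u => ∑ v', (if u ∈ S ∧ v' ∉ S then (1 : ℝ) else 0) * inc P s u v')
        (fun u _ => Finset.sum_nonneg fun v' _ => h1 u v') (Finset.mem_univ v)
  have h5 := hval _ _ hvalid (fun _ => 1) (by
    refine Submodule.subset_span ⟨∅, by simp, ?_⟩
    funext s
    simp)
  rw [Finset.sum_eq_single s0] at h5
  · have h6 : ∑ u, ∑ v, (if u ∈ S ∧ v ∉ S then (1 : ℝ) else 0) * inc P s0 u v = 0 := by
      refine Finset.sum_eq_zero fun u _ => Finset.sum_eq_zero fun v _ => ?_
      rw [inc]
      split_ifs with h7 h8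
      · exact absurd (hclosed u h7.1) (h8 ▸ h7.2)
      · simp
      · simp
      · simp
    rw [h6] at h5
    nlinarith
  · intro s _ hs
    rw [hzero s hs, zero_mul]
  · intro h
    exact absurd (Finset.mem_univ _) h

end Pool.Agent.T9h21.BC
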