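import Pool.Agent.T9h21.BC.Spec

set_option autoImplicit false
set_option linter.unusedSectionVars false

/-!
An affine function of independent bits that is nonnegative except on few small subcubes has a
nonnegative integral against the square of every function of low degree.
-/

namespace Pool.Agent.T9h21.BC

open Finset

section low

variable {W : Type} [Fintype W] [DecidableEq W]

/-- the indicator function of the event that all bits of `T` are `true` -/
noncomputable def mon {W : Type} (T : Finset W) (b : W → Bool) : ℝ :=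
  ∏ w ∈ T, if b w then (1 : ℝ) else 0

/-- the functions of degree at most `t` -/
noncomputable def Low (W : Type) (t : ℕ) : Submodule ℝ ((W → Bool) → ℝ) :=
  Submodule.span ℝ {g | ∃ T : Finset W, T.card ≤ t ∧ g = fun b => mon T b}

theorem mon_mem {T : Finset W} {t : ℕ} (h : T.card ≤ t) : (fun b => mon T b) ∈ Low W t :=
  Submodule.subset_span ⟨T, h, rfl⟩

theorem mon_one {T : Finset W} {b : W → Bool} (h : ∀ w ∈ T, b w = true) : mon T b = 1 := by
  unfold mon
  rw [Finset.prod_eq_one]
  intro w hw
  rw [if_pos (h w hw)]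

theorem mon_zero {T : Finset W} {b : W → Bool} (h : ¬ ∀ w ∈ T, b w = true) : mon T b = 0 := by
  unfold mon
  push Not at h
  obtain ⟨w, hw, hb⟩ := h
  rw [Finset.prod_eq_zero hw]
  rw [if_neg hb]

theorem low_fn {t : ℕ} {g : (W → Bool) → ℝ} (hg : g ∈ Low W t) (p : W → ℝ) :
    ∃ a : Finset W → ℝ, (∀ S : Finset W, t < S.card → a S = 0) ∧ g = fn p a := by
  unfold Low at hg
  induction hg using Submodule.span_induction with
  | mem g hg =>
    obtain ⟨T, hT, rfl⟩ := hg
    refine ⟨fun S => if S ⊆ T then ∏ w ∈ T \ S, p w else 0, ?_, ?_⟩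
    · intro S hS
      have : ¬ S ⊆ T := fun h => absurd (Finset.card_le_card h) (by omega)
      simp only [this, if_false]
    · funext b
      unfold mon
      have h1 : ∀ w ∈ T, (if b w then (1 : ℝ) else 0) = ((if b w then 1 else 0) - p w) + p w := by
        intro w _
        ring
      rw [Finset.prod_congr rfl h1, Finset.prod_add]
      unfold fn psi
      have h2 : ∀ S : Finset W, (if S ⊆ T then ∏ w ∈ T \ S, p w else 0) *
          ∏ w ∈ S, ((if b w then 1 else 0) - p w) =
          if S ∈ T.powerset then (∏ w ∈ S, ((if b w then 1 else 0) - p w)) *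
            ∏ w ∈ T \ S, p w else 0 := by
        intro S
        simp only [Finset.mem_powerset]
        split_ifs
        · ring
        · ring
      simp only [h2]
      rw [Finset.sum_ite_mem, Finset.univ_inter]
  | zero =>
    refine ⟨fun _ => 0, fun _ _ => rfl, ?_⟩
    funext b
    simp [fn]
  | add g h _ _ ih1 ih2 =>
    obtain ⟨a1, h1, e1⟩ := ih1
    obtain ⟨a2, h2, e2⟩ := ih2
    refine ⟨fun S => a1 S + a2 S, fun S hS => ?_, ?_⟩
    · show a1 S + a2 S = 0
      rw [h1 S hS, h2 S hS, add_zero]
    rw [e1, e2]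
    funext b
    simp only [Pi.add_apply, fn]
    rw [← Finset.sum_add_distrib]
    exact Finset.sum_congr rfl fun S _ => by ring
  | smul r g _ ih =>
    obtain ⟨a, h, e⟩ := ih
    refine ⟨fun S => r * a S, fun S hS => ?_, ?_⟩
    · show r * a S = 0
      rw [h S hS, mul_zero]
    rw [e]
    funext b
    simp only [Pi.smul_apply, smul_eq_mul, fn]
    rw [Finset.mul_sum]
    exact Finset.sum_congr rfl fun S _ => by ring

theorem low_mono {s t : ℕ} (h : s ≤ t) : Low W s ≤ Low W t := by
  unfold Low
  apply Submodule.span_mono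
  rintro g ⟨T, hT, rfl⟩
  exact ⟨T, hT.trans h, rfl⟩

theorem low_mul {s t : ℕ} {g h : (W → Bool) → ℝ} (hg : g ∈ Low W s) (hh : h ∈ Low W t) :
    (fun b => g b * h b) ∈ Low W (s + t) := by
  unfold Low at hg
  induction hg using Submodule.span_induction with
  | mem g hg =>
    obtain ⟨T, hT, rfl⟩ := hg
    unfold Low at hh
    induction hh using Submodule.span_induction with
    | mem h hh =>
      obtain ⟨T', hT', rfl⟩ := hh
      have e : (fun b : W → Bool => mon T b * mon T' b) = fun b => mon (T ∪ T') b := by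
        funext b
        by_cases h1 : ∀ w ∈ T, b w = true
        · by_cases h2 : ∀ w ∈ T', b w = true
          · rw [mon_one h1, mon_one h2, mon_one, one_mul]
            intro w hw
            rcases Finset.mem_union.1 hw with h | h
            · exact h1 w h
            · exact h2 w h
          · rw [mon_zero h2, mul_zero]
            refine (mon_zero ?_).symm
            intro h3
            exact h2 fun w hw => h3 w (Finset.mem_union_right _ hw)
        · rw [mon_zero h1, zero_mul]
          refine (mon_zero ?_).symm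
          intro h3
          exact h1 fun w hw => h3 w (Finset.mem_union_left _ hw)
      rw [e]
      exact mon_mem ((Finset.card_union_le _ _).trans (by omega))
    | zero =>
      have : (fun b : W → Bool => mon T b * (0 : (W → Bool) → ℝ) b) = 0 := by
        funext b
        simp
      rw [this]
      exact Submodule.zero_mem _
    | add h h' _ _ ih1 ih2 =>
      have : (fun b : W → Bool => mon T b * (h + h') b) =
          (fun b => mon T b * h b) + fun b => mon T b * h' b := by
        funext b
        simp only [Pi.add_apply]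
        ring
      rw [this]
      exact Submodule.add_mem _ ih1 ih2
    | smul r h _ ih =>
      have : (fun b : W → Bool => mon T b * (r • h) b) = r • fun b => mon T b * h b := by
        funext b
        simp only [Pi.smul_apply, smul_eq_mul]
        ring
      rw [this]
      exact Submodule.smul_mem _ _ ih
  | zero =>
    have : (fun b : W → Bool => (0 : (W → Bool) → ℝ) b * h b) = 0 := by
      funext b
      simp
    rw [this]
    exact Submodule.zero_mem _
  | add g g' _ _ ih1 ih2 =>
    have : (fun b : W → Bool => (g + g') b * h b) = (fun b => g b * h b) + fun b => g' b * h b := by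
      funext b
      simp only [Pi.add_apply]
      ring
    rw [this]
    exact Submodule.add_mem _ ih1 ih2
  | smul r g _ ih =>
    have : (fun b : W → Bool => (r • g) b * h b) = r • fun b => g b * h b := by
      funext b
      simp only [Pi.smul_apply, smul_eq_mul]
      ring
    rw [this]
    exact Submodule.smul_mem _ _ ih

theorem low_const (x : ℝ) : (fun _ : W → Bool => x) ∈ Low W 0 := by
  have : (fun _ : W → Bool => x) = x • fun b => mon (∅ : Finset W) b := by
    funext b
    simp [mon]
  rw [this]
  exact Submodule.smul_mem _ _ (mon_mem (by simp))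

theorem low_bit (w : W) (x y : ℝ) : (fun b : W → Bool => if b w then x else y) ∈ Low W 1 := by
  have : (fun b : W → Bool => if b w then x else y) =
      (x - y) • (fun b => mon ({w} : Finset W) b) + fun _ => y := by
    funext b
    simp only [mon, Finset.prod_singleton, Pi.add_apply, Pi.smul_apply, smul_eq_mul]
    split_ifs <;> ring
  rw [this]
  exact Submodule.add_mem _ (Submodule.smul_mem _ _ (mon_mem (by simp)))
    (low_mono (by norm_num) (low_const y))

theorem low_prod {K : Type} [DecidableEq K] (T : Finset K) (f : K → (W → Bool) → ℝ)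
    (hf : ∀ k ∈ T, f k ∈ Low W 1) : (fun b => ∏ k ∈ T, f k b) ∈ Low W T.card := by
  induction T using Finset.induction_on with
  | empty => simpa using low_const (W := W) 1
  | insert k T hk ih =>
    have h1 := ih fun k' hk' => hf k' (Finset.mem_insert_of_mem hk')
    have h2 := low_mul (hf k (Finset.mem_insert_self _ _)) h1
    have h3 : (fun b => ∏ k' ∈ insert k T, f k' b) = fun b => f k b * ∏ k' ∈ T, f k' b := by
      funext b
      rw [Finset.prod_insert hk]
    rw [h3, Finset.card_insert_of_notMem hk, add_comm]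
    exact h2

theorem low_mix {t : ℕ} {g : (W → Bool) → ℝ} (hg : g ∈ Low W t) (U : Finset W) (b : W → Bool) :
    (fun b' => g (mix U b b')) ∈ Low W t := by
  unfold Low at hg
  induction hg using Submodule.span_induction with
  | mem g hg =>
    obtain ⟨T, hT, rfl⟩ := hg
    have e : (fun b' : W → Bool => mon T (mix U b b')) =
        (if ∀ w ∈ T ∩ U, b w = true then (1 : ℝ) else 0) • fun b' => mon (T \ U) b' := by
      funext b'
      simp only [Pi.smul_apply, smul_eq_mul]
      have m1 : ∀ w, w ∈ U → mix U b b' w = b w := fun w hw => by simp [mix, hw]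
      have m2 : ∀ w, w ∉ U → mix U b b' w = b' w := fun w hw => by simp [mix, hw]
      by_cases h1 : ∀ w ∈ T ∩ U, b w = true
      · by_cases h2 : ∀ w ∈ T \ U, b' w = true
        · rw [if_pos h1, mon_one h2, mon_one, one_mul]
          intro w hw
          by_cases hU : w ∈ U
          · rw [m1 w hU]; exact h1 w (Finset.mem_inter.2 ⟨hw, hU⟩)
          · rw [m2 w hU]; exact h2 w (Finset.mem_sdiff.2 ⟨hw, hU⟩)
        · rw [mon_zero h2, mon_zero, mul_zero]
          intro h3
          refine h2 fun w hw => ?_
          have h4 := h3 w (Finset.mem_sdiff.1 hw).1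
          rwa [m2 w (Finset.mem_sdiff.1 hw).2] at h4
      · rw [if_neg h1, mon_zero, zero_mul]
        intro h3
        refine h1 fun w hw => ?_
        have h4 := h3 w (Finset.mem_inter.1 hw).1
        rwa [m1 w (Finset.mem_inter.1 hw).2] at h4
    rw [e]
    exact Submodule.smul_mem _ _ (mon_mem ((Finset.card_le_card Finset.sdiff_subset).trans hT))
  | zero => exact Submodule.zero_mem (Submodule.span ℝ _)
  | add g g' _ _ ih1 ih2 => exact Submodule.add_mem _ ih1 ih2
  | smul r g _ ih => exact Submodule.smul_mem _ r ih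

end low

/-- Some set of `L` elements has a weight below the average. -/
theorem exists_light {W : Type} [DecidableEq W] (ω : W → ℝ) (hω : ∀ w, 0 ≤ ω w) (L : ℕ) :
    ∀ (R : ℕ) (G : Finset W), (R + 1) * L ≤ G.card → ∃ I ⊆ G, I.card = L ∧
      ((R : ℝ) + 1) * ∑ w ∈ I, ω w ≤ ∑ w ∈ G, ω w := by
  intro R
  induction R with
  | zero =>
    intro G hG
    obtain ⟨I, hI, hc⟩ := Finset.exists_subset_card_eq (show L ≤ G.card by simpa using hG)
    refine ⟨I, hI, hc, ?_⟩
    simp only [Nat.cast_zero, zero_add, one_mul]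
    exact Finset.sum_le_sum_of_subset_of_nonneg hI fun w _ _ => hω w
  | succ R ih =>
    intro G hG
    have hL : L ≤ G.card := by nlinarith
    obtain ⟨I0, hI0, hc0⟩ := Finset.exists_subset_card_eq hL
    have hc1 : (R + 1) * L ≤ (G \ I0).card := by
      rw [Finset.card_sdiff_of_subset hI0, hc0]
      have : (R + 1 + 1) * L = (R + 1) * L + L := by ring
      omega
    obtain ⟨I1, hI1, hc1', h1⟩ := ih _ hc1
    have h2 : ∑ w ∈ G, ω w = ∑ w ∈ I0, ω w + ∑ w ∈ G \ I0, ω w := by
      rw [add_comm, Finset.sum_sdiff hI0]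
    push_cast
    rcases le_total (∑ w ∈ I1, ω w) (∑ w ∈ I0, ω w) with h | h
    · exact ⟨I1, hI1.trans Finset.sdiff_subset, hc1', by rw [h2]; linarith⟩
    · refine ⟨I0, hI0, hc0, ?_⟩
      rw [h2]
      have : ((R : ℝ) + 1) * ∑ w ∈ I0, ω w ≤ ((R : ℝ) + 1) * ∑ w ∈ I1, ω w :=
        mul_le_mul_of_nonneg_left h (by positivity)
      linarith

/-- Fewer than `2 ^ |I|` patterns do not exhaust all patterns on `I`. -/
theorem exists_avoid {W K : Type} [DecidableEq W] (I : Finset W) (𝒮 : Finset K)
    (h : 𝒮.card < 2 ^ I.card) (pat : K → W → Bool) :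
    ∃ y : W → Bool, ∀ S ∈ 𝒮, ∃ w ∈ I, y w ≠ pat S w := by
  classical
  by_contra hcon
  push Not at hcon
  have h1 : ∀ y : I → Bool, ∃ S : K, S ∈ 𝒮 ∧ ∀ w : I, y w = pat S w := by
    intro y
    obtain ⟨S, hS, hy⟩ := hcon (fun w => if hw : w ∈ I then y ⟨w, hw⟩ else false)
    refine ⟨S, hS, fun w => ?_⟩
    have := hy w w.2
    simpa using this
  choose f hf1 hf2 using h1
  have h2 : (Finset.univ : Finset (I → Bool)).card ≤ 𝒮.card := by
    refine Finset.card_le_card_of_injOn f (fun y _ => hf1 y) ?_
    intro y _ y' _ hyy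
    funext w
    rw [hf2 y w, hf2 y' w, hyy]
  rw [Finset.card_univ, Fintype.card_fun, Fintype.card_bool, Fintype.card_coe] at h2
  omega

section key

variable {W J K : Type} [Fintype W] [DecidableEq W] [Fintype J] [DecidableEq J]

/-- The key inequality. -/
theorem key (blk : W → J) (p : W → ℝ) (h0 : ∀ w, 0 ≤ p w) (h1 : ∀ w, p w ≤ 1) (Bd : Finset W)
    (hp : ∀ w, w ∉ Bd → 1 / 4 ≤ p w ∧ p w ≤ 3 / 4) (t L : ℕ)
    (hD : ∀ j, Bd.card + 16 * t + 16 * L ≤ (univ.filter fun w => blk w = j).card)
    (α : ℝ) (β : W → ℝ) (𝒮 : Finset K) (h𝒮 : 𝒮.card < 2 ^ L) (jj : K → J) (pat : K → W → Bool)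
    (hpos : ∀ b : W → Bool, (∀ S ∈ 𝒮, ∃ w, blk w = jj S ∧ b w ≠ pat S w) →
      0 ≤ α + ∑ w, β w * (if b w then 1 else 0))
    (g : (W → Bool) → ℝ) (hg : g ∈ Low W t) :
    0 ≤ ∑ b, pw p b * (g b ^ 2 * (α + ∑ w, β w * (if b w then 1 else 0))) := by
  rw [← pw_mix p Bd]
  refine Finset.sum_nonneg fun b _ => ?_
  have hb := pw_nonneg h0 h1 b
  simp only [mul_assoc]
  rw [← Finset.mul_sum]
  refine mul_nonneg hb ?_
  obtain ⟨a, ha, hga⟩ := low_fn (low_mix hg Bd b) p
  set c : W → Bool := fun w => decide (β w < 0) with hc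
  set θ : ℝ := α + (∑ w, if w ∈ Bd then β w * (if b w then 1 else 0)
    else β w * (if c w then 1 else 0)) with hθ
  have hh : ∀ b' : W → Bool, α + ∑ w, β w * (if mix Bd b b' w then 1 else 0) =
      θ + ∑ w, if w ∈ Bd then 0 else |β w| * (if b' w = c w then 0 else 1) := by
    intro b'
    rw [hθ, add_assoc, ← Finset.sum_add_distrib]
    congr 1
    refine Finset.sum_congr rfl fun w _ => ?_
    by_cases hw : w ∈ Bd
    · simp [mix, hw]
    · simp only [mix, hw, if_false]
      rcases lt_or_ge (β w) 0 with hβ | hβ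
      · have hcw : c w = true := by simp [hc, hβ]
        rw [hcw, abs_of_neg hβ]
        cases b' w <;> simp
      · have hcw : c w = false := by simp [hc, not_lt.2 hβ]
        rw [hcw, abs_of_nonneg hβ]
        cases b' w <;> simp
  have hgf : ∀ b', g (mix Bd b b') = fn p a b' := fun b' => congrFun hga b'
  simp only [hh, hgf]
  set G : ℝ := ∑ b', pw p b' * fn p a b' ^ 2 with hG
  set q : W → ℝ := fun w => ∑ b', pw p b' * (fn p a b' ^ 2 * (if b' w = c w then 0 else 1)) with hq
  have hG0 : 0 ≤ G := Finset.sum_nonneg fun b' _ => mul_nonneg (pw_nonneg h0 h1 b') (sq_nonneg _)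
  have hq0 : ∀ w, 0 ≤ q w := by
    intro w
    refine Finset.sum_nonneg fun b' _ => mul_nonneg (pw_nonneg h0 h1 b') ?_
    refine mul_nonneg (sq_nonneg _) ?_
    split_ifs <;> norm_num
  have htot : ∑ b', pw p b' * (fn p a b' ^ 2 *
      (θ + ∑ w, if w ∈ Bd then 0 else |β w| * (if b' w = c w then 0 else 1))) =
      θ * G + ∑ w, if w ∈ Bd then 0 else |β w| * q w := by
    have e1 : ∀ b', pw p b' * (fn p a b' ^ 2 *
        (θ + ∑ w, if w ∈ Bd then 0 else |β w| * (if b' w = c w then 0 else 1))) =
        θ * (pw p b' * fn p a b' ^ 2) + ∑ w, if w ∈ Bd then 0 else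
          |β w| * (pw p b' * (fn p a b' ^ 2 * (if b' w = c w then 0 else 1))) := by
      intro b'
      rw [mul_add, mul_add, Finset.mul_sum, Finset.mul_sum]
      congr 1
      · ring
      · refine Finset.sum_congr rfl fun w _ => ?_
        by_cases hw : w ∈ Bd
        · simp [hw]
        · simp only [hw, if_false]; ring
    simp only [e1]
    rw [Finset.sum_add_distrib, ← Finset.mul_sum, Finset.sum_comm]
    congr 1
    refine Finset.sum_congr rfl fun w _ => ?_
    by_cases hw : w ∈ Bd
    · simp [hw]
    · simp only [hw, if_false]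
      rw [← Finset.mul_sum]
  rw [htot]
  rcases hG0.eq_or_lt with hGz | hGp
  · rw [← hGz, mul_zero, zero_add]
    refine Finset.sum_nonneg fun w _ => ?_
    split_ifs
    · exact le_refl _
    · exact mul_nonneg (abs_nonneg _) (hq0 w)
  -- few bad coordinates
  set Bad : Finset W := univ.filter fun w => w ∉ Bd ∧ q w < G / 16 with hBad
  have hBadc : Bad.card ≤ 16 * t := by
    have e1 : ∀ w ∈ Bad, G / 16 ≤ infl p a w := by
      intro w hw
      rw [hBad, Finset.mem_filter] at hw
      obtain ⟨_, hw1, hw2⟩ := hw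
      have := spread h0 h1 a w (c w) (hp w hw1).1 (hp w hw1).2
      simp only [hq] at hw2
      linarith
    have e2 : (Bad.card : ℝ) * (G / 16) ≤ t * G := by
      calc (Bad.card : ℝ) * (G / 16) = ∑ w ∈ Bad, G / 16 := by
            rw [Finset.sum_const, nsmul_eq_mul]
        _ ≤ ∑ w ∈ Bad, infl p a w := Finset.sum_le_sum e1
        _ ≤ ∑ w, infl p a w := Finset.sum_le_sum_of_subset_of_nonneg (Finset.subset_univ _)
            fun w _ _ => infl_nonneg h0 h1 a w
        _ ≤ t * G := sum_infl h0 h1 a t ha
    have e3 : (Bad.card : ℝ) ≤ 16 * t := by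
      have e4 : ((Bad.card : ℝ) - 16 * t) * (G / 16) ≤ 0 := by nlinarith
      by_contra hcon
      push Not at hcon
      have : 0 < ((Bad.card : ℝ) - 16 * t) * (G / 16) := mul_pos (by linarith) (by linarith)
      linarith
    exact_mod_cast e3
  -- light sets of good coordinates
  have hI : ∀ j, ∃ I : Finset W, (∀ w ∈ I, blk w = j ∧ w ∉ Bd ∧ w ∉ Bad) ∧ I.card = L ∧
      ((15 : ℕ) + 1 : ℝ) * ∑ w ∈ I, |β w| ≤
        ∑ w ∈ univ.filter (fun w => blk w = j ∧ w ∉ Bd ∧ w ∉ Bad), |β w| := by
    intro j
    have e1 : (15 + 1) * L ≤ (univ.filter (fun w => blk w = j ∧ w ∉ Bd ∧ w ∉ Bad)).card := by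
      have e2 : (univ.filter fun w => blk w = j) ⊆
          (univ.filter (fun w => blk w = j ∧ w ∉ Bd ∧ w ∉ Bad)) ∪ (Bd ∪ Bad) := by
        intro w hw
        simp only [mem_filter, mem_univ, true_and] at hw
        simp only [mem_union, mem_filter, mem_univ, true_and]
        by_cases h3 : w ∈ Bd
        · right; left; exact h3
        · by_cases h4 : w ∈ Bad
          · right; right; exact h4
          · left; exact ⟨hw, h3, h4⟩
      have e3 := Finset.card_le_card e2
      have e4 := Finset.card_union_le
        (univ.filter (fun w => blk w = j ∧ w ∉ Bd ∧ w ∉ Bad)) (Bd ∪ Bad)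
      have e5 := Finset.card_union_le Bd Bad
      have e6 := hD j
      omega
    obtain ⟨I, hI1, hI2, hI3⟩ := exists_light (fun w => |β w|) (fun w => abs_nonneg _) L 15 _ e1
    refine ⟨I, fun w hw => ?_, hI2, hI3⟩
    have := hI1 hw
    simp only [mem_filter, mem_univ, true_and] at this
    exact this
  choose I hI1 hI2 hI3 using hI
  -- the value at a well-chosen point
  have hθI : 0 ≤ θ + ∑ j, ∑ w ∈ I j, |β w| := by
    have e1 : ∀ j, ∃ y : W → Bool, ∀ S ∈ 𝒮, ∃ w ∈ I j, y w ≠ pat S w := fun j =>
      exists_avoid (I j) 𝒮 (by rw [hI2]; exact h𝒮) pat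
    choose y hy using e1
    set b' : W → Bool := fun w => if w ∈ I (blk w) then y (blk w) w else c w with hb'
    have e2 := hpos (mix Bd b b') (by
      intro S hS
      obtain ⟨w, hw, hne⟩ := hy (jj S) S hS
      obtain ⟨hw1, hw2, _⟩ := hI1 _ w hw
      refine ⟨w, hw1, ?_⟩
      have e3 : mix Bd b b' w = y (jj S) w := by
        unfold mix
        rw [if_neg hw2, hb']
        simp only
        rw [hw1, if_pos hw]
      rw [e3]
      exact hne)
    rw [hh b'] at e2
    refine e2.trans ?_
    have e3 : (∑ w, if w ∈ Bd then 0 else |β w| * (if b' w = c w then 0 else 1)) ≤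
        ∑ w, if w ∈ I (blk w) then |β w| else 0 := by
      refine Finset.sum_le_sum fun w _ => ?_
      by_cases hw : w ∈ I (blk w)
      · rw [if_pos hw]
        split_ifs
        · exact abs_nonneg _
        · rw [mul_zero]; exact abs_nonneg _
        · rw [mul_one]
      · have : b' w = c w := by simp [hb', hw]
        rw [if_neg hw, this]
        simp
    have e4 : (∑ w, if w ∈ I (blk w) then |β w| else 0) = ∑ j, ∑ w ∈ I j, |β w| := by
      have e5 : ∀ w, (if w ∈ I (blk w) then |β w| else 0) = ∑ j, if w ∈ I j then |β w| else 0 := by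
        intro w
        rw [Finset.sum_eq_single (blk w)]
        · intro j _ hj
          rw [if_neg]
          intro hw
          exact hj (hI1 j w hw).1.symm
        · intro h
          exact absurd (Finset.mem_univ _) h
      simp only [e5]
      rw [Finset.sum_comm]
      refine Finset.sum_congr rfl fun j _ => ?_
      rw [Finset.sum_ite_mem, Finset.univ_inter]
    linarith [e4 ▸ e3]
  have hfin : ∑ j, ∑ w ∈ I j, |β w| * G ≤ ∑ w, if w ∈ Bd then 0 else |β w| * q w := by
    have e1 : (∑ w, if w ∈ Bd then 0 else |β w| * q w) =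
        ∑ j, ∑ w, if blk w = j then (if w ∈ Bd then 0 else |β w| * q w) else 0 := by
      rw [Finset.sum_comm]
      refine Finset.sum_congr rfl fun w _ => ?_
      rw [Finset.sum_ite_eq]
      simp
    rw [e1]
    refine Finset.sum_le_sum fun j _ => ?_
    have e2 := hI3 j
    rw [Finset.sum_filter] at e2
    have e3 : ∑ w ∈ I j, |β w| * G ≤
        (G / 16) * ∑ w, (if blk w = j ∧ w ∉ Bd ∧ w ∉ Bad then |β w| else 0) := by
      rw [← Finset.sum_mul]
      push_cast at e2
      nlinarith
    refine e3.trans ?_
    rw [Finset.mul_sum]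
    refine Finset.sum_le_sum fun w _ => ?_
    by_cases hw : blk w = j ∧ w ∉ Bd ∧ w ∉ Bad
    · rw [if_pos hw, if_pos hw.1, if_neg hw.2.1]
      have e4 : G / 16 ≤ q w := by
        by_contra hcon
        push Not at hcon
        exact hw.2.2 (by rw [hBad, Finset.mem_filter]; exact ⟨Finset.mem_univ _, hw.2.1, hcon⟩)
      nlinarith [abs_nonneg (β w)]
    · rw [if_neg hw, mul_zero]
      split_ifs
      · exact le_refl _
      · exact mul_nonneg (abs_nonneg _) (hq0 w)
      · exact le_refl _
  have hfin2 : ∑ j, ∑ w ∈ I j, |β w| * G = G * ∑ j, ∑ w ∈ I j, |β w| := by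
    rw [Finset.mul_sum]
    refine Finset.sum_congr rfl fun j _ => ?_
    rw [← Finset.sum_mul, mul_comm]
  have := mul_nonneg hG0 hθI
  nlinarith

end key

end Pool.Agent.T9h21.BC
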