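import Pool.Agent.T9h21.BC.Def
import Pool.Agent.T9h21.BC.Key

set_option autoImplicit false
set_option linter.unusedSectionVars false

/-!
Covers by convex sets: the general argument.
-/

namespace Pool.Agent.T9h21.BC

open Finset
open Pool.Agent.W888.UG (lab Tree SplitProof lab_apply)

theorem lab_eq (P : Finset (ℤ × ℤ)) (s : Equiv.Perm P) :
    lab (fun v : P => s v) = inc P s := by
  funext u v
  rw [lab_apply]
  rfl

section gen

variable (P : Finset (ℤ × ℤ)) {W J : Type} [Fintype W] [DecidableEq W] [Fintype J] [DecidableEq J]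

/-- A family of 2-factors `σ b` of length at most `B` with cycles of at least `K` points, where the
successor of each point depends on one bit only. -/
structure Sw (B : ℝ) (K : ℕ) (blk : W → J) where
  ctl : P → W
  n0 : P → P
  n1 : P → P
  σ : (W → Bool) → Equiv.Perm P
  hσ : ∀ b u, σ b u = if b (ctl u) then n1 u else n0 u
  two : ∀ b, IsTwoFactor P (σ b)
  le : ∀ b, len P (σ b) ≤ B
  cyc : ∀ b, LongCycles P K (σ b)
  viol : ∀ S : Finset P, S.Nonempty → S ≠ univ → ∃ (j : J) (pat : W → Bool), ∀ b,
    (∀ v ∈ S, σ b v ∈ S) → ∀ w, blk w = j → b w = pat w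

variable {P}

/-- the linear map that sends the point of a labelling to the incidence vector of its 2-factor -/
noncomputable def Sw.Psi {B : ℝ} {K : ℕ} {blk : W → J} (X : Sw P B K blk) (z : W → Bool → ℝ) :
    P → P → ℝ :=
  fun u v => z (X.ctl u) true * (if X.n1 u = v then 1 else 0) +
    z (X.ctl u) false * (if X.n0 u = v then 1 else 0)

theorem Sw.Psi_lab {B : ℝ} {K : ℕ} {blk : W → J} (X : Sw P B K blk) (b : W → Bool) :
    X.Psi (lab b) = inc P (X.σ b) := by
  funext u v
  unfold Sw.Psi inc
  rw [X.hσ, lab_apply, lab_apply]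
  cases b (X.ctl u) <;> simp

theorem Sw.Psi_convex {B : ℝ} {K : ℕ} {blk : W → J} (X : Sw P B K blk) {C : Set (P → P → ℝ)}
    (hC : Convex ℝ C) : Convex ℝ {z | X.Psi z ∈ C} := by
  intro z hz z' hz' a b ha hb hab
  have h := hC hz hz' ha hb hab
  have e : X.Psi (a • z + b • z') = a • X.Psi z + b • X.Psi z' := by
    funext u v
    simp only [Sw.Psi, Pi.add_apply, Pi.smul_apply, smul_eq_mul]
    ring
  rw [Set.mem_ofPred_eq, e]
  exact h

theorem inc_low {B : ℝ} {K : ℕ} {blk : W → J} (X : Sw P B K blk) (u v : P) :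
    (fun b => inc P (X.σ b) u v) ∈ Low W 1 := by
  have e : (fun b => inc P (X.σ b) u v) = fun b : W → Bool => if b (X.ctl u) then
      (if X.n1 u = v then (1 : ℝ) else 0) else (if X.n0 u = v then (1 : ℝ) else 0) := by
    funext b
    unfold inc
    rw [X.hσ]
    cases b (X.ctl u) <;> simp
  rw [e]
  exact low_bit _ _ _

theorem poly_low {B : ℝ} {K : ℕ} {blk : W → J} (X : Sw P B K blk) {t : ℕ} {f : Equiv.Perm P → ℝ}
    (hf : f ∈ Poly P t) : (fun b => f (X.σ b)) ∈ Low W t := by
  classical
  unfold Poly at hf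
  induction hf using Submodule.span_induction with
  | mem f hf =>
    obtain ⟨T, hT, rfl⟩ := hf
    exact low_mono hT (low_prod T (fun e b => inc P (X.σ b) e.1 e.2) fun e _ => inc_low X e.1 e.2)
  | zero => exact Submodule.zero_mem _
  | add f g _ _ ih1 ih2 => exact Submodule.add_mem _ ih1 ih2
  | smul r f _ ih => exact Submodule.smul_mem _ r ih

/-- The points with balanced bits outside a small set belong to the relaxation. -/
theorem Sw.mem_relax [Nonempty W] {B : ℝ} {K : ℕ} {blk : W → J} (X : Sw P B K blk) (D N t : ℕ) (Bd : Finset W)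
    (hblk : ∀ j, D ≤ (univ.filter fun w => blk w = j).card)
    (hD : Bd.card + 16 * t + 16 * (Nat.log 2 N + 1) ≤ D)
    (z : W → Bool → ℝ) (hz0 : ∀ w a, 0 ≤ z w a) (hz1 : ∀ w, ∑ a, z w a = 1)
    (hz : ∀ w ∉ Bd, ∀ a, 1 / 4 ≤ z w a) : X.Psi z ∈ Relax P B K N t := by
  classical
  set p : W → ℝ := fun w => z w true with hp
  have hzf : ∀ w, z w false = 1 - p w := by
    intro w
    have := hz1 w
    rw [Fintype.sum_bool] at this
    simp only [hp]
    linarith
  have h0 : ∀ w, 0 ≤ p w := fun w => hz0 w true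
  have h1 : ∀ w, p w ≤ 1 := fun w => by linarith [hz0 w false, hzf w]
  have key2 : ∀ F : Equiv.Perm P → ℝ,
      ∑ s, (∑ b, pw p b * (if X.σ b = s then 1 else 0)) * F s = ∑ b, pw p b * F (X.σ b) := by
    intro F
    simp only [Finset.sum_mul]
    rw [Finset.sum_comm]
    refine Finset.sum_congr rfl fun b _ => ?_
    rw [Finset.sum_eq_single (X.σ b)]
    · simp
    · intro s _ hs
      rw [if_neg (Ne.symm hs)]
      ring
    · intro h
      exact absurd (Finset.mem_univ _) h
  refine ⟨fun s => ∑ b, pw p b * (if X.σ b = s then 1 else 0), ?_, ?_, ?_, ?_, ?_⟩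
  · intro s
    refine Finset.sum_nonneg fun b _ => mul_nonneg (pw_nonneg h0 h1 b) ?_
    split_ifs <;> norm_num
  · have := key2 (fun _ => 1)
    simp only [mul_one] at this
    rw [this]
    exact pw_sum p
  · intro s hs
    obtain ⟨b, _, hb⟩ := Finset.exists_ne_zero_of_sum_ne_zero hs
    have : X.σ b = s := by
      by_contra h
      rw [if_neg h, mul_zero] at hb
      exact hb rfl
    rw [← this]
    exact ⟨X.two b, X.le b, X.cyc b⟩
  · intro u v
    rw [key2 (fun s => inc P s u v)]
    have e : ∀ b, pw p b * inc P (X.σ b) u v = pw p b *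
        ((fun c : Bool => if c then (if X.n1 u = v then (1 : ℝ) else 0) else
          (if X.n0 u = v then (1 : ℝ) else 0)) (b (X.ctl u)) * 1) := by
      intro b
      unfold inc
      rw [X.hσ, mul_one]
      cases b (X.ctl u) <;> simp
    rw [Finset.sum_congr rfl fun b _ => e b]
    rw [pw_indep p (X.ctl u) (fun c : Bool => if c then (if X.n1 u = v then (1 : ℝ) else 0) else
          (if X.n0 u = v then (1 : ℝ) else 0)) (fun _ => 1) (fun _ _ _ => rfl)]
    simp only [mul_one]
    rw [pw_sum, mul_one]
    unfold Sw.Psi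
    rw [hzf]
    simp [hp]
  · rintro c d ⟨𝒮, h𝒮N, h𝒮, hv⟩ f hf
    rw [key2 (fun s => f s ^ 2 * ((∑ u, ∑ v, c u v * inc P s u v) - d))]
    -- the affine form
    set α : ℝ := -d + ∑ u, c u (X.n0 u) with hα
    set β : W → ℝ := fun w => ∑ u, if X.ctl u = w then c u (X.n1 u) - c u (X.n0 u) else 0 with hβ
    have haff : ∀ b : W → Bool, (∑ u, ∑ v, c u v * inc P (X.σ b) u v) - d =
        α + ∑ w, β w * (if b w then 1 else 0) := by
      intro b
      have e1 : ∀ u, ∑ v, c u v * inc P (X.σ b) u v = c u (X.σ b u) := by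
        intro u
        unfold inc
        simp
      simp only [e1]
      have e2 : ∀ u, c u (X.σ b u) = c u (X.n0 u) +
          (c u (X.n1 u) - c u (X.n0 u)) * (if b (X.ctl u) then 1 else 0) := by
        intro u
        rw [X.hσ]
        cases b (X.ctl u) <;> simp
      simp only [e2]
      rw [Finset.sum_add_distrib]
      have e3 : ∑ w, β w * (if b w then (1 : ℝ) else 0) =
          ∑ u, (c u (X.n1 u) - c u (X.n0 u)) * (if b (X.ctl u) then 1 else 0) := by
        simp only [hβ, Finset.sum_mul]
        rw [Finset.sum_comm]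
        refine Finset.sum_congr rfl fun u _ => ?_
        rw [Finset.sum_eq_single (X.ctl u)]
        · simp
        · intro w _ hw
          rw [if_neg (Ne.symm hw), zero_mul]
        · intro h
          exact absurd (Finset.mem_univ _) h
      rw [e3, hα]
      ring
    simp only [haff]
    have hvi : ∀ S : Finset P, ∃ (j : J) (pat : W → Bool), (S.Nonempty ∧ S ≠ univ) → ∀ b,
        (∀ v ∈ S, X.σ b v ∈ S) → ∀ w, blk w = j → b w = pat w := by
      intro S
      by_cases hS : S.Nonempty ∧ S ≠ univ
      · obtain ⟨j, pat, h⟩ := X.viol S hS.1 hS.2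
        exact ⟨j, pat, fun _ => h⟩
      · obtain ⟨w⟩ := (inferInstance : Nonempty W)
        exact ⟨blk w, fun _ => false, fun h => absurd h hS⟩
    choose jj pat hjp using hvi
    refine key blk p h0 h1 Bd ?_ t (Nat.log 2 N + 1) (fun j => hD.trans (hblk j)) α β 𝒮 ?_ jj pat
      ?_ (fun b => f (X.σ b)) (poly_low X hf)
    · intro w hw
      have ha := hz w hw true
      have hb := hz w hw false
      rw [hzf] at hb
      exact ⟨ha, by simp only [hp] at hb ⊢; linarith⟩
    · exact lt_of_le_of_lt h𝒮N (Nat.lt_pow_succ_log_self (by norm_num) N)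
    · intro b hb
      rw [← haff]
      refine sub_nonneg.2 (hv (X.σ b) (X.two b) (X.le b) (X.cyc b) fun S hS => ?_)
      by_contra hcon
      push Not at hcon
      obtain ⟨w, hw1, hw2⟩ := hb S hS
      exact hw2 (hjp S (h𝒮 S hS) b hcon w hw1)

/-- the labelling with the probabilities `p` of `true` -/
def bern (p : W → ℝ) (w : W) (a : Bool) : ℝ := if a then p w else 1 - p w

theorem bern_of (z : W → Bool → ℝ) (hz1 : ∀ w, ∑ a, z w a = 1) :
    bern (fun w => z w true) = z := by
  funext w a
  have := hz1 w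
  rw [Fintype.sum_bool] at this
  unfold bern
  cases a
  · simp only [Bool.false_eq_true, if_false]
    linarith
  · simp

theorem Sw.bern_convex {B : ℝ} {K : ℕ} {blk : W → J} (X : Sw P B K blk) {C : Set (P → P → ℝ)}
    (hC : Convex ℝ C) : Convex ℝ {p | X.Psi (bern p) ∈ C} := by
  intro p hp q hq a b ha hb hab
  have h := hC hp hq ha hb hab
  have e : X.Psi (bern (a • p + b • q)) = a • X.Psi (bern p) + b • X.Psi (bern q) := by
    funext u v
    simp only [Sw.Psi, bern, Pi.add_apply, Pi.smul_apply, smul_eq_mul, if_true, Bool.false_eq_true,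
      if_false]
    have hb' : b = 1 - a := by linarith
    rw [hb']
    ring
  rw [Set.mem_ofPred_eq, e]
  exact h

/-- A point belongs to a convex set if all points obtained by fixing some coordinates do. -/
theorem hull_fix (T : Set (W → ℝ)) (hT : Convex ℝ T) (p : W → ℝ) (h0 : ∀ w, 0 ≤ p w)
    (h1 : ∀ w, p w ≤ 1) (U : Finset W)
    (h : ∀ c : W → Bool, (fun w => if w ∈ U then (if c w then 1 else 0) else p w) ∈ T) : p ∈ T := by
  induction U using Finset.induction_on with
  | empty => simpa using h (fun _ => false)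
  | insert w U hw ih =>
    refine ih fun c => ?_
    have g1 := h (Function.update c w true)
    have g2 := h (Function.update c w false)
    have g3 := hT g1 g2 (h0 w) (sub_nonneg.2 (h1 w)) (by ring)
    convert g3 using 1
    funext u
    simp only [Pi.add_apply, Pi.smul_apply, smul_eq_mul, Finset.mem_insert]
    by_cases hu : u = w
    · subst hu
      simp [hw]
    · simp only [hu, false_or, Function.update_of_ne hu]
      split_ifs <;> ring

/-- the value of an integral linear form -/
theorem Sw.int_form {B : ℝ} {K : ℕ} {blk : W → J} (X : Sw P B K blk) (a : P → P → ℤ) :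
    ∃ (α : ℤ) (β : W → ℤ), ∀ p : W → ℝ,
      ∑ u, ∑ v, (a u v : ℝ) * X.Psi (bern p) u v = α + ∑ w, (β w : ℝ) * p w := by
  classical
  refine ⟨∑ u, a u (X.n0 u), fun w => ∑ u, if X.ctl u = w then a u (X.n1 u) - a u (X.n0 u) else 0,
    fun p => ?_⟩
  have e1 : ∀ u, ∑ v, (a u v : ℝ) * X.Psi (bern p) u v =
      (a u (X.n0 u) : ℝ) + ((a u (X.n1 u) : ℝ) - a u (X.n0 u)) * p (X.ctl u) := by
    intro u
    have e2 : ∀ v, (a u v : ℝ) * X.Psi (bern p) u v =
        (if X.n1 u = v then (a u v : ℝ) * p (X.ctl u) else 0) +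
          (if X.n0 u = v then (a u v : ℝ) * (1 - p (X.ctl u)) else 0) := by
      intro v
      simp only [Sw.Psi, bern, if_true, Bool.false_eq_true, if_false]
      split_ifs <;> ring
    simp only [e2]
    rw [Finset.sum_add_distrib]
    simp only [Finset.sum_ite_eq, Finset.mem_univ, if_true]
    ring
  simp only [e1]
  rw [Finset.sum_add_distrib]
  push_cast
  congr 1
  simp only [Finset.sum_mul]
  rw [Finset.sum_comm]
  refine Finset.sum_congr rfl fun u _ => ?_
  rw [Finset.sum_eq_single (X.ctl u)]
  · simp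
  · intro w _ hw
    rw [if_neg (Ne.symm hw)]
    ring
  · intro h
    exact absurd (Finset.mem_univ _) h

/-- The points with balanced bits outside a small set satisfy all split cuts of small rank. -/
theorem Sw.mem_split {B : ℝ} {K : ℕ} {blk : W → J} (X : Sw P B K blk) (M : ℕ)
    (R : Set (P → P → ℝ)) (r : ℕ) :
    ∀ (_ : ∀ (Bd : Finset W) (p : W → ℝ), Bd.card ≤ M → (∀ w, 0 ≤ p w) → (∀ w, p w ≤ 1) →
        (∀ w ∉ Bd, 1 / 4 ≤ p w ∧ p w ≤ 3 / 4) → X.Psi (bern p) ∈ R)
      (Bd : Finset W) (p : W → ℝ), Bd.card + 4 * r ≤ M → (∀ w, 0 ≤ p w) → (∀ w, p w ≤ 1) →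
        (∀ w ∉ Bd, 1 / 4 ≤ p w ∧ p w ≤ 3 / 4) → X.Psi (bern p) ∈ (splitClosure P)^[r] R := by
  classical
  intro hR
  induction r with
  | zero =>
    intro Bd p hBd h0 h1 hp
    exact hR Bd p (by omega) h0 h1 hp
  | succ r ih =>
    intro Bd p hBd h0 h1 hp
    rw [Function.iterate_succ_apply']
    intro a b
    obtain ⟨α, β, hL⟩ := X.int_form a
    set R' := (splitClosure P)^[r] R with hR'
    set T := convexHull ℝ ({y | y ∈ R' ∧ ∑ u, ∑ v, (a u v : ℝ) * y u v ≤ b} ∪
      {y | y ∈ R' ∧ (b : ℝ) + 1 ≤ ∑ u, ∑ v, (a u v : ℝ) * y u v}) with hT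
    have hTc : Convex ℝ {p | X.Psi (bern p) ∈ T} := X.bern_convex (convex_convexHull ℝ _)
    have hlow : ∀ q : W → ℝ, X.Psi (bern q) ∈ R' → α + ∑ w, (β w : ℝ) * q w ≤ b →
        X.Psi (bern q) ∈ T := fun q h1 h2 => subset_convexHull ℝ _ (Or.inl ⟨h1, by rw [hL]; exact h2⟩)
    have hhigh : ∀ q : W → ℝ, X.Psi (bern q) ∈ R' → (b : ℝ) + 1 ≤ α + ∑ w, (β w : ℝ) * q w →
        X.Psi (bern q) ∈ T := fun q h1 h2 => subset_convexHull ℝ _ (Or.inr ⟨h1, by rw [hL]; exact h2⟩)
    rcases le_or_gt (α + ∑ w, (β w : ℝ) * p w) b with hv | hv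
    · exact hlow p (ih Bd p (by omega) h0 h1 hp) hv
    rcases le_or_gt ((b : ℝ) + 1) (α + ∑ w, (β w : ℝ) * p w) with hv2 | hv2
    · exact hhigh p (ih Bd p (by omega) h0 h1 hp) hv2
    set Js : Finset W := univ.filter fun w => w ∉ Bd ∧ β w ≠ 0 with hJs
    rcases lt_or_ge Js.card 4 with hJ | hJ
    · -- fix all coordinates that matter
      refine hull_fix {p | X.Psi (bern p) ∈ T} hTc p h0 h1 (Bd ∪ Js) fun c => ?_
      rw [Set.mem_ofPred_eq]
      set q : W → ℝ := fun w => if w ∈ Bd ∪ Js then (if c w then 1 else 0) else p w with hq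
      have hq0 : ∀ w, 0 ≤ q w := by
        intro w
        simp only [hq]
        split_ifs
        · norm_num
        · exact le_refl _
        · exact h0 w
      have hq1 : ∀ w, q w ≤ 1 := by
        intro w
        simp only [hq]
        split_ifs
        · exact le_refl _
        · norm_num
        · exact h1 w
      have hqR : X.Psi (bern q) ∈ R' := by
        refine ih (Bd ∪ Js) q ?_ hq0 hq1 ?_
        · have := Finset.card_union_le Bd Js
          omega
        · intro w hw
          simp only [hq, if_neg hw]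
          exact hp w fun h => hw (Finset.mem_union_left _ h)
      have hval : ∃ z : ℤ, α + ∑ w, (β w : ℝ) * q w = z := by
        refine ⟨α + ∑ w, if w ∈ Bd ∪ Js then (if c w then β w else 0) else 0, ?_⟩
        push_cast
        congr 1
        refine Finset.sum_congr rfl fun w _ => ?_
        simp only [hq]
        by_cases hw : w ∈ Bd ∪ Js
        · rw [if_pos hw, if_pos hw]
          split_ifs <;> simp
        · rw [if_neg hw, if_neg hw]
          have : β w = 0 := by
            by_contra hb
            refine hw ?_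
            by_cases hwB : w ∈ Bd
            · exact Finset.mem_union_left _ hwB
            · exact Finset.mem_union_right _ (by rw [hJs, Finset.mem_filter]; exact ⟨mem_univ _, hwB, hb⟩)
          rw [this]
          simp
      obtain ⟨z, hz⟩ := hval
      rcases le_or_gt z b with h | h
      · exact hlow q hqR (by rw [hz]; exact_mod_cast h)
      · exact hhigh q hqR (by rw [hz]; exact_mod_cast h)
    · -- move along four coordinates
      obtain ⟨J4, hJ4, hc4⟩ := Finset.exists_subset_card_eq hJ
      have hJ4' : ∀ w ∈ J4, w ∉ Bd ∧ β w ≠ 0 := by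
        intro w hw
        have := hJ4 hw
        rw [hJs, Finset.mem_filter] at this
        exact this.2
      set d : W → ℝ := fun w => if w ∈ J4 then (if 0 < β w then 1 / 4 else -(1 / 4)) else 0 with hd
      have hS : 1 ≤ ∑ w, (β w : ℝ) * d w := by
        have e1 : ∑ w ∈ J4, (1 / 4 : ℝ) ≤ ∑ w ∈ J4, (β w : ℝ) * d w := by
          refine Finset.sum_le_sum fun w hw => ?_
          simp only [hd, if_pos hw]
          have hb := (hJ4' w hw).2
          split_ifs with h
          · have : (1 : ℝ) ≤ β w := by exact_mod_cast h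
            linarith
          · have : β w ≤ -1 := by omega
            have : (β w : ℝ) ≤ -1 := by exact_mod_cast this
            linarith
        have e2 : ∑ w ∈ J4, (β w : ℝ) * d w = ∑ w, (β w : ℝ) * d w := by
          refine Finset.sum_subset (Finset.subset_univ _) fun w _ hw => ?_
          simp only [hd, if_neg hw, mul_zero]
        rw [Finset.sum_const, hc4] at e1
        rw [← e2]
        refine le_trans ?_ e1
        norm_num
      set S : ℝ := ∑ w, (β w : ℝ) * d w with hSdef
      set v : ℝ := α + ∑ w, (β w : ℝ) * p w with hvdef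
      have hSpos : 0 < S := by linarith
      set l1 : ℝ := (b + 1 - v) / S with hl1
      set l2 : ℝ := (v - b) / S with hl2
      have hl1p : 0 < l1 := div_pos (by linarith) hSpos
      have hl2p : 0 < l2 := div_pos (by linarith) hSpos
      have hl1u : l1 ≤ 1 := by rw [hl1, div_le_one hSpos]; linarith
      have hl2u : l2 ≤ 1 := by rw [hl2, div_le_one hSpos]; linarith
      have hdb : ∀ w, w ∈ J4 → |d w| ≤ 1 / 4 := by
        intro w hw
        simp only [hd, if_pos hw]
        split_ifs
        · rw [abs_of_pos (by norm_num)]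
        · rw [abs_neg, abs_of_pos (by norm_num)]
      have mv : ∀ l : ℝ, |l| ≤ 1 → (∀ w, 0 ≤ p w + l * d w) ∧ (∀ w, p w + l * d w ≤ 1) ∧
          (∀ w ∉ Bd ∪ J4, 1 / 4 ≤ p w + l * d w ∧ p w + l * d w ≤ 3 / 4) ∧
          α + ∑ w, (β w : ℝ) * (p w + l * d w) = v + l * S := by
        intro l hl
        have e1 : ∀ w, w ∈ J4 → |l * d w| ≤ 1 / 4 := by
          intro w hw
          rw [abs_mul]
          have := hdb w hw
          nlinarith [abs_nonneg l, abs_nonneg (d w)]
        have e2 : ∀ w, w ∉ J4 → l * d w = 0 := by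
          intro w hw
          simp only [hd, if_neg hw, mul_zero]
        refine ⟨fun w => ?_, fun w => ?_, fun w hw => ?_, ?_⟩
        · by_cases hw : w ∈ J4
          · have := (abs_le.1 (e1 w hw)).1
            have := (hp w (hJ4' w hw).1).1
            linarith
          · rw [e2 w hw, add_zero]; exact h0 w
        · by_cases hw : w ∈ J4
          · have := (abs_le.1 (e1 w hw)).2
            have := (hp w (hJ4' w hw).1).2
            linarith
          · rw [e2 w hw, add_zero]; exact h1 w
        · have h2 : w ∉ J4 := fun h => hw (Finset.mem_union_right _ h)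
          have h3 : w ∉ Bd := fun h => hw (Finset.mem_union_left _ h)
          rw [e2 w h2, add_zero]
          exact hp w h3
        · rw [hvdef, hSdef, Finset.mul_sum, add_assoc, ← Finset.sum_add_distrib]
          congr 1
          refine Finset.sum_congr rfl fun w _ => ?_
          ring
      have hcard : (Bd ∪ J4).card + 4 * r ≤ M := by
        have := Finset.card_union_le Bd J4
        omega
      obtain ⟨a1, a2, a3, a4⟩ := mv l1 (by rw [abs_of_pos hl1p]; exact hl1u)
      obtain ⟨b1, b2, b3, b4⟩ := mv (-l2) (by rw [abs_neg, abs_of_pos hl2p]; exact hl2u)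
      have t1 : (fun w => p w + l1 * d w) ∈ {p | X.Psi (bern p) ∈ T} := by
        rw [Set.mem_ofPred_eq]
        refine hhigh _ (ih (Bd ∪ J4) _ hcard a1 a2 a3) ?_
        rw [a4, hl1, div_mul_cancel₀ _ hSpos.ne']
        linarith
      have t2 : (fun w => p w + -l2 * d w) ∈ {p | X.Psi (bern p) ∈ T} := by
        rw [Set.mem_ofPred_eq]
        refine hlow _ (ih (Bd ∪ J4) _ hcard b1 b2 b3) ?_
        rw [b4, hl2, neg_mul, div_mul_cancel₀ _ hSpos.ne']
        linarith
      have hsum : 0 < l1 + l2 := by linarith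
      have t3 := hTc t1 t2 (div_nonneg hl2p.le hsum.le) (div_nonneg hl1p.le hsum.le)
        (by rw [← add_div, add_comm]; exact div_self hsum.ne')
      rw [Set.mem_ofPred_eq] at t3
      convert t3 using 2
      congr 1
      funext w
      simp only [Pi.add_apply, Pi.smul_apply, smul_eq_mul]
      field_simp
      ring

/-- Every cover of the 2-factors of length at most `B` by convex sets that contain no point of the
relaxation is large. -/
theorem Sw.cover [Nonempty W] {B : ℝ} {K : ℕ} {blk : W → J} (X : Sw P B K blk) (D N t r : ℕ)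
    (hblk : ∀ j, D ≤ (univ.filter fun w => blk w = j).card) (F : List (Set (P → P → ℝ)))
    (hconv : ∀ C ∈ F, Convex ℝ C)
    (hF : ∀ C ∈ F, ∀ x ∈ C, x ∉ (splitClosure P)^[r] (Relax P B K N t))
    (hcov : ∀ s : Equiv.Perm P, IsTwoFactor P s → len P s ≤ B → LongCycles P K s →
      ∃ C ∈ F, inc P s ∈ C) :
    Real.exp (((D : ℝ) - 4 * r - 16 * t - 16 * Nat.log 2 N - 16) / 32) ≤ F.length := by
  classical
  obtain ⟨C', hC', z, hzC, Bd, hBd, hz0, hz1, hz⟩ := Pool.Agent.W888.UG.exists_near
    (F.map fun C => {z : W → Bool → ℝ | X.Psi z ∈ C}) (by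
      intro C' hC'
      obtain ⟨C, hC, rfl⟩ := List.mem_map.1 hC'
      exact X.Psi_convex (hconv C hC)) (by
      intro b
      obtain ⟨C, hC, hb⟩ := hcov (X.σ b) (X.two b) (X.le b) (X.cyc b)
      refine ⟨_, List.mem_map.2 ⟨C, hC, rfl⟩, ?_⟩
      rw [Set.mem_ofPred_eq, X.Psi_lab]
      exact hb) (1 / 2) (by norm_num) (by norm_num)
  obtain ⟨C, hC, rfl⟩ := List.mem_map.1 hC'
  rw [Set.mem_ofPred_eq] at hzC
  rw [List.length_map, Fintype.card_bool] at hBd
  have hbig : D < Bd.card + 4 * r + 16 * t + 16 * (Nat.log 2 N + 1) := by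
    by_contra hcon
    push Not at hcon
    refine hF C hC _ hzC ?_
    rw [← bern_of z hz1]
    have hzf : ∀ w, z w false = 1 - z w true := by
      intro w
      have := hz1 w
      rw [Fintype.sum_bool] at this
      linarith
    refine X.mem_split (D - 16 * t - 16 * (Nat.log 2 N + 1)) (Relax P B K N t) r ?_ Bd _ (by omega)
      (fun w => hz0 w true) (fun w => ?_) (fun w hw => ?_)
    · intro Bd' p hBd' h0 h1 hp
      refine X.mem_relax D N t Bd' hblk (by omega) (bern p) ?_ ?_ ?_
      · intro w a
        unfold bern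
        split_ifs
        · exact h0 w
        · linarith [h1 w]
      · intro w
        rw [Fintype.sum_bool]
        unfold bern
        simp
      · intro w hw a
        unfold bern
        split_ifs
        · exact (hp w hw).1
        · linarith [(hp w hw).2]
    · have := hz0 w false
      rw [hzf] at this
      linarith
    · have g1 := hz w hw true
      have g2 := hz w hw false
      rw [Fintype.card_bool] at g1 g2
      rw [hzf] at g2
      norm_num at g1 g2 ⊢
      constructor <;> linarith
  have hbig' : (D : ℝ) < Bd.card + 4 * r + 16 * t + 16 * (Nat.log 2 N + 1) := by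
    exact_mod_cast hbig
  have h1 : ((D : ℝ) - 4 * r - 16 * t - 16 * Nat.log 2 N - 16) / 32 ≤ Real.log F.length := by
    norm_num at hBd
    linarith
  have hF0 : 0 < F.length := List.length_pos_of_mem hC
  calc Real.exp (((D : ℝ) - 4 * r - 16 * t - 16 * Nat.log 2 N - 16) / 32)
      ≤ Real.exp (Real.log F.length) := Real.exp_le_exp.2 h1
    _ = F.length := Real.exp_log (by exact_mod_cast hF0)

/-- the same for branch-and-cut trees -/
theorem Sw.tree [Nonempty W] {B : ℝ} {K : ℕ} {blk : W → J} (X : Sw P B K blk) (D N t r : ℕ)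
    (hblk : ∀ j, D ≤ (univ.filter fun w => blk w = j).card) (T : Tree P P)
    (hT : T.Proves ((splitClosure P)^[r] (Relax P B K N t)) Set.univ) :
    Real.exp (((D : ℝ) - 4 * r - 16 * t - 16 * Nat.log 2 N - 16) / 32) ≤ T.leaves := by
  obtain ⟨F, h1, h2, h3, h4⟩ := Pool.Agent.W888.UG.cover_of_tree _ T Set.univ
    convex_univ hT
  rw [← h1]
  refine X.cover D N t r hblk F h2 h3 fun s _ _ _ => ?_
  obtain ⟨C, hC, hs⟩ := h4 (fun v => s v) trivial
  rw [lab_eq] at hs
  exact ⟨C, hC, hs⟩

/-- the same for proofs with split cuts -/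
theorem Sw.split [Nonempty W] {B : ℝ} {K : ℕ} {blk : W → J} (X : Sw P B K blk) (D N t r : ℕ)
    (hblk : ∀ j, D ≤ (univ.filter fun w => blk w = j).card)
    (l : List (((P → P → ℤ) × ℤ) × ((P → P → ℝ) × ℝ)))
    (hl : SplitProof ((splitClosure P)^[r] (Relax P B K N t)) l Set.univ) :
    Real.exp (((D : ℝ) - 4 * r - 16 * t - 16 * Nat.log 2 N - 16) / 32) ≤ 2 * l.length + 1 := by
  obtain ⟨T, hT, hP⟩ := Pool.Agent.W888.UG.tree_of_split _ l Set.univ hl
  have := X.tree D N t r hblk T hP
  rw [hT] at this
  exact_mod_cast this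

/-- If there is no tour of length at most `B` then some branch-and-cut tree proves this. -/
theorem exists_tree (B : ℝ) (K : ℕ) (hB : ∀ s : Equiv.Perm P, IsTour P s → B < len P s) :
    ∃ T : Tree P P, T.Proves (Relax P B K 1 0) Set.univ := by
  classical
  refine ⟨Pool.Agent.W888.UG.full (univ : Finset (P × P)).toList,
    Pool.Agent.W888.UG.full_proves _ _ _ fun x _ hx hR => ?_⟩
  exact no_integral P B K hB x hR fun u v => hx (u, v) (by simp)

end gen

end Pool.Agent.T9h21.BC
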