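import Pool.Agent.T9h21.BC.Gen

set_option autoImplicit false
set_option linter.unusedSectionVars false

/-!
The points: `m + 1` thin rectangles (rings), one above the other, and between two consecutive
rings `D` further points, each of which can be visited from the ring below or from the ring above
at the same cost.
-/

namespace Pool.Agent.T9h21.BC

open Finset

/-- The points of the instance. -/
def IsPt (D m : ℤ) (q : ℤ × ℤ) : Prop :=
  (0 ≤ q.1 ∧ q.1 ≤ 18 * D ∧ 0 ≤ q.2 ∧ q.2 ≤ 20 * m + 12) ∧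
    (((q.2 % 20 = 12 ∨ q.2 % 20 = 0) ∧ q.1 % 6 = 0) ∨
      (q.2 % 20 = 6 ∧ (q.1 = 0 ∨ q.1 = 18 * D)) ∨ (q.2 % 20 = 16 ∧ q.1 % 18 = 9))

instance (D m : ℤ) (q : ℤ × ℤ) : Decidable (IsPt D m q) := by
  unfold IsPt
  infer_instance

/-- The set of points of the instance. -/
noncomputable def pts (D m : ℕ) : Finset (ℤ × ℤ) :=
  ((Finset.Icc (0 : ℤ) (18 * D)) ×ˢ (Finset.Icc (0 : ℤ) (20 * m + 12))).filter (IsPt D m)

theorem mem_pts {D m : ℕ} {q : ℤ × ℤ} : q ∈ pts D m ↔ IsPt D m q := by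
  unfold pts
  rw [Finset.mem_filter, Finset.mem_product, Finset.mem_Icc, Finset.mem_Icc]
  constructor
  · exact fun h => h.2
  · intro h
    exact ⟨⟨⟨h.1.1, h.1.2.1⟩, ⟨h.1.2.2.1, h.1.2.2.2⟩⟩, h⟩

/-- the radii -/
noncomputable def rad (q : ℤ × ℤ) : ℝ := if q.2 % 20 = 16 then 2 else 3

/-- tangent circles -/
def Con (q q' : ℤ × ℤ) : Prop :=
  ((q.1 = q'.1 + 6 ∨ q'.1 = q.1 + 6) ∧ q.2 = q'.2) ∨
    (q.1 = q'.1 ∧ (q.2 = q'.2 + 6 ∨ q'.2 = q.2 + 6)) ∨
    ((q.1 = q'.1 + 3 ∨ q'.1 = q.1 + 3) ∧ (q.2 = q'.2 + 4 ∨ q'.2 = q.2 + 4))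

theorem dst_eq {a b : ℤ × ℤ} {k : ℕ} (h : (a.1 - b.1) ^ 2 + (a.2 - b.2) ^ 2 = (k : ℤ) ^ 2) :
    dst a b = k := by
  unfold dst
  have h2 : (((a.1 - b.1 : ℤ) : ℝ) ^ 2 + ((a.2 - b.2 : ℤ) : ℝ) ^ 2) = (k : ℝ) ^ 2 := by
    exact_mod_cast h
  rw [h2, Real.sqrt_sq (by positivity)]

theorem dst_ge {a b : ℤ × ℤ} {k : ℕ} (h : (k : ℤ) ^ 2 ≤ (a.1 - b.1) ^ 2 + (a.2 - b.2) ^ 2) :
    (k : ℝ) ≤ dst a b := by
  unfold dst
  apply Real.le_sqrt_of_sq_le
  exact_mod_cast h

theorem sq_ge {k d : ℤ} (hk : 0 ≤ k) (h : k ≤ d ∨ k ≤ -d) : k ^ 2 ≤ d ^ 2 := by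
  rcases h with h | h
  · nlinarith
  · nlinarith

theorem ring_facts {D m : ℕ} {x y : ℤ} (h : IsPt D m (x, y)) (e : ¬ y % 20 = 16) :
    x % 6 = 0 ∧ (y % 20 = 0 ∨ y % 20 = 6 ∨ y % 20 = 12) := by
  unfold IsPt at h
  simp only at h
  omega

theorem tog_facts {D m : ℕ} {x y : ℤ} (h : IsPt D m (x, y)) (e : y % 20 = 16) :
    x % 18 = 9 := by
  unfold IsPt at h
  simp only at h
  omega

theorem dst_con {D m : ℕ} {q q' : ℤ × ℤ} (h : IsPt D m q) (h' : IsPt D m q') (hc : Con q q') :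
    dst q q' = rad q + rad q' := by
  obtain ⟨x, y⟩ := q
  obtain ⟨x', y'⟩ := q'
  have r1 := ring_facts h
  have r2 := ring_facts h'
  have t1 := tog_facts h
  have t2 := tog_facts h'
  clear h h'
  unfold Con at hc
  unfold rad
  simp only at hc ⊢
  rcases hc with hc | hc | hc
  · have e1 : ¬ y % 20 = 16 := by omega
    have e2 : ¬ y' % 20 = 16 := by omega
    rw [if_neg e1, if_neg e2]
    rw [dst_eq (k := 6)]
    · norm_num
    · simp only
      rcases hc with ⟨hx | hx, hy⟩ <;> rw [hx, hy] <;> push_cast <;> ring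
  · have e1 : ¬ y % 20 = 16 := by omega
    have e2 : ¬ y' % 20 = 16 := by omega
    rw [if_neg e1, if_neg e2]
    rw [dst_eq (k := 6)]
    · norm_num
    · simp only
      rcases hc with ⟨hx, hy | hy⟩ <;> rw [hx, hy] <;> push_cast <;> ring
  · have e3 : dst (x, y) (x', y') = 5 := by
      rw [dst_eq (k := 5)]
      · norm_num
      · simp only
        rcases hc with ⟨hx | hx, hy | hy⟩ <;> rw [hx, hy] <;> push_cast <;> ring
    rw [e3]
    by_cases e1 : y % 20 = 16
    · have e2 : ¬ y' % 20 = 16 := by omega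
      rw [if_pos e1, if_neg e2]
      norm_num
    · have e2 : y' % 20 = 16 := by omega
      rw [if_neg e1, if_pos e2]
      norm_num

theorem far_aux {k : ℕ} {x y x' y' : ℤ}
    (e3 : ((k : ℤ) ≤ x - x' ∨ (k : ℤ) ≤ -(x - x')) ∨ ((k : ℤ) ≤ y - y' ∨ (k : ℤ) ≤ -(y - y'))) :
    (k : ℝ) ≤ dst (x, y) (x', y') := by
  apply dst_ge
  simp only
  have hk : (0 : ℤ) ≤ k := Int.natCast_nonneg k
  rcases e3 with e3 | e3
  · have := sq_ge hk e3
    linarith [sq_nonneg (y - y')]
  · have := sq_ge hk e3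
    linarith [sq_nonneg (x - x')]

theorem far_rr {x y x' y' : ℤ} (a : x % 6 = 0) (a' : x' % 6 = 0)
    (b : y % 20 = 0 ∨ y % 20 = 6 ∨ y % 20 = 12) (b' : y' % 20 = 0 ∨ y' % 20 = 6 ∨ y' % 20 = 12)
    (hne : ¬ (x = x' ∧ y = y'))
    (hc1 : ¬ ((x = x' + 6 ∨ x' = x + 6) ∧ y = y')) (hc2 : ¬ (x = x' ∧ (y = y' + 6 ∨ y' = y + 6))) :
    (8 ≤ x - x' ∨ 8 ≤ -(x - x')) ∨ (8 ≤ y - y' ∨ 8 ≤ -(y - y')) ∨
      ((6 ≤ x - x' ∨ 6 ≤ -(x - x')) ∧ (6 ≤ y - y' ∨ 6 ≤ -(y - y'))) := by
  by_contra hcon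
  push Not at hcon
  obtain ⟨c1, c2, c3⟩ := hcon
  have d1 : x - x' = 0 ∨ x - x' = 6 ∨ x - x' = -6 := by omega
  have d2 : y - y' = 0 ∨ y - y' = 6 ∨ y - y' = -6 := by
    rcases b with b | b | b <;> rcases b' with b' | b' | b' <;> omega
  rcases d1 with d1 | d1 | d1 <;> rcases d2 with d2 | d2 | d2 <;> omega

theorem dst_far {D m : ℕ} {q q' : ℤ × ℤ} (h : IsPt D m q) (h' : IsPt D m q') (hne : q ≠ q')
    (hc : ¬ Con q q') : rad q + rad q' + 2 ≤ dst q q' := by
  obtain ⟨x, y⟩ := q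
  obtain ⟨x', y'⟩ := q'
  have hne' : ¬ (x = x' ∧ y = y') := fun h => hne (by rw [h.1, h.2])
  have r1 := ring_facts h
  have r2 := ring_facts h'
  have t1 := tog_facts h
  have t2 := tog_facts h'
  clear h h' hne
  unfold Con at hc
  unfold rad
  simp only [not_or] at hc ⊢
  obtain ⟨hc1, hc2, hc3⟩ := hc
  by_cases e1 : y % 20 = 16
  · by_cases e2 : y' % 20 = 16
    · rw [if_pos e1, if_pos e2]
      have t1 := t1 e1
      have t2 := t2 e2
      clear r1 r2
      have := far_aux (k := 6) (x := x) (y := y) (x' := x') (y' := y') (by push_cast; omega)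
      push_cast at this
      linarith
    · rw [if_pos e1, if_neg e2]
      have t1 := t1 e1
      obtain ⟨r2, r2'⟩ := r2 e2
      clear r1 t2
      have := far_aux (k := 7) (x := x) (y := y) (x' := x') (y' := y') (by push_cast; omega)
      push_cast at this
      linarith
  · by_cases e2 : y' % 20 = 16
    · rw [if_neg e1, if_pos e2]
      have t2 := t2 e2
      obtain ⟨r1, r1'⟩ := r1 e1
      clear r2 t1
      have := far_aux (k := 7) (x := x) (y := y) (x' := x') (y' := y') (by push_cast; omega)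
      push_cast at this
      linarith
    · rw [if_neg e1, if_neg e2]
      obtain ⟨r1, r1'⟩ := r1 e1
      obtain ⟨r2, r2'⟩ := r2 e2
      have e3 := far_rr r1 r2 r1' r2' hne' hc1 hc2
      have e4 : ((8 : ℕ) : ℤ) ^ 2 ≤ (x - x') ^ 2 + (y - y') ^ 2 := by
        rcases e3 with e3 | e3 | ⟨e3, e5⟩
        · have := sq_ge (by norm_num) e3
          push_cast
          nlinarith [sq_nonneg (y - y')]
        · have := sq_ge (by norm_num) e3
          push_cast
          nlinarith [sq_nonneg (x - x')]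
        · have := sq_ge (by norm_num) e3
          have := sq_ge (by norm_num) e5
          push_cast
          linarith
      have := dst_ge (a := (x, y)) (b := (x', y')) e4
      push_cast at this
      linarith

/-- the successor if the bit is `false` (`c = false`) or `true` (`c = true`) -/
def nx (D m : ℤ) (c : Bool) (q : ℤ × ℤ) : ℤ × ℤ :=
  if q.2 % 20 = 12 then
    (if q.1 = 18 * D then (q.1, q.2 - 6)
      else if q.1 % 18 = 6 ∧ q.2 < 20 * m ∧ c = false then (q.1 + 3, q.2 + 4) else (q.1 + 6, q.2))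
  else if q.2 % 20 = 6 then (if q.1 = 0 then (q.1, q.2 + 6) else (q.1, q.2 - 6))
  else if q.2 % 20 = 0 then
    (if q.1 = 0 then (q.1, q.2 + 6)
      else if q.1 % 18 = 12 ∧ 20 ≤ q.2 ∧ c = true then (q.1 - 3, q.2 - 4) else (q.1 - 6, q.2))
  else (if c = true then (q.1 - 3, q.2 + 4) else (q.1 + 3, q.2 - 4))

theorem nx_false {D m : ℕ} {x y x' y' : ℤ} (h : IsPt D m (x, y))
    (e : nx D m false (x, y) = (x', y')) :
    (y % 20 = 12 ∧ x = 18 * D ∧ x' = x ∧ y' = y - 6) ∨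
    (y % 20 = 12 ∧ x < 18 * D ∧ x % 18 = 6 ∧ y < 20 * m ∧ x' = x + 3 ∧ y' = y + 4) ∨
    (y % 20 = 12 ∧ x < 18 * D ∧ (x % 18 = 6 → 20 * m < y) ∧ x % 6 = 0 ∧ x' = x + 6 ∧ y' = y) ∨
    (y % 20 = 6 ∧ x = 0 ∧ x' = x ∧ y' = y + 6) ∨
    (y % 20 = 6 ∧ x = 18 * D ∧ 0 < x ∧ x' = x ∧ y' = y - 6) ∨
    (y % 20 = 0 ∧ x = 0 ∧ x' = x ∧ y' = y + 6) ∨
    (y % 20 = 0 ∧ 0 < x ∧ x % 6 = 0 ∧ x' = x - 6 ∧ y' = y) ∨
    (y % 20 = 16 ∧ x % 18 = 9 ∧ x' = x + 3 ∧ y' = y - 4) := by
  unfold IsPt at h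
  unfold nx at e
  simp only [and_true, Bool.false_eq_true, and_false, if_false] at h e
  split_ifs at e <;> simp only [Prod.mk.injEq] at e
  · left; omega
  · right; left; omega
  · right; right; left; omega
  · right; right; right; left; omega
  · right; right; right; right; left; omega
  · right; right; right; right; right; left; omega
  · right; right; right; right; right; right; left; omega
  · right; right; right; right; right; right; right; omega

theorem nx_true {D m : ℕ} {x y x' y' : ℤ} (h : IsPt D m (x, y))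
    (e : nx D m true (x, y) = (x', y')) :
    (y % 20 = 12 ∧ x = 18 * D ∧ x' = x ∧ y' = y - 6) ∨
    (y % 20 = 12 ∧ x < 18 * D ∧ x % 6 = 0 ∧ x' = x + 6 ∧ y' = y) ∨
    (y % 20 = 6 ∧ x = 0 ∧ x' = x ∧ y' = y + 6) ∨
    (y % 20 = 6 ∧ x = 18 * D ∧ 0 < x ∧ x' = x ∧ y' = y - 6) ∨
    (y % 20 = 0 ∧ x = 0 ∧ x' = x ∧ y' = y + 6) ∨
    (y % 20 = 0 ∧ 0 < x ∧ x % 18 = 12 ∧ 20 ≤ y ∧ x' = x - 3 ∧ y' = y - 4) ∨
    (y % 20 = 0 ∧ 0 < x ∧ (x % 18 = 12 → y < 20) ∧ x % 6 = 0 ∧ x' = x - 6 ∧ y' = y) ∨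
    (y % 20 = 16 ∧ x % 18 = 9 ∧ x' = x - 3 ∧ y' = y + 4) := by
  unfold IsPt at h
  unfold nx at e
  simp only [and_true, Bool.true_eq_false, and_false, if_false, if_true] at h e
  split_ifs at e <;> simp only [Prod.mk.injEq] at e
  · left; omega
  · right; left; omega
  · right; right; left; omega
  · right; right; right; left; omega
  · right; right; right; right; left; omega
  · right; right; right; right; right; left; omega
  · right; right; right; right; right; right; left; omega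
  · right; right; right; right; right; right; right; omega

theorem nx_pt {D m : ℕ} {c : Bool} {q : ℤ × ℤ} (h : IsPt D m q) : IsPt D m (nx D m c q) := by
  obtain ⟨x, y⟩ := q
  rcases hr : nx D m c (x, y) with ⟨x', y'⟩
  cases c
  · have e := nx_false h hr
    unfold IsPt at h ⊢
    simp only at h ⊢
    rcases e with e | e | e | e | e | e | e | e <;> omega
  · have e := nx_true h hr
    unfold IsPt at h ⊢
    simp only at h ⊢
    rcases e with e | e | e | e | e | e | e | e <;> omega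

theorem nx_con {D m : ℕ} {c : Bool} {q : ℤ × ℤ} (h : IsPt D m q) : Con q (nx D m c q) := by
  obtain ⟨x, y⟩ := q
  rcases hr : nx D m c (x, y) with ⟨x', y'⟩
  cases c
  · have e := nx_false h hr
    unfold Con
    simp only
    rcases e with e | e | e | e | e | e | e | e <;> omega
  · have e := nx_true h hr
    unfold Con
    simp only
    rcases e with e | e | e | e | e | e | e | e <;> omega

theorem nx_two {D m : ℕ} (hD : 0 < D) {c c' : Bool} {q : ℤ × ℤ} (h : IsPt D m q) :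
    nx D m c' (nx D m c q) ≠ q := by
  have h2 := nx_pt (c := c) h
  obtain ⟨x, y⟩ := q
  rcases hr : nx D m c (x, y) with ⟨x', y'⟩
  rw [hr] at h2
  intro hr2
  cases c
  · have e := nx_false h hr
    cases c'
    · have e2 := nx_false h2 hr2
      clear h h2
      rcases e with e | e | e | e | e | e | e | e <;>
        rcases e2 with e2 | e2 | e2 | e2 | e2 | e2 | e2 | e2 <;> omega
    · have e2 := nx_true h2 hr2
      clear h h2
      rcases e with e | e | e | e | e | e | e | e <;>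
        rcases e2 with e2 | e2 | e2 | e2 | e2 | e2 | e2 | e2 <;> omega
  · have e := nx_true h hr
    cases c'
    · have e2 := nx_false h2 hr2
      clear h h2
      rcases e with e | e | e | e | e | e | e | e <;>
        rcases e2 with e2 | e2 | e2 | e2 | e2 | e2 | e2 | e2 <;> omega
    · have e2 := nx_true h2 hr2
      clear h h2
      rcases e with e | e | e | e | e | e | e | e <;>
        rcases e2 with e2 | e2 | e2 | e2 | e2 | e2 | e2 | e2 <;> omega

/-- the level of the bit that controls a point -/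
def lev (q : ℤ × ℤ) : ℤ := if q.2 % 20 = 0 then q.2 / 20 - 1 else q.2 / 20

theorem nx_inj {D m : ℕ} (hD : 0 < D) {c c' : Bool} {q q' : ℤ × ℤ} (h : IsPt D m q) (h' : IsPt D m q')
    (hcc : lev q = lev q' → q.1 / 18 = q'.1 / 18 → c = c') (he : nx D m c q = nx D m c' q') :
    q = q' := by
  obtain ⟨x, y⟩ := q
  obtain ⟨x', y'⟩ := q'
  rcases hr : nx D m c (x, y) with ⟨a, b⟩
  have hr' := he.symm.trans hr
  suffices x = x' ∧ y = y' by rw [this.1, this.2]
  unfold lev at hcc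
  simp only at hcc
  have hcc' : ¬ c = c' → ¬ ((if y % 20 = 0 then y / 20 - 1 else y / 20) =
      (if y' % 20 = 0 then y' / 20 - 1 else y' / 20) ∧ x / 18 = x' / 18) :=
    fun h1 h2 => h1 (hcc h2.1 h2.2)
  clear hcc he
  have bd : 0 ≤ x ∧ x ≤ 18 * (D : ℤ) ∧ 0 ≤ y ∧ y ≤ 20 * (m : ℤ) + 12 := h.1
  have bd' : 0 ≤ x' ∧ x' ≤ 18 * (D : ℤ) ∧ 0 ≤ y' ∧ y' ≤ 20 * (m : ℤ) + 12 := h'.1
  cases c
  · have e := nx_false h hr
    cases c'
    · have e2 := nx_false h' hr'
      clear h h'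
      rcases e with e | e | e | e | e | e | e | e <;>
        rcases e2 with e2 | e2 | e2 | e2 | e2 | e2 | e2 | e2 <;> omega
    · have e2 := nx_true h' hr'
      clear h h'
      have hcc := hcc' (by simp)
      rcases e with e | e | e | e | e | e | e | e <;>
        rcases e2 with e2 | e2 | e2 | e2 | e2 | e2 | e2 | e2 <;>
        omega
  · have e := nx_true h hr
    cases c'
    · have e2 := nx_false h' hr'
      clear h h'
      have hcc := hcc' (by simp)
      rcases e with e | e | e | e | e | e | e | e <;>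
        rcases e2 with e2 | e2 | e2 | e2 | e2 | e2 | e2 | e2 <;>
        omega
    · have e2 := nx_true h' hr'
      clear h h'
      rcases e with e | e | e | e | e | e | e | e <;>
        rcases e2 with e2 | e2 | e2 | e2 | e2 | e2 | e2 | e2 <;> omega

end Pool.Agent.T9h21.BC
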