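import Pool.Agent.T9h21.BC.Geo

set_option autoImplicit false
set_option linter.unusedSectionVars false

/-!
The 2-factors of the instance, and the subtour constraints they violate.
-/

namespace Pool.Agent.T9h21.BC

open Finset

section rows

variable {D m : ℕ} {f : ℤ × ℤ → Prop} {bb : ℤ × ℤ → Bool}

theorem row_top (hst : ∀ q, IsPt D m q → (f (nx D m (bb q) q) ↔ f q))
    (hbb : ∀ q q', lev q = lev q' → q.1 / 18 = q'.1 / 18 → bb q = bb q') {x y : ℤ}
    (h : IsPt D m (x, y)) (h1 : y % 20 = 12) (h2 : x < 18 * D) : f (x + 6, y) ↔ f (x, y) := by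
  have hx6 : x % 6 = 0 := (ring_facts h (by omega)).1
  rcases hc : bb (x, y) with _ | _
  · rcases hr : nx D m false (x, y) with ⟨x', y'⟩
    have e := nx_false h hr
    have h3 := hst _ h
    rw [hc, hr] at h3
    by_cases ht : x % 18 = 6 ∧ y < 20 * m
    · have e1 : x' = x + 3 ∧ y' = y + 4 := by
        rcases e with e | e | e | e | e | e | e | e <;> omega
      rw [e1.1, e1.2] at h3 hr
      have h4 : IsPt D m (x + 3, y + 4) := by
        have := nx_pt (c := false) h
        rwa [hr] at this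
      have h5 : bb (x + 3, y + 4) = false := by
        rw [← hc]
        apply hbb
        · unfold lev
          simp only
          have : ¬ (y + 4) % 20 = 0 := by omega
          have : ¬ y % 20 = 0 := by omega
          omega
        · simp only
          omega
      rcases hr2 : nx D m false (x + 3, y + 4) with ⟨x2, y2⟩
      have e2 := nx_false h4 hr2
      have h6 := hst _ h4
      rw [h5, hr2] at h6
      have e3 : x2 = x + 6 ∧ y2 = y := by
        rcases e2 with e | e | e | e | e | e | e | e <;> omega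
      rw [e3.1, e3.2] at h6
      exact h6.trans h3
    · have e1 : x' = x + 6 ∧ y' = y := by
        rcases e with e | e | e | e | e | e | e | e <;> omega
      rw [e1.1, e1.2] at h3
      exact h3
  · rcases hr : nx D m true (x, y) with ⟨x', y'⟩
    have e := nx_true h hr
    have h3 := hst _ h
    rw [hc, hr] at h3
    have e1 : x' = x + 6 ∧ y' = y := by
      rcases e with e | e | e | e | e | e | e | e <;> omega
    rw [e1.1, e1.2] at h3
    exact h3

theorem row_bot (hst : ∀ q, IsPt D m q → (f (nx D m (bb q) q) ↔ f q))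
    (hbb : ∀ q q', lev q = lev q' → q.1 / 18 = q'.1 / 18 → bb q = bb q') {x y : ℤ}
    (h : IsPt D m (x, y)) (h1 : y % 20 = 0) (h2 : 0 < x) : f (x - 6, y) ↔ f (x, y) := by
  have hx6 : x % 6 = 0 := (ring_facts h (by omega)).1
  rcases hc : bb (x, y) with _ | _
  · rcases hr : nx D m false (x, y) with ⟨x', y'⟩
    have e := nx_false h hr
    have h3 := hst _ h
    rw [hc, hr] at h3
    have e1 : x' = x - 6 ∧ y' = y := by
      rcases e with e | e | e | e | e | e | e | e <;> omega
    rw [e1.1, e1.2] at h3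
    exact h3
  · rcases hr : nx D m true (x, y) with ⟨x', y'⟩
    have e := nx_true h hr
    have h3 := hst _ h
    rw [hc, hr] at h3
    by_cases ht : x % 18 = 12 ∧ 20 ≤ y
    · have e1 : x' = x - 3 ∧ y' = y - 4 := by
        rcases e with e | e | e | e | e | e | e | e <;> omega
      rw [e1.1, e1.2] at h3 hr
      have h4 : IsPt D m (x - 3, y - 4) := by
        have := nx_pt (c := true) h
        rwa [hr] at this
      have h5 : bb (x - 3, y - 4) = true := by
        rw [← hc]
        apply hbb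
        · unfold lev
          simp only
          omega
        · simp only
          omega
      rcases hr2 : nx D m true (x - 3, y - 4) with ⟨x2, y2⟩
      have e2 := nx_true h4 hr2
      have h6 := hst _ h4
      rw [h5, hr2] at h6
      have e3 : x2 = x - 6 ∧ y2 = y := by
        rcases e2 with e | e | e | e | e | e | e | e <;> omega
      rw [e3.1, e3.2] at h6
      exact h6.trans h3
    · have e1 : x' = x - 6 ∧ y' = y := by
        rcases e with e | e | e | e | e | e | e | e <;> omega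
      rw [e1.1, e1.2] at h3
      exact h3

theorem side_left (hst : ∀ q, IsPt D m q → (f (nx D m (bb q) q) ↔ f q)) {x y : ℤ}
    (h : IsPt D m (x, y)) (h1 : y % 20 = 6 ∨ y % 20 = 0) (h2 : x = 0) :
    f (x, y + 6) ↔ f (x, y) := by
  rcases hc : bb (x, y) with _ | _
  · rcases hr : nx D m false (x, y) with ⟨x', y'⟩
    have e := nx_false h hr
    have h3 := hst _ h
    rw [hc, hr] at h3
    have e1 : x' = x ∧ y' = y + 6 := by
      rcases e with e | e | e | e | e | e | e | e <;> omega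
    rw [e1.1, e1.2] at h3
    exact h3
  · rcases hr : nx D m true (x, y) with ⟨x', y'⟩
    have e := nx_true h hr
    have h3 := hst _ h
    rw [hc, hr] at h3
    have e1 : x' = x ∧ y' = y + 6 := by
      rcases e with e | e | e | e | e | e | e | e <;> omega
    rw [e1.1, e1.2] at h3
    exact h3

theorem side_right (hst : ∀ q, IsPt D m q → (f (nx D m (bb q) q) ↔ f q)) {x y : ℤ}
    (h : IsPt D m (x, y)) (h1 : y % 20 = 6 ∨ y % 20 = 12) (h2 : x = 18 * D) (h3 : 0 < x) :
    f (x, y - 6) ↔ f (x, y) := by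
  rcases hc : bb (x, y) with _ | _
  · rcases hr : nx D m false (x, y) with ⟨x', y'⟩
    have e := nx_false h hr
    have h3 := hst _ h
    rw [hc, hr] at h3
    have e1 : x' = x ∧ y' = y - 6 := by
      rcases e with e | e | e | e | e | e | e | e <;> omega
    rw [e1.1, e1.2] at h3
    exact h3
  · rcases hr : nx D m true (x, y) with ⟨x', y'⟩
    have e := nx_true h hr
    have h3 := hst _ h
    rw [hc, hr] at h3
    have e1 : x' = x ∧ y' = y - 6 := by
      rcases e with e | e | e | e | e | e | e | e <;> omega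
    rw [e1.1, e1.2] at h3
    exact h3

theorem pt_top {j k : ℕ} (hj : j ≤ m) (hk : k ≤ 3 * D) :
    IsPt D m (6 * (k : ℤ), 20 * (j : ℤ) + 12) := by
  unfold IsPt
  simp only
  omega

theorem pt_bot {j k : ℕ} (hj : j ≤ m) (hk : k ≤ 3 * D) :
    IsPt D m (6 * (k : ℤ), 20 * (j : ℤ)) := by
  unfold IsPt
  simp only
  omega

theorem pt_left {j : ℕ} (hj : j ≤ m) : IsPt D m (0, 20 * (j : ℤ) + 6) := by
  refine ⟨⟨le_refl _, ?_, ?_, ?_⟩, Or.inr (Or.inl ⟨?_, Or.inl rfl⟩)⟩ <;> simp only <;> omega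

theorem pt_right {j : ℕ} (hj : j ≤ m) : IsPt D m (18 * (D : ℤ), 20 * (j : ℤ) + 6) := by
  refine ⟨⟨?_, le_refl _, ?_, ?_⟩, Or.inr (Or.inl ⟨?_, Or.inr rfl⟩)⟩ <;> simp only <;> omega

theorem all_top (hst : ∀ q, IsPt D m q → (f (nx D m (bb q) q) ↔ f q))
    (hbb : ∀ q q', lev q = lev q' → q.1 / 18 = q'.1 / 18 → bb q = bb q') {j : ℕ} (hj : j ≤ m) :
    ∀ k : ℕ, k ≤ 3 * D →
      (f (6 * (k : ℤ), 20 * (j : ℤ) + 12) ↔ f (0, 20 * (j : ℤ) + 6)) := by
  intro k
  induction k with
  | zero =>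
    intro _
    have h := side_left hst (pt_left (D := D) hj) (by omega) rfl
    have e : (20 * (j : ℤ) + 6 + 6) = 20 * (j : ℤ) + 12 := by ring
    rw [e] at h
    simpa using h
  | succ k ih =>
    intro hk
    have h := row_top hst hbb (pt_top (D := D) (k := k) hj (by omega)) (by omega) (by omega)
    have e : (6 * (k : ℤ) + 6) = 6 * ((k + 1 : ℕ) : ℤ) := by push_cast; ring
    rw [e] at h
    exact h.trans (ih (by omega))

theorem all_bot (hD : 0 < D) (hst : ∀ q, IsPt D m q → (f (nx D m (bb q) q) ↔ f q))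
    (hbb : ∀ q q', lev q = lev q' → q.1 / 18 = q'.1 / 18 → bb q = bb q') {j : ℕ} (hj : j ≤ m) :
    ∀ k : ℕ, k ≤ 3 * D →
      (f (6 * ((3 * D - k : ℕ) : ℤ), 20 * (j : ℤ)) ↔ f (0, 20 * (j : ℤ) + 6)) := by
  have h1 := all_top hst hbb hj (3 * D) le_rfl
  have e1 : (6 * ((3 * D : ℕ) : ℤ)) = 18 * (D : ℤ) := by push_cast; ring
  rw [e1] at h1
  have p1 := pt_top (D := D) (k := 3 * D) hj le_rfl
  rw [e1] at p1
  have h2 := side_right hst p1 (by omega) rfl (by omega)
  have e2 : (20 * (j : ℤ) + 12 - 6) = 20 * (j : ℤ) + 6 := by ring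
  rw [e2] at h2
  have h3 := side_right hst (pt_right (D := D) hj) (by omega) rfl (by omega)
  have e3 : (20 * (j : ℤ) + 6 - 6) = 20 * (j : ℤ) := by ring
  rw [e3] at h3
  intro k
  induction k with
  | zero =>
    intro _
    rw [Nat.sub_zero, e1]
    exact h3.trans (h2.trans h1)
  | succ k ih =>
    intro hk
    have h := row_bot hst hbb (pt_bot (D := D) (k := 3 * D - k) hj (by omega)) (by omega)
      (by omega)
    have e : (6 * ((3 * D - k : ℕ) : ℤ) - 6) = 6 * ((3 * D - (k + 1) : ℕ) : ℤ) := by omega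
    rw [e] at h
    exact h.trans (ih (by omega))

/-- all points of a ring behave in the same way -/
theorem all_ring (hD : 0 < D) (hst : ∀ q, IsPt D m q → (f (nx D m (bb q) q) ↔ f q))
    (hbb : ∀ q q', lev q = lev q' → q.1 / 18 = q'.1 / 18 → bb q = bb q') {x y : ℤ} {j : ℕ}
    (h : IsPt D m (x, y)) (hy : ¬ y % 20 = 16) (hj : y / 20 = j) :
    f (x, y) ↔ f (0, 20 * (j : ℤ) + 6) := by
  have hr := ring_facts h hy
  have hb : (0 ≤ x ∧ x ≤ 18 * (D : ℤ)) ∧ (0 ≤ y ∧ y ≤ 20 * (m : ℤ) + 12) :=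
    ⟨⟨h.1.1, h.1.2.1⟩, ⟨h.1.2.2.1, h.1.2.2.2⟩⟩
  have hjm : j ≤ m := by omega
  rcases hr.2 with h1 | h1 | h1
  · have h2 := all_bot hD hst hbb hjm (3 * D - (x / 6).toNat) (by omega)
    have e1 : 6 * ((3 * D - (3 * D - (x / 6).toNat) : ℕ) : ℤ) = x := by omega
    have e2 : 20 * (j : ℤ) = y := by omega
    rw [e1, e2] at h2
    rw [h2, ← e2]
  · have hx : x = 0 ∨ x = 18 * (D : ℤ) := by
      unfold IsPt at h
      simp only at h
      omega
    have e2 : y = 20 * (j : ℤ) + 6 := by omega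
    rw [e2]
    rcases hx with hx | hx
    · rw [hx]
    · rw [hx]
      have h3 := side_right hst (pt_right (D := D) hjm) (by omega) rfl (by omega)
      have e3 : (20 * (j : ℤ) + 6 - 6) = 20 * (j : ℤ) := by ring
      rw [e3] at h3
      have h4 := all_bot hD hst hbb hjm 0 (by omega)
      have e4 : 6 * ((3 * D - 0 : ℕ) : ℤ) = 18 * (D : ℤ) := by omega
      rw [e4] at h4
      exact h3.symm.trans h4
  · have h2 := all_top hst hbb hjm (x / 6).toNat (by omega)
    have e1 : 6 * (((x / 6).toNat : ℕ) : ℤ) = x := by omega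
    have e2 : 20 * (j : ℤ) + 12 = y := by omega
    rw [e1, e2] at h2
    exact h2

theorem tog_false (hD : 0 < D) (hst : ∀ q, IsPt D m q → (f (nx D m (bb q) q) ↔ f q))
    (hbb : ∀ q q', lev q = lev q' → q.1 / 18 = q'.1 / 18 → bb q = bb q') {x y : ℤ} {j : ℕ}
    (h : IsPt D m (x, y)) (hy : y = 20 * (j : ℤ) + 16) (hb : bb (x, y) = false) :
    f (x, y) ↔ f (0, 20 * (j : ℤ) + 6) := by
  rcases hr : nx D m false (x, y) with ⟨x', y'⟩
  have e := nx_false h hr
  have h3 := hst _ h
  have h4 := nx_pt (c := false) h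
  rw [hb, hr] at h3
  rw [hr] at h4
  have e1 : y' = y - 4 := by
    rcases e with e | e | e | e | e | e | e | e <;> omega
  rw [← h3]
  exact all_ring hD hst hbb h4 (by omega) (by omega)

theorem tog_true (hD : 0 < D) (hst : ∀ q, IsPt D m q → (f (nx D m (bb q) q) ↔ f q))
    (hbb : ∀ q q', lev q = lev q' → q.1 / 18 = q'.1 / 18 → bb q = bb q') {x y : ℤ} {j : ℕ}
    (h : IsPt D m (x, y)) (hy : y = 20 * (j : ℤ) + 16) (hb : bb (x, y) = true) :
    f (x, y) ↔ f (0, 20 * ((j + 1 : ℕ) : ℤ) + 6) := by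
  rcases hr : nx D m true (x, y) with ⟨x', y'⟩
  have e := nx_true h hr
  have h3 := hst _ h
  have h4 := nx_pt (c := true) h
  rw [hb, hr] at h3
  rw [hr] at h4
  have e1 : y' = y + 4 := by
    rcases e with e | e | e | e | e | e | e | e <;> omega
  rw [← h3]
  exact all_ring hD hst hbb h4 (by omega) (by omega)

end rows

/-- The length of the 2-factors. -/
noncomputable def bnd (D m : ℕ) : ℕ := ∑ q ∈ pts D m, if q.2 % 20 = 16 then 4 else 6

theorem bnd_eq (D m : ℕ) :
    ((bnd D m : ℕ) : ℝ) = ∑ v : pts D m, rad v + ∑ v : pts D m, rad v := by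
  rw [← Finset.sum_add_distrib, Finset.sum_coe_sort (pts D m) (fun q => rad q + rad q)]
  unfold bnd
  push_cast
  refine Finset.sum_congr rfl fun q _ => ?_
  unfold rad
  split_ifs <;> norm_num

section inst

variable (D m : ℕ) [NeZero D] [NeZero m]

/-- the bit with given coordinates -/
def tog (j i : ℤ) : Fin m × Fin D := (Fin.ofNat m j.toNat, Fin.ofNat D i.toNat)

theorem tog_val (w : Fin m × Fin D) : tog D m (w.1 : ℕ) (w.2 : ℕ) = w := by
  unfold tog
  ext
  · simp
  · simp

/-- the bit that controls a point -/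
def bitOf (q : ℤ × ℤ) : Fin m × Fin D := tog D m (lev q) (q.1 / 18)

/-- the 2-factor of an assignment of the bits -/
noncomputable def sg (b : Fin m × Fin D → Bool) : Equiv.Perm (pts D m) :=
  Equiv.ofBijective
    (fun v => ⟨nx D m (b (bitOf D m v)) v, mem_pts.2 (nx_pt (mem_pts.1 v.2))⟩)
    (by
      rw [← Finite.injective_iff_bijective]
      intro v v' h
      have h1 := congrArg Subtype.val h
      simp only at h1
      apply Subtype.ext
      refine nx_inj (Nat.pos_of_ne_zero (NeZero.ne D)) (mem_pts.1 v.2) (mem_pts.1 v'.2) ?_ h1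
      intro h2 h3
      unfold bitOf
      rw [h2, h3])

theorem sg_val (b : Fin m × Fin D → Bool) (v : pts D m) :
    ((sg D m b v : pts D m) : ℤ × ℤ) = nx D m (b (bitOf D m v)) v := rfl

theorem sg_two (b : Fin m × Fin D → Bool) : IsTwoFactor (pts D m) (sg D m b) := by
  intro v
  constructor
  · intro h
    have h1 := nx_con (c := b (bitOf D m v)) (mem_pts.1 v.2)
    rw [← sg_val, h] at h1
    unfold Con at h1
    omega
  · intro h
    have h1 := congrArg Subtype.val h
    rw [sg_val, sg_val] at h1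
    exact nx_two (Nat.pos_of_ne_zero (NeZero.ne D)) (mem_pts.1 v.2) h1

theorem sg_len (b : Fin m × Fin D → Bool) : len (pts D m) (sg D m b) = bnd D m := by
  rw [bnd_eq]
  unfold len
  have h1 : ∀ v : pts D m, dst v (sg D m b v) = rad v + rad (sg D m b v) := by
    intro v
    refine dst_con (mem_pts.1 v.2) (mem_pts.1 (sg D m b v).2) ?_
    rw [sg_val]
    exact nx_con (mem_pts.1 v.2)
  simp only [h1]
  rw [Finset.sum_add_distrib, Equiv.sum_comp (sg D m b) (fun v => rad v)]

theorem viol (S : Finset (pts D m)) (hne : S.Nonempty) (hnu : S ≠ univ) :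
    ∃ (j : Fin m) (pat : Fin m × Fin D → Bool), ∀ b : Fin m × Fin D → Bool,
      (∀ v ∈ S, sg D m b v ∈ S) → ∀ w, w.1 = j → b w = pat w := by
  classical
  have hD : 0 < D := Nat.pos_of_ne_zero (NeZero.ne D)
  have hm : 0 < m := Nat.pos_of_ne_zero (NeZero.ne m)
  set f : ℤ × ℤ → Prop := fun q => ∃ h : q ∈ pts D m, (⟨q, h⟩ : pts D m) ∈ S with hf
  have hst : ∀ b : Fin m × Fin D → Bool, (∀ v ∈ S, sg D m b v ∈ S) →
      ∀ q, IsPt D m q → (f (nx D m (b (bitOf D m q)) q) ↔ f q) := by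
    intro b hb q hq
    have hmap : S.image (sg D m b) = S :=
      Finset.eq_of_subset_of_card_le (Finset.image_subset_iff.2 hb)
        (by rw [Finset.card_image_of_injective _ (sg D m b).injective])
    have hinv : ∀ v ∈ S, (sg D m b)⁻¹ v ∈ S := by
      intro v hv
      rw [← hmap, Finset.mem_image] at hv
      obtain ⟨u, hu, rfl⟩ := hv
      simpa using hu
    constructor
    · rintro ⟨h1, h2⟩
      have h3 := hinv _ h2
      refine ⟨mem_pts.2 hq, ?_⟩
      have h4 : (sg D m b)⁻¹ ⟨nx D m (b (bitOf D m q)) q, h1⟩ = ⟨q, mem_pts.2 hq⟩ := by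
        rw [Equiv.Perm.inv_eq_iff_eq]
        rfl
      rwa [h4] at h3
    · rintro ⟨h1, h2⟩
      exact ⟨_, hb _ h2⟩
  have hbb : ∀ b : Fin m × Fin D → Bool, ∀ q q' : ℤ × ℤ, lev q = lev q' →
      q.1 / 18 = q'.1 / 18 → b (bitOf D m q) = b (bitOf D m q') := by
    intro b q q' h1 h2
    unfold bitOf
    rw [h1, h2]
  by_cases hex : ∃ j : ℕ, j < m ∧ ¬ (f (0, 20 * (j : ℤ) + 6) ↔ f (0, 20 * ((j + 1 : ℕ) : ℤ) + 6))
  · obtain ⟨j, hj, hne'⟩ := hex
    refine ⟨⟨j, hj⟩, fun w => decide (f (18 * ((w.2 : ℕ) : ℤ) + 9, 20 * (j : ℤ) + 16) ↔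
      f (0, 20 * ((j + 1 : ℕ) : ℤ) + 6)), ?_⟩
    intro b hb w hw
    have hw1 : ((w.1 : ℕ) : ℤ) = j := by rw [hw]
    have hpt : IsPt D m (18 * ((w.2 : ℕ) : ℤ) + 9, 20 * (j : ℤ) + 16) := by
      unfold IsPt
      simp only
      have := w.2.isLt
      omega
    have hbit : bitOf D m (18 * ((w.2 : ℕ) : ℤ) + 9, 20 * (j : ℤ) + 16) = w := by
      unfold bitOf lev
      simp only
      have e1 : ¬ (20 * (j : ℤ) + 16) % 20 = 0 := by omega
      rw [if_neg e1]
      have e2 : (20 * (j : ℤ) + 16) / 20 = ((w.1 : ℕ) : ℤ) := by omega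
      have e3 : (18 * ((w.2 : ℕ) : ℤ) + 9) / 18 = ((w.2 : ℕ) : ℤ) := by omega
      rw [e2, e3]
      exact tog_val D m w
    rcases hc : b w with _ | _
    · have h1 := tog_false hD (hst b hb) (hbb b) hpt rfl (by rw [hbit]; exact hc)
      symm
      rw [decide_eq_false_iff_not]
      intro h2
      exact hne' (h1.symm.trans h2)
    · have h1 := tog_true hD (hst b hb) (hbb b) hpt rfl (by rw [hbit]; exact hc)
      symm
      rw [decide_eq_true_iff]
      exact h1
  · push Not at hex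
    refine ⟨⟨0, hm⟩, fun _ => false, ?_⟩
    intro b hb
    exfalso
    have hall : ∀ j : ℕ, j ≤ m → (f (0, 20 * (j : ℤ) + 6) ↔ f (0, 20 * ((0 : ℕ) : ℤ) + 6)) := by
      intro j
      induction j with
      | zero => exact fun _ => Iff.rfl
      | succ j ih => exact fun hj => (hex j (by omega)).symm.trans (ih (by omega))
    have hpt : ∀ v : pts D m, v ∈ S ↔ f (0, 20 * ((0 : ℕ) : ℤ) + 6) := by
      rintro ⟨⟨x, y⟩, hv⟩
      have h0 : (⟨(x, y), hv⟩ : pts D m) ∈ S ↔ f (x, y) :=
        ⟨fun h => ⟨hv, h⟩, fun ⟨_, h⟩ => h⟩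
      rw [h0]
      have h1 := mem_pts.1 hv
      have hy : (0 ≤ y ∧ y ≤ 20 * (m : ℤ) + 12) := ⟨h1.1.2.2.1, h1.1.2.2.2⟩
      by_cases h2 : y % 20 = 16
      · have e1 : y = 20 * (((y / 20).toNat : ℕ) : ℤ) + 16 := by omega
        rcases hc : b (bitOf D m (x, y)) with _ | _
        · exact (tog_false hD (hst b hb) (hbb b) h1 e1 hc).trans (hall _ (by omega))
        · exact (tog_true hD (hst b hb) (hbb b) h1 e1 hc).trans (hall _ (by omega))
      · exact (all_ring hD (hst b hb) (hbb b) (j := (y / 20).toNat) h1 h2 (by omega)).trans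
          (hall _ (by omega))
    obtain ⟨v, hv⟩ := hne
    apply hnu
    rw [Finset.eq_univ_iff_forall]
    intro u
    rw [hpt u, ← hpt v]
    exact hv

/-- Every closed set of points contains a ring. -/
theorem cyc_ge (b : Fin m × Fin D → Bool) : LongCycles (pts D m) (6 * D + 4) (sg D m b) := by
  classical
  intro S hne hb
  have hD : 0 < D := Nat.pos_of_ne_zero (NeZero.ne D)
  set f : ℤ × ℤ → Prop := fun q => ∃ h : q ∈ pts D m, (⟨q, h⟩ : pts D m) ∈ S with hf
  have hst : ∀ q, IsPt D m q → (f (nx D m (b (bitOf D m q)) q) ↔ f q) := by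
    intro q hq
    have hmap : S.image (sg D m b) = S :=
      Finset.eq_of_subset_of_card_le (Finset.image_subset_iff.2 hb)
        (by rw [Finset.card_image_of_injective _ (sg D m b).injective])
    have hinv : ∀ v ∈ S, (sg D m b)⁻¹ v ∈ S := by
      intro v hv
      rw [← hmap, Finset.mem_image] at hv
      obtain ⟨u, hu, rfl⟩ := hv
      simpa using hu
    constructor
    · rintro ⟨h1, h2⟩
      have h3 := hinv _ h2
      refine ⟨mem_pts.2 hq, ?_⟩
      have h4 : (sg D m b)⁻¹ ⟨nx D m (b (bitOf D m q)) q, h1⟩ = ⟨q, mem_pts.2 hq⟩ := by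
        rw [Equiv.Perm.inv_eq_iff_eq]
        rfl
      rwa [h4] at h3
    · rintro ⟨h1, h2⟩
      exact ⟨_, hb _ h2⟩
  have hbb : ∀ q q' : ℤ × ℤ, lev q = lev q' →
      q.1 / 18 = q'.1 / 18 → b (bitOf D m q) = b (bitOf D m q') := by
    intro q q' h1 h2
    unfold bitOf
    rw [h1, h2]
  obtain ⟨j, hj, hfj⟩ : ∃ j : ℕ, j ≤ m ∧ f (0, 20 * (j : ℤ) + 6) := by
    obtain ⟨⟨⟨x, y⟩, hv⟩, hvS⟩ := hne
    have h0 : f (x, y) := ⟨hv, hvS⟩
    have h1 := mem_pts.1 hv
    have hy : (0 ≤ y ∧ y ≤ 20 * (m : ℤ) + 12) := ⟨h1.1.2.2.1, h1.1.2.2.2⟩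
    by_cases h2 : y % 20 = 16
    · have e1 : y = 20 * (((y / 20).toNat : ℕ) : ℤ) + 16 := by omega
      rcases hc : b (bitOf D m (x, y)) with _ | _
      · exact ⟨(y / 20).toNat, by omega, (tog_false hD hst hbb h1 e1 hc).1 h0⟩
      · exact ⟨(y / 20).toNat + 1, by omega, (tog_true hD hst hbb h1 e1 hc).1 h0⟩
    · exact ⟨(y / 20).toNat, by omega,
        (all_ring hD hst hbb (j := (y / 20).toNat) h1 h2 (by omega)).1 h0⟩
  have hall : ∀ x y : ℤ, IsPt D m (x, y) → ¬ y % 20 = 16 → y / 20 = j → f (x, y) :=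
    fun x y h1 h2 h3 => (all_ring hD hst hbb h1 h2 h3).2 hfj
  set g : ℕ → ℤ × ℤ := fun i => if i < 3 * D + 1 then (6 * (i : ℤ), 20 * (j : ℤ) + 12)
    else if i < 6 * D + 2 then (6 * ((i : ℤ) - 3 * D - 1), 20 * (j : ℤ))
    else (if i = 6 * D + 2 then 0 else 18 * (D : ℤ), 20 * (j : ℤ) + 6) with hg
  have hcard : (range (6 * D + 4)).card ≤ (S.map ⟨Subtype.val, Subtype.val_injective⟩).card := by
    refine Finset.card_le_card_of_injOn g ?_ ?_
    · intro i hi
      rw [Finset.coe_range, Set.mem_Iio] at hi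
      have hpt : IsPt D m (g i) ∧ ¬ (g i).2 % 20 = 16 ∧ (g i).2 / 20 = j := by
        simp only [hg]
        split_ifs with h1 h2 h3
        · refine ⟨pt_top hj (by omega), ?_, ?_⟩ <;> simp only <;> omega
        · have e : (6 * ((i : ℤ) - 3 * D - 1)) = 6 * ((i - 3 * D - 1 : ℕ) : ℤ) := by omega
          rw [e]
          refine ⟨pt_bot hj (by omega), ?_, ?_⟩ <;> simp only <;> omega
        · refine ⟨pt_left hj, ?_, ?_⟩ <;> simp only <;> omega
        · refine ⟨pt_right hj, ?_, ?_⟩ <;> simp only <;> omega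
      obtain ⟨h1, h2⟩ := hall _ _ hpt.1 hpt.2.1 hpt.2.2
      rw [Finset.mem_coe, Finset.mem_map]
      exact ⟨_, h2, rfl⟩
    · intro i hi i' hi' he
      rw [Finset.coe_range, Set.mem_Iio] at hi hi'
      simp only [hg] at he
      split_ifs at he <;> simp only [Prod.mk.injEq] at he <;> omega
  rw [Finset.card_range, Finset.card_map] at hcard
  exact hcard

/-- The family of 2-factors. -/
noncomputable def sw : Sw (pts D m) ((bnd D m : ℕ) : ℝ) (6 * D + 4)
    (Prod.fst : Fin m × Fin D → Fin m) where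
  ctl v := bitOf D m v
  n0 v := ⟨nx D m false v, mem_pts.2 (nx_pt (mem_pts.1 v.2))⟩
  n1 v := ⟨nx D m true v, mem_pts.2 (nx_pt (mem_pts.1 v.2))⟩
  σ b := sg D m b
  hσ b u := by
    apply Subtype.ext
    rw [sg_val]
    cases b (bitOf D m u) <;> simp
  two b := sg_two D m b
  le b := le_of_eq (sg_len D m b)
  cyc b := cyc_ge D m b
  viol S h1 h2 := viol D m S h1 h2

theorem blk_card (j : Fin m) :
    D ≤ (univ.filter fun w : Fin m × Fin D => w.1 = j).card := by
  have h : (univ.filter fun w : Fin m × Fin D => w.1 = j) =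
      (univ : Finset (Fin D)).map ⟨fun i => (j, i), fun a b h => (Prod.mk.inj h).2⟩ := by
    ext w
    simp only [mem_filter, mem_univ, true_and, mem_map]
    constructor
    · intro h
      refine ⟨w.2, ?_⟩
      show (j, w.2) = w
      rw [← h]
    · rintro ⟨i, rfl⟩
      rfl
  rw [h, Finset.card_map, Finset.card_univ, Fintype.card_fin]

end inst

end Pool.Agent.T9h21.BC
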