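import Pool.Agent.T9h21.BC.Tour
import Pool.Agent.T9h21.BC.Contr

set_option autoImplicit false

/-!
The main theorem on branch-and-cut.
-/

namespace Pool.Agent.T9h21.BC

open Finset
open Pool.Agent.W888.UG (Tree SplitProof)

theorem card_pts (D m : ℕ) : (pts D m).card ≤ (m + 1) * (6 * D + 4) + m * D := by
  classical
  set A1 : Finset (ℤ × ℤ) := ((range (m + 1)) ×ˢ (range (3 * D + 1))).image
    fun a : ℕ × ℕ => ((6 * (a.2 : ℤ), 20 * (a.1 : ℤ) + 12) : ℤ × ℤ) with hA1
  set A2 : Finset (ℤ × ℤ) := ((range (m + 1)) ×ˢ (range (3 * D + 1))).image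
    fun a : ℕ × ℕ => ((6 * (a.2 : ℤ), 20 * (a.1 : ℤ)) : ℤ × ℤ) with hA2
  set A3 : Finset (ℤ × ℤ) := (range (m + 1)).image
    fun a : ℕ => ((0, 20 * (a : ℤ) + 6) : ℤ × ℤ) with hA3
  set A4 : Finset (ℤ × ℤ) := (range (m + 1)).image
    fun a : ℕ => ((18 * (D : ℤ), 20 * (a : ℤ) + 6) : ℤ × ℤ) with hA4
  set A5 : Finset (ℤ × ℤ) := ((range m) ×ˢ (range D)).image
    fun a : ℕ × ℕ => ((18 * (a.2 : ℤ) + 9, 20 * (a.1 : ℤ) + 16) : ℤ × ℤ) with hA5
  have c1 : A1.card ≤ (m + 1) * (3 * D + 1) := by
    refine Finset.card_image_le.trans ?_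
    rw [Finset.card_product, Finset.card_range, Finset.card_range]
  have c2 : A2.card ≤ (m + 1) * (3 * D + 1) := by
    refine Finset.card_image_le.trans ?_
    rw [Finset.card_product, Finset.card_range, Finset.card_range]
  have c3 : A3.card ≤ m + 1 := by
    refine Finset.card_image_le.trans ?_
    rw [Finset.card_range]
  have c4 : A4.card ≤ m + 1 := by
    refine Finset.card_image_le.trans ?_
    rw [Finset.card_range]
  have c5 : A5.card ≤ m * D := by
    refine Finset.card_image_le.trans ?_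
    rw [Finset.card_product, Finset.card_range, Finset.card_range]
  have hsub : pts D m ⊆ A1 ∪ (A2 ∪ (A3 ∪ (A4 ∪ A5))) := by
    rintro ⟨x, y⟩ hq
    have h := mem_pts.1 hq
    have hb : 0 ≤ x ∧ x ≤ 18 * (D : ℤ) ∧ 0 ≤ y ∧ y ≤ 20 * (m : ℤ) + 12 := h.1
    by_cases h1 : y % 20 = 16
    · have h2 := tog_facts h h1
      rw [mem_union, mem_union, mem_union, mem_union]
      right; right; right; right
      rw [hA5, mem_image]
      refine ⟨((y / 20).toNat, (x / 18).toNat), ?_, ?_⟩
      · rw [mem_product, mem_range, mem_range]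
        simp only
        omega
      · simp only [Prod.mk.injEq]
        omega
    · obtain ⟨h2, h3⟩ := ring_facts h h1
      rcases h3 with h3 | h3 | h3
      · rw [mem_union, mem_union]
        right; left
        rw [hA2, mem_image]
        refine ⟨((y / 20).toNat, (x / 6).toNat), ?_, ?_⟩
        · rw [mem_product, mem_range, mem_range]
          simp only
          omega
        · simp only [Prod.mk.injEq]
          omega
      · have hx : x = 0 ∨ x = 18 * (D : ℤ) := by
          unfold IsPt at h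
          simp only at h
          omega
        rcases hx with hx | hx
        · rw [mem_union, mem_union, mem_union]
          right; right; left
          rw [hA3, mem_image]
          refine ⟨(y / 20).toNat, ?_, ?_⟩
          · rw [mem_range]
            omega
          · simp only [Prod.mk.injEq]
            omega
        · rw [mem_union, mem_union, mem_union, mem_union]
          right; right; right; left
          rw [hA4, mem_image]
          refine ⟨(y / 20).toNat, ?_, ?_⟩
          · rw [mem_range]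
            omega
          · simp only [Prod.mk.injEq]
            omega
      · rw [mem_union]
        left
        rw [hA1, mem_image]
        refine ⟨((y / 20).toNat, (x / 6).toNat), ?_, ?_⟩
        · rw [mem_product, mem_range, mem_range]
          simp only
          omega
        · simp only [Prod.mk.injEq]
          omega
  have e1 := Finset.card_le_card hsub
  have e2 := Finset.card_union_le A1 (A2 ∪ (A3 ∪ (A4 ∪ A5)))
  have e3 := Finset.card_union_le A2 (A3 ∪ (A4 ∪ A5))
  have e4 := Finset.card_union_le A3 (A4 ∪ A5)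
  have e5 := Finset.card_union_le A4 A5
  have e6 : (m + 1) * (6 * D + 4) = 2 * ((m + 1) * (3 * D + 1)) + 2 * (m + 1) := by ring
  omega

theorem bnd_le (D m : ℕ) (hD : 1 ≤ D) (hm : 1 ≤ m) : bnd D m ≤ 126 * m * D := by
  have h1 : bnd D m ≤ ∑ q ∈ pts D m, 6 := by
    unfold bnd
    refine Finset.sum_le_sum fun q _ => ?_
    split_ifs <;> norm_num
  rw [Finset.sum_const, smul_eq_mul] at h1
  have h2 := card_pts D m
  have h3 : (m + 1) * (6 * D + 4) ≤ (2 * m) * (10 * D) :=
    Nat.mul_le_mul (by omega) (by omega)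
  have h4 : (2 * m) * (10 * D) = 20 * (m * D) := by ring
  have h5 : 126 * m * D = 126 * (m * D) := by ring
  omega

/-- The main theorem. -/
theorem main (D m : ℕ) (hD : 1 ≤ D) (hm : 1 ≤ m) :
    ∃ (P : Finset (ℤ × ℤ)) (B : ℕ), P.card ≤ (m + 1) * (6 * D + 4) + m * D ∧
      (∀ q ∈ P, 0 ≤ q.1 ∧ q.1 ≤ 18 * D ∧ 0 ≤ q.2 ∧ q.2 ≤ 20 * m + 12) ∧
      B ≤ 126 * m * D ∧
      (∀ s : Equiv.Perm P, IsTour P s → (B : ℝ) + 2 / 3 * m ≤ len P s) ∧
      (∀ N t r : ℕ,
        (∀ F : List (Set (P → P → ℝ)), (∀ C ∈ F, Convex ℝ C) →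
          (∀ C ∈ F, ∀ x ∈ C, x ∉ (splitClosure P)^[r] (Relax P B (6 * D + 4) N t)) →
          (∀ s : Equiv.Perm P, IsTwoFactor P s → len P s ≤ B → LongCycles P (6 * D + 4) s →
            ∃ C ∈ F, inc P s ∈ C) →
          Real.exp (((D : ℝ) - 4 * r - 16 * t - 16 * Nat.log 2 N - 16) / 32) ≤ F.length) ∧
        (∀ T : Tree P P,
          T.Proves ((splitClosure P)^[r] (Relax P B (6 * D + 4) N t)) Set.univ →
          Real.exp (((D : ℝ) - 4 * r - 16 * t - 16 * Nat.log 2 N - 16) / 32) ≤ T.leaves) ∧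
        (∀ l, SplitProof ((splitClosure P)^[r] (Relax P B (6 * D + 4) N t)) l Set.univ →
          Real.exp (((D : ℝ) - 4 * r - 16 * t - 16 * Nat.log 2 N - 16) / 32) ≤
            2 * l.length + 1)) ∧
      ∃ T : Tree P P, T.Proves (Relax P B 0 1 0) Set.univ := by
  have : NeZero D := ⟨by omega⟩
  have : NeZero m := ⟨by omega⟩
  have : Nonempty (Fin m × Fin D) := ⟨(⟨0, by omega⟩, ⟨0, by omega⟩)⟩
  refine ⟨pts D m, bnd D m, card_pts D m, ?_, bnd_le D m hD hm, ?_, ?_, ?_⟩
  · intro q hq
    have h := mem_pts.1 hq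
    exact ⟨h.1.1, h.1.2.1, h.1.2.2.1, h.1.2.2.2⟩
  · intro s hs
    exact tour_len s hs
  · intro N t r
    refine ⟨?_, ?_, ?_⟩
    · intro F h1 h2 h3
      exact (sw D m).cover D N t r (blk_card D m) F h1 h2 h3
    · intro T hT
      exact (sw D m).tree D N t r (blk_card D m) T hT
    · intro l hl
      exact (sw D m).split D N t r (blk_card D m) l hl
  · refine exists_tree (P := pts D m) _ 0 fun s hs => ?_
    have h1 := tour_len s hs
    have h2 : (0 : ℝ) < 2 / 3 * m := by
      have : (1 : ℝ) ≤ m := by exact_mod_cast hm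
      linarith
    linarith

end Pool.Agent.T9h21.BC
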