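import Pool.Agent.T9h21.BC.Amal
import Pool.Agent.TH197.J1545b

/-!
# The pseudo-model: soundness of the calculus
-/

set_option autoImplicit false

namespace Pool.Agent.T9h21.BC

open Pool.Agent.TH636.BC
open Pool.Agent.TH672 (Fm LogK ReplK Sw)
open Pool.Agent.TH672.Form (ren)

theorem agOn_mono {m : ℕ} {F G : ℕ → Prop} {s t : St} (h : AgOn m F s t)
    (hG : ∀ i < m, G i → F i) : AgOn m G s t :=
  ⟨fun i hi h1 => h.1 i hi (hG i hi h1),
    fun i hi j hj h1 h2 => h.2 i hi j hj (hG i hi h1) (hG j hj h2)⟩

theorem agOn_symm {m : ℕ} {F : ℕ → Prop} {s t : St} (h : AgOn m F s t) : AgOn m F t s :=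
  ⟨fun i hi h1 => (h.1 i hi h1).symm, fun i hi j hj h1 h2 => (h.2 i hi j hj h1 h2).symm⟩

theorem agOn_trans {m : ℕ} {F : ℕ → Prop} {s t r : St} (h : AgOn m F s t) (h' : AgOn m F t r) :
    AgOn m F s r :=
  ⟨fun i hi h1 => (h.1 i hi h1).trans (h'.1 i hi h1),
    fun i hi j hj h1 h2 => (h.2 i hi j hj h1 h2).trans (h'.2 i hi j hj h1 h2)⟩

theorem agr_iff {m x : ℕ} {s t : St} : Agr m x s t ↔ AgOn m (fun i => i ≠ x) s t := Iff.rfl

/-- Amalgamation of two states. -/
theorem amalg {m : ℕ} {s t : St} (hs : Ok m s) (ht : Ok m t) {x : ℕ} {F : ℕ → Prop}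
    (hF : ¬ F x) (hst : AgOn m F s t) :
    ∃ r, Ok m r ∧ Agr m x r s ∧ AgOn m (fun i => F i ∨ i = x) r t := by
  by_cases hx : x < m
  swap
  · refine ⟨s, hs, agr_iff.2 ⟨fun _ _ _ => rfl, fun _ _ _ _ _ _ => rfl⟩, agOn_mono hst ?_⟩
    rintro i hi (h | h)
    · exact h
    · omega
  have hFx : ∀ i, F i → i ≠ x := fun i hi e => hF (e ▸ hi)
  rcases hv : t.v x with a | h
  · -- a number
    refine ⟨setN s x a, ok_setN hs x a, agr_setN m s x a, fun i hi h => ?_,
      fun i hi j hj h1 h2 => ?_⟩
    · by_cases h1 : i = x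
      · rw [h1, hv]; simp [setN]
      · rcases h with h | h
        · simp only [setN, if_neg h1]; exact hst.1 i hi h
        · exact absurd h h1
    · by_cases h3 : i = x
      · simp only [setN, h3, true_or, if_true]
        rw [ht.norm x hx j hj (Or.inl (by rw [hv]; rfl))]
      · by_cases h4 : j = x
        · simp only [setN, h4, or_true, if_true]
          rw [ht.norm i hi x hx (Or.inr (by rw [hv]; rfl))]
        · simp only [setN, h3, h4, or_self, if_false]
          exact hst.2 i hi j hj (h1.resolve_right h3) (h2.resolve_right h4)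
  · by_cases hj : ∃ j < m, F j ∧ (t.v j).isRight ∧ t.c x j = 0
    · -- an old node
      obtain ⟨j, hjm, hjF, hjr, hj0⟩ := hj
      have hxr : (t.v x).isRight := by rw [hv]; rfl
      refine ⟨sub (ren x j) s, ok_sub ?_ hs, agr_iff.2 ⟨?_, ?_⟩, ?_, ?_⟩
      · intro i hi
        simp only [ren]; split_ifs <;> assumption
      · intro i _ hi
        simp [sub, ren, hi]
      · intro i _ k _ hi hk
        simp [sub, ren, hi, hk]
      · intro i hi h1
        by_cases h2 : i = x
        · subst h2
          simp only [sub, ren, if_true]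
          rw [hst.1 j hjm hjF]
          exact (ht.val i hx j hjm hxr hjr hj0).symm
        · simp only [sub, ren, if_neg h2]
          exact hst.1 i hi (h1.resolve_right h2)
      · have hc1 : ∀ k < m, t.c x k = t.c j k := fun k hk => ht.cong x hx j hjm k hk hxr hjr hj0
        have hc2 : ∀ k < m, t.c k x = t.c k j := fun k hk => by
          rw [ht.symm k hk x hx, ht.symm k hk j hjm]; exact hc1 k hk
        intro i hi k hk h1 h2
        by_cases h3 : i = x
        · by_cases h4 : k = x
          · subst h3; subst h4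
            simp only [sub, ren, if_true]
            rw [hs.refl j hjm, ht.refl k hk]
          · subst h3
            simp only [sub, ren, if_true, if_neg h4]
            rw [hst.2 j hjm k hk hjF (h2.resolve_right h4), hc1 k hk]
        · by_cases h4 : k = x
          · subst h4
            simp only [sub, ren, if_true, if_neg h3]
            rw [hst.2 i hi j hjm (h1.resolve_right h3) hjF, hc2 i hi]
          · simp only [sub, ren, if_neg h3, if_neg h4]
            exact hst.2 i hi k hk (h1.resolve_right h3) (h2.resolve_right h4)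
    · -- a new node
      push Not at hj
      obtain ⟨r, h1, h2, h3, h4, h5⟩ := exists_node hs ht hx hF hst hv hj
      refine ⟨r, h1, h2, fun i hi h6 => ?_, ?_⟩
      · by_cases h7 : i = x
        · rw [h7, h3, hv]
        · rw [h2.1 i hi h7]
          exact hst.1 i hi (h6.resolve_right h7)
      · have hxj : ∀ k < m, F k → r.c x k = t.c x k := by
          intro k hk hkF
          rcases hk1 : s.v k with a | b
          · have hl : (s.v k).isLeft := by rw [hk1]; rfl
            rw [h1.norm x hx k hk (Or.inr (by rw [h2.1 k hk (hFx k hkF)]; exact hl)),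
              ht.norm x hx k hk (Or.inr (by rw [← hst.1 k hk hkF]; exact hl))]
          · exact h5 k hk hkF (by rw [hk1]; rfl)
        intro i hi k hk h6 h7
        by_cases h8 : i = x
        · subst h8
          by_cases h9 : k = i
          · subst h9
            rw [h1.refl k hk, ht.refl k hk]
          · exact hxj k hk (h7.resolve_right h9)
        · by_cases h9 : k = x
          · subst h9
            rw [h1.symm i hi k hk, ht.symm i hi k hk]
            exact hxj i hi (h6.resolve_right h8)
          · rw [h2.2 i hi k hk h8 h9]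
            exact hst.2 i hi k hk (h6.resolve_right h8) (h7.resolve_right h9)

/-! ### coincidence -/

theorem tru_congr {m : ℕ} : ∀ {φ : Fml}, Vlt m φ → ∀ {s t : St}, Ok m s → Ok m t →
    AgOn m (fun i => φ.Free i) s t → (Tru m φ s ↔ Tru m φ t) := by
  intro φ
  induction φ with
  | bot => intro _ s t _ _ _; rfl
  | eq x y =>
    intro hV s t _ _ h
    simp only [Tru, Eqs]
    rw [h.1 x hV.1 (Or.inl rfl), h.1 y hV.2 (Or.inr rfl),
      h.2 x hV.1 y hV.2 (Or.inl rfl) (Or.inr rfl)]
  | zero x =>
    intro hV s t _ _ h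
    simp only [Tru]
    rw [h.1 x hV rfl]
  | succ x y =>
    intro hV s t _ _ h
    simp only [Tru, SuccS, Eqs]
    rw [h.1 x hV.1 (Or.inl rfl), h.1 y hV.2 (Or.inr rfl),
      h.2 x hV.1 y hV.2 (Or.inl rfl) (Or.inr rfl)]
  | add x y z =>
    intro hV s t _ _ h
    simp only [Tru, AddS, Eqs]
    rw [h.1 x hV.1 (Or.inl rfl), h.1 y hV.2.1 (Or.inr (Or.inl rfl)),
      h.1 z hV.2.2 (Or.inr (Or.inr rfl)),
      h.2 x hV.1 z hV.2.2 (Or.inl rfl) (Or.inr (Or.inr rfl)),
      h.2 y hV.2.1 z hV.2.2 (Or.inr (Or.inl rfl)) (Or.inr (Or.inr rfl))]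
  | mul x y z =>
    intro hV s t _ _ h
    simp only [Tru, MulS, Eqs]
    rw [h.1 x hV.1 (Or.inl rfl), h.1 y hV.2.1 (Or.inr (Or.inl rfl)),
      h.1 z hV.2.2 (Or.inr (Or.inr rfl)),
      h.2 x hV.1 z hV.2.2 (Or.inl rfl) (Or.inr (Or.inr rfl)),
      h.2 y hV.2.1 z hV.2.2 (Or.inr (Or.inl rfl)) (Or.inr (Or.inr rfl))]
  | op i a b c d =>
    intro hV s t _ _ h
    simp only [Tru, OpS]
    rw [h.1 a hV.1 (Or.inl rfl), h.1 b hV.2.1 (Or.inr (Or.inl rfl)),
      h.1 c hV.2.2.1 (Or.inr (Or.inr (Or.inl rfl))),
      h.2 a hV.1 b hV.2.1 (Or.inl rfl) (Or.inr (Or.inl rfl))]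
  | imp φ ψ ih ih' =>
    intro hV s t hs ht h
    simp only [Tru]
    rw [ih hV.1 hs ht (agOn_mono h fun i _ hi => Or.inl hi),
      ih' hV.2 hs ht (agOn_mono h fun i _ hi => Or.inr hi)]
  | all x φ ih =>
    intro hV
    have key : ∀ {s t : St}, Ok m s → Ok m t → AgOn m (fun i => (Fm.all x φ).Free i) s t →
        Tru m (.all x φ) s → Tru m (.all x φ) t := by
      intro s t hs ht h H t' ht' hA
      have hF : ¬ (fun i => (Fm.all x φ).Free i) x := fun h1 => h1.1 rfl
      have h1 : AgOn m (fun i => (Fm.all x φ).Free i) s t' :=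
        agOn_trans h (agOn_symm (agOn_mono hA fun i _ hi => hi.1))
      obtain ⟨r, hr, hrs, hrt⟩ := amalg hs ht' hF h1
      refine (ih hV.2 hr ht' (agOn_mono hrt fun i _ hi => ?_)).1 (H r hr hrs)
      by_cases hix : i = x
      · exact Or.inr hix
      · exact Or.inl ⟨hix, hi⟩
    intro s t hs ht h
    exact ⟨key hs ht h, key ht hs (agOn_symm h)⟩

/-- Changing the value of a variable that is not free. -/
theorem tru_agr {m x : ℕ} {φ : Fml} (hV : Vlt m φ) (hx : ¬ φ.Free x) {s t : St} (hs : Ok m s)
    (ht : Ok m t) (h : Agr m x s t) : Tru m φ s ↔ Tru m φ t :=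
  tru_congr hV hs ht (agOn_mono h fun _ _ hi e => hx (e ▸ hi))

/-! ### substitution -/

theorem ren_lt {m x y : ℕ} (hy : y < m) : ∀ i < m, ren x y i < m := by
  intro i hi
  simp only [ren]; split_ifs <;> assumption

theorem agr_sub (m x y : ℕ) (s : St) : Agr m x (sub (ren x y) s) s :=
  ⟨fun i _ hi => by simp [sub, ren, hi], fun i _ j _ hi hj => by simp [sub, ren, hi, hj]⟩

theorem subst_self (x : ℕ) : ∀ φ : Fml, φ.subst x x = φ := by
  have hr : ∀ u, ren x x u = u := fun u => by simp only [ren]; split_ifs with h <;> simp [h]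
  intro φ
  induction φ with
  | imp φ ψ ih ih' => simp only [Fm.subst, ih, ih']
  | all u φ ih => simp only [Fm.subst, ih, ite_self]
  | _ => simp only [Fm.subst, hr]

theorem sub_self (x : ℕ) (s : St) : sub (ren x x) s = s := by
  have hr : ∀ u, ren x x u = u := fun u => by simp only [ren]; split_ifs with h <;> simp [h]
  simp only [sub, hr]

theorem tru_subst {m x y : ℕ} (hx : x < m) (hy : y < m) : ∀ {φ : Fml}, Vlt m φ →
    φ.FreeFor y x → ∀ {s : St}, Ok m s →
    (Tru m (φ.subst x y) s ↔ Tru m φ (sub (ren x y) s)) := by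
  intro φ
  by_cases hxy : x = y
  · subst hxy
    intro _ _ s _
    rw [subst_self, sub_self]
  induction φ with
  | imp φ ψ ih ih' =>
    intro hV hf s hs
    simp only [Fm.subst, Tru]
    rw [ih hV.1 hf.1 hs, ih' hV.2 hf.2 hs]
  | all u φ ih =>
    intro hV hf s hs
    have hsub := ok_sub (ren_lt (x := x) hy) hs
    by_cases hu : u = x
    · subst hu
      simp only [Fm.subst, if_true]
      exact (tru_agr hV (fun h => h.1 rfl) hsub hs (agr_sub m u y s)).symm
    rcases hf with hf | hf | ⟨huy, hf⟩
    · exact absurd hf hu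
    · have h1 : (Fm.all u φ).subst x y = Fm.all u φ :=
        Pool.Agent.TH197.J1545.subst_id (fun h => hf h.2)
      rw [h1]
      exact (tru_agr hV (fun h => hf h.2) hsub hs (agr_sub m x y s)).symm
    · simp only [Fm.subst, if_neg hu]
      constructor
      · intro H t' ht' hA
        have h1 : AgOn m (fun i => i ≠ u ∧ i ≠ x) s t' :=
          agOn_trans (agOn_symm (agOn_mono (agr_sub m x y s) fun i _ hi => hi.2))
            (agOn_symm (agOn_mono hA fun i _ hi => hi.1))
        obtain ⟨r, hr, hrs, hrt⟩ := amalg hs ht' (fun h : u ≠ u ∧ u ≠ x => h.1 rfl) h1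
        have h2 := (ih hV.2 hf hr).1 (H r hr hrs)
        have h3 : AgOn m (fun i => i ≠ x) r t' := agOn_mono hrt fun i _ hi => by
          by_cases h4 : i = u
          · exact Or.inr h4
          · exact Or.inl ⟨h4, hi⟩
        -- in `t'` the values of `x` and `y` are equal
        have hv : t'.v x = t'.v y := by
          rw [hA.1 x hx (Ne.symm hu), hA.1 y hy (Ne.symm huy)]
          simp [sub, ren, Ne.symm hxy]
        have hc : t'.c x y = 0 := by
          rw [hA.2 x hx y hy (Ne.symm hu) (Ne.symm huy)]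
          simp only [sub, ren, if_true, if_neg (Ne.symm hxy)]
          exact hs.refl y hy
        have hcc : ∀ k < m, t'.c x k = t'.c y k := by
          intro k hk
          rcases hv1 : t'.v y with a | b
          · rw [ht'.norm x hx k hk (Or.inl (by rw [hv, hv1]; rfl)),
              ht'.norm y hy k hk (Or.inl (by rw [hv1]; rfl))]
          · exact ht'.cong x hx y hy k hk (by rw [hv, hv1]; rfl) (by rw [hv1]; rfl) hc
        have hcc' : ∀ k < m, t'.c k x = t'.c k y := fun k hk => by
          rw [ht'.symm k hk x hx, ht'.symm k hk y hy]; exact hcc k hk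
        refine (tru_congr hV.2 (ok_sub (ren_lt hy) hr) ht' ?_).1 h2
        refine agOn_mono (F := fun _ => True) ⟨fun i hi _ => ?_, fun i hi k hk _ _ => ?_⟩
          fun _ _ _ => trivial
        · by_cases h4 : i = x
          · simp only [sub, ren, h4, if_true]
            rw [hv]; exact h3.1 y hy (Ne.symm hxy)
          · simp only [sub, ren, if_neg h4]
            exact h3.1 i hi h4
        · by_cases h4 : i = x
          · by_cases h5 : k = x
            · simp only [sub, ren, h4, h5, if_true]
              rw [hr.refl y hy, ht'.refl x hx]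
            · simp only [sub, ren, h4, h5, if_true, if_false]
              rw [hcc k hk]
              exact h3.2 y hy k hk (Ne.symm hxy) h5
          · by_cases h5 : k = x
            · simp only [sub, ren, h4, h5, if_true, if_false]
              rw [hcc' i hi]
              exact h3.2 i hi y hy h4 (Ne.symm hxy)
            · simp only [sub, ren, h4, h5, if_false]
              exact h3.2 i hi k hk h4 h5
      · intro H t ht hA
        refine (ih hV.2 hf ht).2 (H _ (ok_sub (ren_lt hy) ht) ⟨?_, ?_⟩)
        · intro i hi hiu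
          simp only [sub]
          refine hA.1 _ (ren_lt hy i hi) ?_
          simp only [ren]; split_ifs
          · exact Ne.symm huy
          · exact hiu
        · intro i hi k hk hiu hku
          simp only [sub]
          refine hA.2 _ (ren_lt hy i hi) _ (ren_lt hy k hk) ?_ ?_
          · simp only [ren]; split_ifs
            · exact Ne.symm huy
            · exact hiu
          · simp only [ren]; split_ifs
            · exact Ne.symm huy
            · exact hku
  | _ => intro _ _ s _; exact Iff.rfl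

theorem lt_of_subst {m x y : ℕ} : ∀ {φ : Fml}, φ.Free x → Vlt m (φ.subst x y) → y < m := by
  intro φ
  induction φ with
  | bot => intro h _; exact absurd h id
  | eq u v =>
    intro h hV
    simp only [Fm.subst, Vlt, ren] at hV
    rcases h with h | h <;> subst h <;> simp at hV <;> tauto
  | zero u =>
    intro h hV
    simp only [Fm.subst, Vlt, ren] at hV
    have h : x = u := h
    subst h; simpa using hV
  | succ u v =>
    intro h hV
    simp only [Fm.subst, Vlt, ren] at hV
    rcases h with h | h <;> subst h <;> simp at hV <;> tauto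
  | add u v w =>
    intro h hV
    simp only [Fm.subst, Vlt, ren] at hV
    rcases h with h | h | h <;> subst h <;> simp at hV <;> tauto
  | mul u v w =>
    intro h hV
    simp only [Fm.subst, Vlt, ren] at hV
    rcases h with h | h | h <;> subst h <;> simp at hV <;> tauto
  | op i a b c d =>
    intro h hV
    simp only [Fm.subst, Vlt, ren] at hV
    rcases h with h | h | h | h <;> subst h <;> simp at hV <;> tauto
  | imp φ ψ ih ih' =>
    intro h hV
    rcases h with h | h
    · exact ih h hV.1
    · exact ih' h hV.2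
  | all u φ ih =>
    intro h hV
    simp only [Fm.subst, if_neg (Ne.symm h.1)] at hV
    exact ih h.2 hV.2

/-! ### logical axioms -/

theorem sw_v {x y u u' : ℕ} {s : St} (hxy : Eqs s x y) (h : Sw x y u u') :
    s.v u' = s.v u := by
  rcases h with h | ⟨h, h'⟩
  · rw [h]
  · rw [h, h', hxy.1]

theorem sw_c {m x y : ℕ} (hx : x < m) (hy : y < m) {s : St} (hs : Ok m s) (hxy : Eqs s x y)
    {u u' w w' : ℕ} (hu : u < m) (hw : w < m) (h1 : Sw x y u u') (h2 : Sw x y w w') :
    s.c u' w' = s.c u w := by
  have hcc : ∀ k < m, s.c x k = s.c y k := by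
    intro k hk
    rcases hv1 : s.v y with a | b
    · rw [hs.norm x hx k hk (Or.inl (by rw [hxy.1, hv1]; rfl)),
        hs.norm y hy k hk (Or.inl (by rw [hv1]; rfl))]
    · exact hs.cong x hx y hy k hk (by rw [hxy.1, hv1]; rfl) (by rw [hv1]; rfl) hxy.2
  have hcc' : ∀ k < m, s.c k x = s.c k y := fun k hk => by
    rw [hs.symm k hk x hx, hs.symm k hk y hy]; exact hcc k hk
  have hu' : u' < m := by rcases h1 with h | ⟨h, h'⟩ <;> omega
  have e1 : s.c u' w' = s.c u' w := by
    rcases h2 with h | ⟨h, h'⟩
    · rw [h]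
    · rw [h, h', hcc' u' hu']
  rw [e1]
  rcases h1 with h | ⟨h, h'⟩
  · rw [h]
  · rw [h, h', hcc w hw]

theorem tru_log {m : ℕ} {φ : Fml} (h : LogK φ) (hV : Vlt m φ) : Tr1 m φ := by
  intro s hs
  cases h with
  | k φ ψ => intro h _; exact h
  | s φ ψ χ => intro h h' h''; exact h h'' (h' h'')
  | dn φ => intro h; by_contra h'; exact h h'
  | inst x y φ hf =>
    intro h
    have hx : x < m := hV.1.1
    by_cases hfx : φ.Free x
    · have hy : y < m := lt_of_subst hfx hV.2
      exact (tru_subst hx hy hV.1.2 hf hs).2 (h _ (ok_sub (ren_lt hy) hs) (agr_sub m x y s))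
    · rw [Pool.Agent.TH197.J1545.subst_id hfx]
      exact h s hs ⟨fun _ _ _ => rfl, fun _ _ _ _ _ _ => rfl⟩
  | dist x φ ψ hf =>
    intro h h' t ht hA
    exact h t ht hA ((tru_agr hV.2.1 hf ht hs hA).2 h')
  | refl x => exact ⟨rfl, hs.refl x hV.1⟩
  | repl x y φ ψ hr =>
    intro e
    have e' : Eqs s x y := e
    have hx : x < m := hV.1.1
    have hy : y < m := hV.1.2
    have V1 := hV.2.1
    cases hr with
    | eq h1 h2 =>
      simp only [Tru, Eqs]
      rw [sw_v e' h1, sw_v e' h2, sw_c hx hy hs e' V1.1 V1.2 h1 h2]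
      exact id
    | zero h1 => 
      simp only [Tru]
      rw [sw_v e' h1]
      exact id
    | succ h1 h2 => 
      simp only [Tru, SuccS, Eqs]
      rw [sw_v e' h1, sw_v e' h2, sw_c hx hy hs e' V1.1 V1.2 h1 h2]
      exact id
    | add h1 h2 h3 => 
      simp only [Tru, AddS, Eqs]
      rw [sw_v e' h1, sw_v e' h2, sw_v e' h3,
        sw_c hx hy hs e' V1.1 V1.2.2 h1 h3, sw_c hx hy hs e' V1.2.1 V1.2.2 h2 h3]
      exact id
    | mul h1 h2 h3 => 
      simp only [Tru, MulS, Eqs]
      rw [sw_v e' h1, sw_v e' h2, sw_v e' h3,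
        sw_c hx hy hs e' V1.1 V1.2.2 h1 h3, sw_c hx hy hs e' V1.2.1 V1.2.2 h2 h3]
      exact id
    | op h1 h2 h3 h4 =>
      simp only [Tru, OpS]
      rw [sw_v e' h1, sw_v e' h2, sw_v e' h3,
        sw_c hx hy hs e' V1.1 V1.2.1 h1 h2]
      exact id

/-- Soundness of the calculus. -/
theorem soundS : SoundS := by
  intro m Γ π
  induction π with
  | nil => intro _ _ _ φ h; simp at h
  | cons ψ π ih =>
    intro h hV hΓ
    obtain ⟨h1, h2⟩ := h
    have ih' := ih h1 (fun φ hφ => hV φ (List.mem_cons_of_mem _ hφ)) hΓ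
    intro φ hφ
    rcases List.mem_cons.mp hφ with rfl | hφ
    · have hVφ := hV _ List.mem_cons_self
      rcases h2 with h2 | h2 | ⟨χ, h3, h4⟩ | ⟨χ, h3, x, rfl⟩
      · exact hΓ _ h2 hVφ
      · exact tru_log h2 hVφ
      · intro s hs
        exact ih' _ h4 s hs (ih' _ h3 s hs)
      · intro s hs t ht _
        exact ih' _ h3 t ht
    · exact ih' φ hφ

end Pool.Agent.T9h21.BC
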