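import Mathlib

set_option autoImplicit false
set_option linter.unusedSectionVars false

/-!
Functions of low degree on a product space of bits: a function of degree at most `t` has large
influences at few coordinates only, so its square cannot concentrate at many coordinates.
-/

namespace Pool.Agent.T9h21.BC

open Finset

section pw

variable {W : Type} [Fintype W] [DecidableEq W]

/-- The probability of the outcome `b` for independent bits with probabilities `p w` of `true`. -/
noncomputable def pw (p : W → ℝ) (b : W → Bool) : ℝ := ∏ w, if b w then p w else 1 - p w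

theorem pw_nonneg {p : W → ℝ} (h0 : ∀ w, 0 ≤ p w) (h1 : ∀ w, p w ≤ 1) (b : W → Bool) :
    0 ≤ pw p b := by
  refine Finset.prod_nonneg fun w _ => ?_
  split_ifs
  · exact h0 w
  · linarith [h1 w]

theorem pw_prod (p : W → ℝ) (f : W → Bool → ℝ) :
    ∑ b, pw p b * ∏ w, f w (b w) = ∏ w, (p w * f w true + (1 - p w) * f w false) := by
  have h := Finset.prod_univ_sum (fun _ : W => (Finset.univ : Finset Bool))
    (fun w c => (if c then p w else 1 - p w) * f w c)
  rw [Fintype.piFinset_univ] at h
  have h1 : ∀ w, ∑ c : Bool, (if c then p w else 1 - p w) * f w c =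
      p w * f w true + (1 - p w) * f w false := by
    intro w
    rw [Fintype.sum_bool]
    simp
  simp only [h1] at h
  rw [h]
  refine Finset.sum_congr rfl fun b _ => ?_
  rw [pw, ← Finset.prod_mul_distrib]

theorem pw_sum (p : W → ℝ) : ∑ b, pw p b = 1 := by
  have h := pw_prod p (fun _ _ => 1)
  simpa using h

/-- take the bits of `U` from `b` and the others from `b'` -/
def mix (U : Finset W) (b b' : W → Bool) : W → Bool := fun w => if w ∈ U then b w else b' w

theorem mix_mix (U : Finset W) (b b' : W → Bool) : mix U (mix U b b') (mix U b' b) = b := by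
  funext w
  unfold mix
  split_ifs <;> rfl

theorem pw_mix (p : W → ℝ) (U : Finset W) (G : (W → Bool) → ℝ) :
    ∑ b, ∑ b', pw p b * pw p b' * G (mix U b b') = ∑ b, pw p b * G b := by
  have h1 : ∑ b, ∑ b', pw p b * pw p b' * G (mix U b b') =
      ∑ x : (W → Bool) × (W → Bool), pw p x.1 * pw p x.2 * G (mix U x.1 x.2) := by
    rw [Fintype.sum_prod_type]
  have h2 : ∑ x : (W → Bool) × (W → Bool), pw p x.1 * pw p x.2 * G x.1 = ∑ b, pw p b * G b := by
    rw [Fintype.sum_prod_type]
    refine Finset.sum_congr rfl fun b _ => ?_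
    have : ∀ b', pw p b * pw p b' * G b = (pw p b * G b) * pw p b' := fun b' => by ring
    simp only [this]
    rw [← Finset.mul_sum, pw_sum, mul_one]
  rw [h1, ← h2]
  let e : (W → Bool) × (W → Bool) ≃ (W → Bool) × (W → Bool) :=
    { toFun := fun x => (mix U x.1 x.2, mix U x.2 x.1)
      invFun := fun x => (mix U x.1 x.2, mix U x.2 x.1)
      left_inv := fun x => by
        ext1
        · exact mix_mix U x.1 x.2
        · exact mix_mix U x.2 x.1
      right_inv := fun x => by
        ext1
        · exact mix_mix U x.1 x.2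
        · exact mix_mix U x.2 x.1 }
  refine Fintype.sum_equiv e _ _ fun x => ?_
  show pw p x.1 * pw p x.2 * G (mix U x.1 x.2) =
    pw p (mix U x.1 x.2) * pw p (mix U x.2 x.1) * G (mix U x.1 x.2)
  congr 1
  unfold pw
  rw [← Finset.prod_mul_distrib, ← Finset.prod_mul_distrib]
  refine Finset.prod_congr rfl fun w _ => ?_
  unfold mix
  by_cases hw : w ∈ U
  · simp only [hw, if_true]
  · simp only [hw, if_false]
    ring

/-- independence of one bit and the others -/
theorem pw_indep (p : W → ℝ) (w : W) (φ : Bool → ℝ) (F : (W → Bool) → ℝ)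
    (hF : ∀ b b', (∀ u, u ≠ w → b u = b' u) → F b = F b') :
    ∑ b, pw p b * (φ (b w) * F b) = (p w * φ true + (1 - p w) * φ false) * ∑ b, pw p b * F b := by
  have h1 := pw_mix p {w} (fun b => φ (b w) * F b)
  rw [← h1]
  have h2 : ∀ b b' : W → Bool, φ (mix {w} b b' w) * F (mix {w} b b') = φ (b w) * F b' := by
    intro b b'
    have h3 : mix {w} b b' w = b w := by simp [mix]
    have h4 : F (mix {w} b b') = F b' := by
      apply hF
      intro u hu
      simp [mix, hu]
    rw [h3, h4]
  have h5 : ∀ b b' : W → Bool, pw p b * pw p b' * (φ (mix {w} b b' w) * F (mix {w} b b')) =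
      (pw p b * φ (b w)) * (pw p b' * F b') := by
    intro b b'
    rw [h2]
    ring
  simp only [h5]
  rw [← Finset.sum_mul_sum]
  congr 1
  have h6 := pw_prod p (fun u c => if u = w then φ c else 1)
  have h7 : ∀ b : W → Bool, ∏ u, (if u = w then φ (b u) else 1) = φ (b w) := by
    intro b
    rw [Finset.prod_ite_eq' univ w (fun u => φ (b u))]
    simp
  simp only [h7] at h6
  rw [h6]
  rw [Finset.prod_eq_single w]
  · simp
  · intro u _ hu
    simp [hu]
  · intro h
    exact absurd (Finset.mem_univ _) h

end pw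

section deg

variable {W : Type} [Fintype W] [DecidableEq W]

/-- the centred monomials -/
noncomputable def psi (p : W → ℝ) (S : Finset W) (b : W → Bool) : ℝ :=
  ∏ w ∈ S, ((if b w then 1 else 0) - p w)

/-- the product of the variances -/
noncomputable def vr (p : W → ℝ) (S : Finset W) : ℝ := ∏ w ∈ S, (p w * (1 - p w))

theorem vr_nonneg {p : W → ℝ} (h0 : ∀ w, 0 ≤ p w) (h1 : ∀ w, p w ≤ 1) (S : Finset W) :
    0 ≤ vr p S :=
  Finset.prod_nonneg fun w _ => mul_nonneg (h0 w) (by linarith [h1 w])

theorem psi_orth (p : W → ℝ) (S T : Finset W) :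
    ∑ b, pw p b * (psi p S b * psi p T b) = if S = T then vr p S else 0 := by
  have h1 : ∀ b : W → Bool, psi p S b * psi p T b =
      ∏ w, ((if w ∈ S then ((if b w then 1 else 0) - p w) else 1) *
        (if w ∈ T then ((if b w then 1 else 0) - p w) else 1)) := by
    intro b
    unfold psi
    rw [Finset.prod_mul_distrib]
    congr 1
    · rw [Finset.prod_ite_mem, Finset.univ_inter]
    · rw [Finset.prod_ite_mem, Finset.univ_inter]
  simp only [h1]
  rw [pw_prod p (fun w c => (if w ∈ S then ((if c then 1 else 0) - p w) else 1) *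
        (if w ∈ T then ((if c then 1 else 0) - p w) else 1))]
  by_cases h : S = T
  · rw [if_pos h]
    subst h
    unfold vr
    have h2 : ∏ w ∈ S, (p w * (1 - p w)) = ∏ w, if w ∈ S then p w * (1 - p w) else 1 := by
      rw [Finset.prod_ite_mem, Finset.univ_inter]
    rw [h2]
    refine Finset.prod_congr rfl fun w _ => ?_
    by_cases hw : w ∈ S
    · simp only [hw, if_true]
      norm_num
      ring
    · simp only [hw, if_false]
      ring
  · rw [if_neg h]
    have h3 : ∃ w, ¬ (w ∈ S ↔ w ∈ T) := by
      by_contra hc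
      push Not at hc
      exact h (Finset.ext hc)
    obtain ⟨w, hw⟩ := h3
    refine Finset.prod_eq_zero (Finset.mem_univ w) ?_
    by_cases hS : w ∈ S
    · have hT : w ∉ T := fun h => hw ⟨fun _ => h, fun _ => hS⟩
      simp only [hS, hT, if_true, if_false]
      norm_num
      ring
    · have hT : w ∈ T := by
        by_contra hT
        exact hw ⟨fun h => absurd h hS, fun h => absurd h hT⟩
      simp only [hS, hT, if_true, if_false]
      norm_num
      ring

/-- the function with the coefficients `a` -/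
noncomputable def fn (p : W → ℝ) (a : Finset W → ℝ) (b : W → Bool) : ℝ := ∑ S, a S * psi p S b

theorem parseval (p : W → ℝ) (a : Finset W → ℝ) :
    ∑ b, pw p b * fn p a b ^ 2 = ∑ S, a S ^ 2 * vr p S := by
  have h1 : ∀ b, pw p b * fn p a b ^ 2 =
      ∑ S, ∑ T, a S * a T * (pw p b * (psi p S b * psi p T b)) := by
    intro b
    unfold fn
    rw [sq, Finset.sum_mul_sum, Finset.mul_sum]
    refine Finset.sum_congr rfl fun S _ => ?_
    rw [Finset.mul_sum]
    refine Finset.sum_congr rfl fun T _ => ?_
    ring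
  simp only [h1]
  rw [Finset.sum_comm]
  refine Finset.sum_congr rfl fun S _ => ?_
  rw [Finset.sum_comm]
  have h2 : ∀ T, ∑ b, a S * a T * (pw p b * (psi p S b * psi p T b)) =
      if S = T then a S ^ 2 * vr p S else 0 := by
    intro T
    rw [← Finset.mul_sum, psi_orth]
    split_ifs with h
    · subst h; ring
    · ring
  simp only [h2]
  simp

theorem sum_split (w : W) (F : Finset W → ℝ) :
    ∑ S, F S = ∑ S, if w ∈ S then 0 else F S + F (insert w S) := by
  have h1 : ∑ S, F S = (∑ S with w ∈ S, F S) + ∑ S with w ∉ S, F S :=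
    (Finset.sum_filter_add_sum_filter_not _ _ _).symm
  have h2 : ∑ S with w ∈ S, F S = ∑ S with w ∉ S, F (insert w S) := by
    refine Finset.sum_nbij' (fun S => S.erase w) (fun S => insert w S) ?_ ?_ ?_ ?_ ?_
    · intro S hS
      simp
    · intro S hS
      simp
    · intro S hS
      simp only [mem_filter, mem_univ, true_and] at hS
      exact Finset.insert_erase hS
    · intro S hS
      simp only [mem_filter, mem_univ, true_and] at hS
      exact Finset.erase_insert hS
    · intro S hS
      simp only [mem_filter, mem_univ, true_and] at hS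
      rw [Finset.insert_erase hS]
  rw [h1, h2, ← Finset.sum_add_distrib, Finset.sum_filter]
  refine Finset.sum_congr rfl fun S _ => ?_
  by_cases h : w ∈ S
  · simp [h]
  · simp [h]; ring

theorem psi_insert (p : W → ℝ) {w : W} {S : Finset W} (h : w ∉ S) (b : W → Bool) :
    psi p (insert w S) b = ((if b w then 1 else 0) - p w) * psi p S b := by
  unfold psi
  rw [Finset.prod_insert h]

theorem vr_insert (p : W → ℝ) {w : W} {S : Finset W} (h : w ∉ S) :
    vr p (insert w S) = p w * (1 - p w) * vr p S := by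
  unfold vr
  rw [Finset.prod_insert h]

/-- the influence of the coordinate `w` -/
noncomputable def infl (p : W → ℝ) (a : Finset W → ℝ) (w : W) : ℝ :=
  ∑ S, if w ∈ S then a S ^ 2 * vr p S else 0

theorem infl_nonneg {p : W → ℝ} (h0 : ∀ w, 0 ≤ p w) (h1 : ∀ w, p w ≤ 1) (a : Finset W → ℝ)
    (w : W) : 0 ≤ infl p a w := by
  refine Finset.sum_nonneg fun S _ => ?_
  split_ifs
  · exact mul_nonneg (sq_nonneg _) (vr_nonneg h0 h1 S)
  · exact le_refl _

theorem sum_infl {p : W → ℝ} (h0 : ∀ w, 0 ≤ p w) (h1 : ∀ w, p w ≤ 1) (a : Finset W → ℝ) (t : ℕ)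
    (ha : ∀ S : Finset W, t < S.card → a S = 0) :
    ∑ w, infl p a w ≤ t * ∑ b, pw p b * fn p a b ^ 2 := by
  rw [parseval]
  unfold infl
  rw [Finset.sum_comm, Finset.mul_sum]
  refine Finset.sum_le_sum fun S _ => ?_
  have h2 : ∑ w, (if w ∈ S then a S ^ 2 * vr p S else 0) = S.card * (a S ^ 2 * vr p S) := by
    rw [Finset.sum_ite_mem, Finset.univ_inter, Finset.sum_const, nsmul_eq_mul]
  rw [h2]
  by_cases h : t < S.card
  · rw [ha S h]; simp
  · push Not at h
    exact mul_le_mul_of_nonneg_right (by exact_mod_cast h)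
      (mul_nonneg (sq_nonneg _) (vr_nonneg h0 h1 S))

/-- A coordinate with a small influence: the square of the function puts a constant fraction of its
weight on each value of this coordinate. -/
theorem spread {p : W → ℝ} (h0 : ∀ w, 0 ≤ p w) (h1 : ∀ w, p w ≤ 1) (a : Finset W → ℝ) (w : W)
    (c : Bool) (hw1 : 1 / 4 ≤ p w) (hw2 : p w ≤ 3 / 4) :
    1 / 8 * (∑ b, pw p b * fn p a b ^ 2) - infl p a w ≤
      ∑ b, pw p b * (fn p a b ^ 2 * (if b w = c then 0 else 1)) := by
  set a0 : Finset W → ℝ := fun S => if w ∈ S then 0 else a S with ha0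
  set a1 : Finset W → ℝ := fun S => if w ∈ S then 0 else a (insert w S) with ha1
  have hfn : ∀ b, fn p a b = fn p a0 b + ((if b w then 1 else 0) - p w) * fn p a1 b := by
    intro b
    unfold fn
    rw [sum_split w, Finset.mul_sum, ← Finset.sum_add_distrib]
    refine Finset.sum_congr rfl fun S _ => ?_
    by_cases h : w ∈ S
    · simp [ha0, ha1, h]
    · simp only [ha0, ha1, h, if_false, psi_insert p h]
      ring
  have hdep : ∀ a' : Finset W → ℝ, (∀ S, w ∈ S → a' S = 0) → ∀ b b' : W → Bool,
      (∀ u, u ≠ w → b u = b' u) → fn p a' b ^ 2 = fn p a' b' ^ 2 := by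
    intro a' ha' b b' hb
    congr 1
    unfold fn
    refine Finset.sum_congr rfl fun S _ => ?_
    by_cases h : w ∈ S
    · rw [ha' S h, zero_mul, zero_mul]
    · congr 1
      unfold psi
      refine Finset.prod_congr rfl fun u hu => ?_
      rw [hb u (fun h' => h (h' ▸ hu))]
  have hd0 := hdep a0 (fun S h => by simp [ha0, h])
  have hd1 := hdep a1 (fun S h => by simp [ha1, h])
  have hI : infl p a w = p w * (1 - p w) * ∑ b, pw p b * fn p a1 b ^ 2 := by
    rw [parseval]
    unfold infl
    rw [sum_split w, Finset.mul_sum]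
    refine Finset.sum_congr rfl fun S _ => ?_
    by_cases h : w ∈ S
    · simp [ha1, h]
    · simp only [h, if_false, mem_insert, true_or, if_true, ha1, vr_insert p h]
      ring
  have hG : ∑ b, pw p b * fn p a b ^ 2 = (∑ b, pw p b * fn p a0 b ^ 2) + infl p a w := by
    rw [parseval, parseval]
    unfold infl
    rw [sum_split w (fun S => a S ^ 2 * vr p S),
      sum_split w (fun S => if w ∈ S then a S ^ 2 * vr p S else 0), ← Finset.sum_add_distrib]
    refine Finset.sum_congr rfl fun S _ => ?_
    by_cases h : w ∈ S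
    · simp [ha0, h]
    · simp [ha0, h]
  have hA : 0 ≤ ∑ b, pw p b * fn p a1 b ^ 2 :=
    Finset.sum_nonneg fun b _ => mul_nonneg (pw_nonneg h0 h1 b) (sq_nonneg _)
  have hA0 : 0 ≤ ∑ b, pw p b * fn p a0 b ^ 2 :=
    Finset.sum_nonneg fun b _ => mul_nonneg (pw_nonneg h0 h1 b) (sq_nonneg _)
  have hmain : ∑ b, pw p b * ((if b w = c then 0 else 1) * (fn p a0 b ^ 2)) * (1 / 2) -
      ∑ b, pw p b * ((if b w = c then 0 else ((if b w then 1 else 0) - p w) ^ 2) * fn p a1 b ^ 2) ≤
      ∑ b, pw p b * (fn p a b ^ 2 * (if b w = c then 0 else 1)) := by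
    rw [← Finset.sum_sub_distrib]
    refine Finset.sum_le_sum fun b _ => ?_
    have h2 := pw_nonneg h0 h1 b
    rw [hfn b]
    by_cases hc : b w = c
    · simp [hc]
    · simp only [hc, if_false]
      have : pw p b * (1 * fn p a0 b ^ 2) * (1 / 2) - pw p b *
          (((if b w then 1 else 0) - p w) ^ 2 * fn p a1 b ^ 2) =
          pw p b * (fn p a0 b ^ 2 / 2 - (((if b w then 1 else 0) - p w) * fn p a1 b) ^ 2) := by
        ring
      rw [this]
      refine mul_le_mul_of_nonneg_left ?_ h2
      nlinarith [sq_nonneg (fn p a0 b + 2 * (((if b w then 1 else 0) - p w) * fn p a1 b))]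
  refine le_trans ?_ hmain
  rw [← Finset.sum_mul]
  rw [pw_indep p w (fun d => if d = c then 0 else 1) (fun b => fn p a0 b ^ 2) hd0]
  rw [pw_indep p w (fun d => if d = c then 0 else ((if d then 1 else 0) - p w) ^ 2)
    (fun b => fn p a1 b ^ 2) hd1]
  rw [hI] at hG
  rw [hG, hI]
  set A := ∑ b, pw p b * fn p a1 b ^ 2
  set A0 := ∑ b, pw p b * fn p a0 b ^ 2
  cases c
  · simp only [if_true, if_false, Bool.true_eq_false]
    have e1 : (1 : ℝ) / 8 * (A0 + p w * (1 - p w) * A) - p w * (1 - p w) * A ≤
        1 / 2 * p w * A0 - p w * (1 - p w) ^ 2 * A := by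
      have := mul_nonneg (sub_nonneg.2 hw1) hA0
      have h3 : 0 ≤ p w * (1 - p w) * A * (p w - 1 / 8) := by
        apply mul_nonneg (mul_nonneg (mul_nonneg (h0 w) (by linarith)) hA) (by linarith)
      nlinarith
    nlinarith
  · simp only [if_true, if_false, Bool.false_eq_true]
    have e1 : (1 : ℝ) / 8 * (A0 + p w * (1 - p w) * A) - p w * (1 - p w) * A ≤
        1 / 2 * (1 - p w) * A0 - (1 - p w) * (p w) ^ 2 * A := by
      have := mul_nonneg (sub_nonneg.2 hw2) hA0
      have h3 : 0 ≤ p w * (1 - p w) * A * ((1 - p w) - 1 / 8) := by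
        apply mul_nonneg (mul_nonneg (mul_nonneg (h0 w) (by linarith)) hA) (by linarith)
      nlinarith
    nlinarith

end deg

end Pool.Agent.T9h21.BC
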