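import Pool.Agent.T9h21.BC.Inst

set_option autoImplicit false
set_option linter.unusedSectionVars false

/-!
All tours of the instance are longer than the 2-factors by at least `2 m / 3`.
-/

namespace Pool.Agent.T9h21.BC

open Finset

section perm

variable {V : Type} (s : Equiv.Perm V)

/-- neighbours -/
def Nb (z a : V) : Prop := s z = a ∨ s a = z

variable {s}

theorem Nb.symm {z a : V} (h : Nb s z a) : Nb s a z := h.elim Or.inr Or.inl

theorem nb_succ (z : V) : Nb s z (s z) := Or.inl rfl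

theorem nb_pred (z : V) : Nb s z (s⁻¹ z) := Or.inr (by simp)

theorem nb_deg {z a b c : V} (h1 : Nb s z a) (h2 : Nb s z b) (h3 : Nb s z c) (hab : a ≠ b)
    (hac : a ≠ c) (hbc : b ≠ c) : False := by
  rcases h1 with h1 | h1 <;> rcases h2 with h2 | h2 <;> rcases h3 with h3 | h3
  · exact hab (h1.symm.trans h2)
  · exact hab (h1.symm.trans h2)
  · exact hac (h1.symm.trans h3)
  · exact hbc (s.injective (h2.trans h3.symm))
  · exact hbc (h2.symm.trans h3)
  · exact hac (s.injective (h1.trans h3.symm))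
  · exact hab (s.injective (h1.trans h2.symm))
  · exact hab (s.injective (h1.trans h2.symm))

theorem succ_ne_pred (h2 : ∀ v, s (s v) ≠ v) (z : V) : s z ≠ s⁻¹ z := by
  intro h
  apply h2 z
  rw [h]
  simp

end perm

section con

variable {D m : ℕ}

theorem con_symm {q q' : ℤ × ℤ} (h : Con q q') : Con q' q := by
  unfold Con at h ⊢
  omega

theorem con_plain {X Y : ℤ} {q : ℤ × ℤ} (h' : IsPt D m q) (hX : X % 18 = 0) (hY : Y % 20 = 12)
    (hX0 : 0 ≤ X) (hX1 : X ≤ 18 * D) (hc : Con (X, Y) q) :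
    (q.1 = X - 6 ∧ q.2 = Y ∧ 0 < X) ∨ (q.1 = X ∧ q.2 = Y - 6 ∧ X = 0) ∨
      (q.1 = X + 6 ∧ q.2 = Y ∧ X < 18 * D) ∨ (q.1 = X ∧ q.2 = Y - 6 ∧ X = 18 * D) := by
  obtain ⟨x', y'⟩ := q
  unfold Con at hc
  simp only at hc ⊢
  by_cases e : y' % 20 = 16
  · have := tog_facts h' e
    omega
  · have h1 := ring_facts h' e
    have h2 : y' % 20 = 6 → (x' = 0 ∨ x' = 18 * (D : ℤ)) := by
      intro h3
      unfold IsPt at h'
      simp only at h'
      omega
    have h3 : 0 ≤ x' ∧ x' ≤ 18 * (D : ℤ) := ⟨h'.1.1, h'.1.2.1⟩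
    clear h'
    rcases hc with hc | hc | hc
    · rcases hc.1 with h4 | h4
      · left; omega
      · right; right; left; omega
    · have h5 : y' % 20 = 6 := by omega
      have h6 := h2 h5
      omega
    · omega

theorem con_left {X Y : ℤ} {q : ℤ × ℤ} (h' : IsPt D m q) (hX : X % 18 = 6) (hY : Y % 20 = 12)
    (hc : Con (X, Y) q) :
    (q.1 = X - 6 ∧ q.2 = Y) ∨ (q.1 = X + 6 ∧ q.2 = Y) ∨ (q.1 = X + 3 ∧ q.2 = Y + 4) := by
  obtain ⟨x', y'⟩ := q
  unfold Con at hc
  simp only at hc ⊢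
  by_cases e : y' % 20 = 16
  · have := tog_facts h' e
    omega
  · have h1 := ring_facts h' e
    have h2 : y' % 20 = 6 → (x' = 0 ∨ x' = 18 * (D : ℤ)) := by
      intro h3
      unfold IsPt at h'
      simp only at h'
      omega
    clear h'
    rcases hc with hc | hc | hc
    · omega
    · have h5 : y' % 20 = 6 := by omega
      have h6 := h2 h5
      omega
    · omega

theorem con_right {X Y : ℤ} {q : ℤ × ℤ} (h' : IsPt D m q) (hX : X % 18 = 12) (hY : Y % 20 = 12)
    (hc : Con (X, Y) q) :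
    (q.1 = X - 6 ∧ q.2 = Y) ∨ (q.1 = X + 6 ∧ q.2 = Y) ∨ (q.1 = X - 3 ∧ q.2 = Y + 4) := by
  obtain ⟨x', y'⟩ := q
  unfold Con at hc
  simp only at hc ⊢
  by_cases e : y' % 20 = 16
  · have := tog_facts h' e
    omega
  · have h1 := ring_facts h' e
    have h2 : y' % 20 = 6 → (x' = 0 ∨ x' = 18 * (D : ℤ)) := by
      intro h3
      unfold IsPt at h'
      simp only at h'
      omega
    clear h'
    rcases hc with hc | hc | hc
    · omega
    · have h5 : y' % 20 = 6 := by omega
      have h6 := h2 h5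
      omega
    · omega

theorem con_tog {X Y : ℤ} {q : ℤ × ℤ} (h' : IsPt D m q) (hX : X % 18 = 9) (hY : Y % 20 = 16)
    (hc : Con (X, Y) q) :
    (q.1 = X - 3 ∨ q.1 = X + 3) ∧ (q.2 = Y - 4 ∨ q.2 = Y + 4) := by
  obtain ⟨x', y'⟩ := q
  unfold Con at hc
  simp only at hc ⊢
  by_cases e : y' % 20 = 16
  · have := tog_facts h' e
    omega
  · have h1 := ring_facts h' e
    omega

end con

section tour

variable {D m : ℕ}

/-- the edge `(v, s v)` meets the strip of level `j` -/
def Serves (j : ℕ) (q q' : ℤ × ℤ) : Prop :=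
  (q.2 ≤ 20 * j + 32 ∨ q'.2 ≤ 20 * j + 32) ∧ (20 * (j : ℤ) ≤ q.2 ∨ 20 * (j : ℤ) ≤ q'.2)

/-- A point between the rings `j` and `j + 1` that is entered from below is left downwards. -/
theorem no_cross (s : Equiv.Perm (pts D m)) (h2 : ∀ v, s (s v) ≠ v) (j : ℕ)
    (H : ∀ v : pts D m, Serves j v (s v) → Con v (s v)) (u : pts D m)
    (hu : (u : ℤ × ℤ).2 = 20 * j + 16) (hw : ((s⁻¹ u : pts D m) : ℤ × ℤ).2 ≤ 20 * j + 12) :
    ((s u : pts D m) : ℤ × ℤ).2 = 20 * j + 12 := by
  -- neighbours of points in the strip are tangent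
  have HN : ∀ z : pts D m, 20 * (j : ℤ) ≤ (z : ℤ × ℤ).2 → (z : ℤ × ℤ).2 ≤ 20 * j + 32 →
      ∀ a, Nb s z a → Con z a := by
    intro z hz1 hz2 a ha
    rcases ha with ha | ha
    · rw [← ha]
      exact H z ⟨Or.inl hz2, Or.inl hz1⟩
    · have := H a (by rw [ha]; exact ⟨Or.inr hz2, Or.inr hz1⟩)
      rw [ha] at this
      exact con_symm this
  obtain ⟨⟨x, y⟩, hup⟩ := u
  simp only at hu
  have hpt := mem_pts.1 hup
  have hx9 : x % 18 = 9 := tog_facts hpt (by omega)
  have hxb : 0 ≤ x ∧ x ≤ 18 * (D : ℤ) ∧ 0 ≤ y ∧ y ≤ 20 * (m : ℤ) + 12 := hpt.1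
  by_contra hv
  set w : pts D m := s⁻¹ ⟨(x, y), hup⟩ with hwdef
  set v : pts D m := s ⟨(x, y), hup⟩ with hvdef
  have cw := HN ⟨(x, y), hup⟩ (by simp only; omega) (by simp only; omega) w (nb_pred _)
  have cv := HN ⟨(x, y), hup⟩ (by simp only; omega) (by simp only; omega) v (nb_succ _)
  have lw := con_tog (mem_pts.1 w.2) hx9 (by omega) cw
  have lv := con_tog (mem_pts.1 v.2) hx9 (by omega) cv
  have hwy : (w : ℤ × ℤ).2 = 20 * j + 12 := by omega
  have hvy : (v : ℤ × ℤ).2 = 20 * j + 20 := by omega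
  -- the points below
  have pA : IsPt D m (x - 3, y - 4) := by unfold IsPt; simp only; omega
  have pA' : IsPt D m (x + 3, y - 4) := by unfold IsPt; simp only; omega
  have pL : IsPt D m (x - 9, y - 4) := by unfold IsPt; simp only; omega
  have pR : IsPt D m (x + 9, y - 4) := by unfold IsPt; simp only; omega
  set A : pts D m := ⟨(x - 3, y - 4), mem_pts.2 pA⟩ with hA
  set A' : pts D m := ⟨(x + 3, y - 4), mem_pts.2 pA'⟩ with hA'
  set PL : pts D m := ⟨(x - 9, y - 4), mem_pts.2 pL⟩ with hPL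
  set PR : pts D m := ⟨(x + 9, y - 4), mem_pts.2 pR⟩ with hPR
  set u : pts D m := ⟨(x, y), hup⟩ with hu'
  have ext : ∀ z z' : pts D m, (z : ℤ × ℤ).1 = (z' : ℤ × ℤ).1 → (z : ℤ × ℤ).2 = (z' : ℤ × ℤ).2 →
      z = z' := fun z z' h1 h2 => Subtype.ext (Prod.ext h1 h2)
  have nA : Nb s PL A := by
    have c1 := con_plain (mem_pts.1 (s PL).2) (X := x - 9) (Y := y - 4) (by omega) (by omega)
      (by omega) (by omega)
      (HN PL (by simp only [hPL]; omega) (by simp only [hPL]; omega) _ (nb_succ _))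
    have c2 := con_plain (mem_pts.1 (s⁻¹ PL).2) (X := x - 9) (Y := y - 4) (by omega) (by omega)
      (by omega) (by omega)
      (HN PL (by simp only [hPL]; omega) (by simp only [hPL]; omega) _ (nb_pred _))
    have hne := succ_ne_pred h2 PL
    by_contra hcon
    have d1 : ¬ (((s PL : pts D m) : ℤ × ℤ).1 = x - 3 ∧ ((s PL : pts D m) : ℤ × ℤ).2 = y - 4) :=
      fun h => hcon (Or.inl (ext _ _ h.1 h.2))
    have d2 : ¬ (((s⁻¹ PL : pts D m) : ℤ × ℤ).1 = x - 3 ∧
        ((s⁻¹ PL : pts D m) : ℤ × ℤ).2 = y - 4) := by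
      intro h
      apply hcon
      have h3 : s⁻¹ PL = A := ext _ _ h.1 h.2
      rw [← h3]
      exact nb_pred _
    apply hne
    apply ext
    · rcases c1 with c1 | c1 | c1 | c1 <;> rcases c2 with c2 | c2 | c2 | c2 <;> omega
    · rcases c1 with c1 | c1 | c1 | c1 <;> rcases c2 with c2 | c2 | c2 | c2 <;> omega
  have nA' : Nb s PR A' := by
    have c1 := con_plain (mem_pts.1 (s PR).2) (X := x + 9) (Y := y - 4) (by omega) (by omega)
      (by omega) (by omega)
      (HN PR (by simp only [hPR]; omega) (by simp only [hPR]; omega) _ (nb_succ _))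
    have c2 := con_plain (mem_pts.1 (s⁻¹ PR).2) (X := x + 9) (Y := y - 4) (by omega) (by omega)
      (by omega) (by omega)
      (HN PR (by simp only [hPR]; omega) (by simp only [hPR]; omega) _ (nb_pred _))
    have hne := succ_ne_pred h2 PR
    by_contra hcon
    have d1 : ¬ (((s PR : pts D m) : ℤ × ℤ).1 = x + 3 ∧ ((s PR : pts D m) : ℤ × ℤ).2 = y - 4) :=
      fun h => hcon (Or.inl (ext _ _ h.1 h.2))
    have d2 : ¬ (((s⁻¹ PR : pts D m) : ℤ × ℤ).1 = x + 3 ∧
        ((s⁻¹ PR : pts D m) : ℤ × ℤ).2 = y - 4) := by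
      intro h
      apply hcon
      have h3 : s⁻¹ PR = A' := ext _ _ h.1 h.2
      rw [← h3]
      exact nb_pred _
    apply hne
    apply ext
    · rcases c1 with c1 | c1 | c1 | c1 <;> rcases c2 with c2 | c2 | c2 | c2 <;> omega
    · rcases c1 with c1 | c1 | c1 | c1 <;> rcases c2 with c2 | c2 | c2 | c2 <;> omega
  have ne1 : ∀ z z' : pts D m, (z : ℤ × ℤ).1 ≠ (z' : ℤ × ℤ).1 → z ≠ z' := by
    intro z z' h1 h2
    exact h1 (by rw [h2])
  have ne2 : ∀ z z' : pts D m, (z : ℤ × ℤ).2 ≠ (z' : ℤ × ℤ).2 → z ≠ z' := by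
    intro z z' h1 h2
    exact h1 (by rw [h2])
  have nw : Nb s u w := nb_pred _
  have nv : Nb s u v := nb_succ _
  rcases lw.1 with lw1 | lw1
  · -- the predecessor is `A`
    have hwA : w = A := ext _ _ (by simp only [hA]; omega) (by simp only [hA]; omega)
    have c1 := con_right (mem_pts.1 (s A').2) (X := x + 3) (Y := y - 4) (by omega) (by omega)
      (HN A' (by simp only [hA']; omega) (by simp only [hA']; omega) _ (nb_succ _))
    have c2 := con_right (mem_pts.1 (s⁻¹ A').2) (X := x + 3) (Y := y - 4) (by omega) (by omega)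
      (HN A' (by simp only [hA']; omega) (by simp only [hA']; omega) _ (nb_pred _))
    have hne := succ_ne_pred h2 A'
    have hz : ∃ z : pts D m, Nb s A' z ∧ (z = A ∨ z = u) := by
      rcases c1 with c1 | c1 | c1
      · exact ⟨s A', nb_succ _, Or.inl (ext _ _ (by simp only [hA]; omega) (by simp only [hA]; omega))⟩
      · rcases c2 with c2 | c2 | c2
        · exact ⟨s⁻¹ A', nb_pred _, Or.inl (ext _ _ (by simp only [hA]; omega)
            (by simp only [hA]; omega))⟩
        · exact absurd (ext _ _ (by omega) (by omega)) hne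
        · exact ⟨s⁻¹ A', nb_pred _, Or.inr (ext _ _ (by simp only [hu']; omega)
            (by simp only [hu']; omega))⟩
      · exact ⟨s A', nb_succ _, Or.inr (ext _ _ (by simp only [hu']; omega)
          (by simp only [hu']; omega))⟩
    obtain ⟨z, hz1, hz2⟩ := hz
    rcases hz2 with hz2 | hz2
    · rw [hz2] at hz1
      rw [hwA] at nw
      exact nb_deg nA.symm nw.symm hz1.symm (ne2 _ _ (by simp only [hPL, hu']; omega))
        (ne1 _ _ (by simp only [hPL, hA']; omega)) (ne2 _ _ (by simp only [hA', hu']; omega))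
    · rw [hz2] at hz1
      exact nb_deg hz1.symm nw nv (ne1 _ _ (by simp only [hA']; omega))
        (ne2 _ _ (by simp only [hA']; omega)) (ne2 _ _ (by omega))
  · -- the predecessor is `A'`
    have hwA : w = A' := ext _ _ (by simp only [hA']; omega) (by simp only [hA']; omega)
    have c1 := con_left (mem_pts.1 (s A).2) (X := x - 3) (Y := y - 4) (by omega) (by omega)
      (HN A (by simp only [hA]; omega) (by simp only [hA]; omega) _ (nb_succ _))
    have c2 := con_left (mem_pts.1 (s⁻¹ A).2) (X := x - 3) (Y := y - 4) (by omega) (by omega)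
      (HN A (by simp only [hA]; omega) (by simp only [hA]; omega) _ (nb_pred _))
    have hne := succ_ne_pred h2 A
    have hz : ∃ z : pts D m, Nb s A z ∧ (z = A' ∨ z = u) := by
      rcases c1 with c1 | c1 | c1
      · rcases c2 with c2 | c2 | c2
        · exact absurd (ext _ _ (by omega) (by omega)) hne
        · exact ⟨s⁻¹ A, nb_pred _, Or.inl (ext _ _ (by simp only [hA']; omega)
            (by simp only [hA']; omega))⟩
        · exact ⟨s⁻¹ A, nb_pred _, Or.inr (ext _ _ (by simp only [hu']; omega)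
            (by simp only [hu']; omega))⟩
      · exact ⟨s A, nb_succ _, Or.inl (ext _ _ (by simp only [hA']; omega)
          (by simp only [hA']; omega))⟩
      · exact ⟨s A, nb_succ _, Or.inr (ext _ _ (by simp only [hu']; omega)
          (by simp only [hu']; omega))⟩
    obtain ⟨z, hz1, hz2⟩ := hz
    rcases hz2 with hz2 | hz2
    · rw [hz2] at hz1
      rw [hwA] at nw
      exact nb_deg nA'.symm nw.symm hz1.symm (ne2 _ _ (by simp only [hPR, hu']; omega))
        (ne1 _ _ (by simp only [hPR, hA]; omega)) (ne2 _ _ (by simp only [hA, hu']; omega))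
    · rw [hz2] at hz1
      exact nb_deg hz1.symm nw nv (ne1 _ _ (by simp only [hA]; omega))
        (ne2 _ _ (by simp only [hA]; omega)) (ne2 _ _ (by omega))

/-- For every level some long edge meets its strip. -/
theorem exists_bad (s : Equiv.Perm (pts D m)) (hs : IsTour (pts D m) s)
    (h2 : ∀ v, s (s v) ≠ v) (j : ℕ) (hj : j < m) :
    ∃ v : pts D m, Serves j v (s v) ∧ ¬ Con v (s v) := by
  by_contra hcon
  push Not at hcon
  have key : ∀ v : pts D m, ((v : ℤ × ℤ).2 ≤ 20 * j + 12 ∨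
      ((v : ℤ × ℤ).2 = 20 * j + 16 ∧ ((s v : pts D m) : ℤ × ℤ).2 = 20 * j + 12)) →
      (((s v : pts D m) : ℤ × ℤ).2 ≤ 20 * j + 12 ∨
      (((s v : pts D m) : ℤ × ℤ).2 = 20 * j + 16 ∧
        ((s (s v) : pts D m) : ℤ × ℤ).2 = 20 * j + 12)) := by
    intro v hv
    rcases hv with hv | hv
    · by_cases h3 : ((s v : pts D m) : ℤ × ℤ).2 ≤ 20 * j + 12
      · exact Or.inl h3
      · have h4 : Con v (s v) := hcon v ⟨Or.inl (by omega), Or.inr (by omega)⟩
        have h5 : ((s v : pts D m) : ℤ × ℤ).2 = 20 * j + 16 := by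
          have h6 := mem_pts.1 (s v).2
          have h7 := mem_pts.1 v.2
          unfold Con at h4
          unfold IsPt at h6 h7
          omega
        right
        refine ⟨h5, no_cross s h2 j hcon (s v) h5 ?_⟩
        simpa using hv
    · exact Or.inl (le_of_eq hv.2)
  have p0 : IsPt D m (0, 20 * (j : ℤ) + 12) := by
    have := pt_top (D := D) (m := m) (j := j) (k := 0) (by omega) (by omega)
    simpa using this
  have p1 : IsPt D m (0, 20 * (j : ℤ) + 20) := by
    have := pt_bot (D := D) (m := m) (j := j + 1) (k := 0) (by omega) (by omega)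
    have e : (20 * ((j + 1 : ℕ) : ℤ)) = 20 * (j : ℤ) + 20 := by push_cast; ring
    rw [e] at this
    simpa using this
  obtain ⟨k, hk⟩ := hs ⟨_, mem_pts.2 p0⟩ ⟨_, mem_pts.2 p1⟩
  have hall : ∀ k : ℕ, ((((s ^ k) ⟨_, mem_pts.2 p0⟩ : pts D m) : ℤ × ℤ).2 ≤ 20 * j + 12 ∨
      ((((s ^ k) ⟨_, mem_pts.2 p0⟩ : pts D m) : ℤ × ℤ).2 = 20 * j + 16 ∧
        ((s ((s ^ k) ⟨_, mem_pts.2 p0⟩) : pts D m) : ℤ × ℤ).2 = 20 * j + 12)) := by
    intro k
    induction k with
    | zero => left; simp
    | succ k ih =>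
      rw [pow_succ', Equiv.Perm.mul_apply]
      exact key _ ih
  have h3 := hall k
  rw [hk] at h3
  simp only at h3
  omega

theorem tour_two (s : Equiv.Perm (pts D m)) (hs : IsTour (pts D m) s) (v : pts D m) :
    s (s v) ≠ v := by
  intro h
  have hk : ∀ k : ℕ, (s ^ k) v = v ∨ (s ^ k) v = s v := by
    intro k
    induction k with
    | zero => left; simp
    | succ k ih =>
      rw [pow_succ', Equiv.Perm.mul_apply]
      rcases ih with ih | ih
      · right; rw [ih]
      · left; rw [ih, h]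
  have p0 : IsPt D m (0, 0) := by
    have := pt_bot (D := D) (m := m) (j := 0) (k := 0) (by omega) (by omega)
    simpa using this
  have p1 : IsPt D m (0, 6) := by
    have := pt_left (D := D) (m := m) (j := 0) (by omega)
    simpa using this
  have p2 : IsPt D m (0, 12) := by
    have := pt_top (D := D) (m := m) (j := 0) (k := 0) (by omega) (by omega)
    simpa using this
  obtain ⟨k0, h0⟩ := hs v ⟨_, mem_pts.2 p0⟩
  obtain ⟨k1, h1⟩ := hs v ⟨_, mem_pts.2 p1⟩
  obtain ⟨k2, h2⟩ := hs v ⟨_, mem_pts.2 p2⟩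
  have e0 := hk k0
  have e1 := hk k1
  have e2 := hk k2
  rw [h0] at e0
  rw [h1] at e1
  rw [h2] at e2
  have n01 : (⟨(0, 0), mem_pts.2 p0⟩ : pts D m) ≠ ⟨(0, 6), mem_pts.2 p1⟩ := by
    intro h
    have := congrArg (fun z : pts D m => (z : ℤ × ℤ).2) h
    simp at this
  have n02 : (⟨(0, 0), mem_pts.2 p0⟩ : pts D m) ≠ ⟨(0, 12), mem_pts.2 p2⟩ := by
    intro h
    have := congrArg (fun z : pts D m => (z : ℤ × ℤ).2) h
    simp at this
  have n12 : (⟨(0, 6), mem_pts.2 p1⟩ : pts D m) ≠ ⟨(0, 12), mem_pts.2 p2⟩ := by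
    intro h
    have := congrArg (fun z : pts D m => (z : ℤ × ℤ).2) h
    simp at this
  rcases e0 with e0 | e0 <;> rcases e1 with e1 | e1 <;> rcases e2 with e2 | e2
  · exact n01 (e0.trans e1.symm)
  · exact n01 (e0.trans e1.symm)
  · exact n02 (e0.trans e2.symm)
  · exact n12 (e1.trans e2.symm)
  · exact n12 (e1.trans e2.symm)
  · exact n02 (e0.trans e2.symm)
  · exact n01 (e0.trans e1.symm)
  · exact n01 (e0.trans e1.symm)

/-- few levels are served by a short edge -/
theorem serves_card (m : ℕ) (q q' : ℤ × ℤ) :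
    (((range m).filter fun j : ℕ => (q.2 ≤ 20 * (j : ℤ) + 32 ∨ q'.2 ≤ 20 * (j : ℤ) + 32) ∧
      (20 * (j : ℤ) ≤ q.2 ∨ 20 * (j : ℤ) ≤ q'.2)).card : ℝ) ≤
      (|((q.2 : ℝ) - q'.2)| + 32) / 20 + 1 := by
  set lo : ℤ := min q.2 q'.2 with hlo
  set hi : ℤ := max q.2 q'.2 with hhi
  have hlh : lo ≤ hi := by omega
  have habs : |((q.2 : ℝ) - q'.2)| = ((hi - lo : ℤ) : ℝ) := by
    have : |q.2 - q'.2| = hi - lo := by
      rw [hlo, hhi, max_sub_min_eq_abs']
    rw [← this]
    push_cast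
    rfl
  have hsub : (((range m).filter fun j : ℕ => (q.2 ≤ 20 * (j : ℤ) + 32 ∨ q'.2 ≤ 20 * (j : ℤ) + 32) ∧
      (20 * (j : ℤ) ≤ q.2 ∨ 20 * (j : ℤ) ≤ q'.2))).map ⟨fun j : ℕ => (j : ℤ), Nat.cast_injective⟩ ⊆
      Finset.Icc (-((32 - lo) / 20)) (hi / 20) := by
    intro z hz
    rw [Finset.mem_map] at hz
    obtain ⟨j, hj, rfl⟩ := hz
    rw [Finset.mem_filter] at hj
    rw [Finset.mem_Icc]
    simp only [Function.Embedding.coeFn_mk]
    omega
  have hc := Finset.card_le_card hsub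
  rw [Finset.card_map, Int.card_Icc] at hc
  have h1 : (hi / 20 + 1 - -((32 - lo) / 20)).toNat ≤ ((hi - lo + 52) / 20).toNat := by omega
  have h2 : (((hi - lo + 52) / 20).toNat : ℤ) = (hi - lo + 52) / 20 := by
    rw [Int.toNat_of_nonneg]
    omega
  have h3 : (20 : ℤ) * ((hi - lo + 52) / 20) ≤ hi - lo + 52 := by omega
  have h4 : ((((hi - lo + 52) / 20).toNat : ℕ) : ℝ) * 20 ≤ ((hi - lo : ℤ) : ℝ) + 52 := by
    have h5 : ((((hi - lo + 52) / 20).toNat : ℕ) : ℤ) * 20 ≤ (hi - lo) + 52 := by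
      rw [h2]; linarith
    exact_mod_cast h5
  have h6 : (((range m).filter fun j : ℕ => (q.2 ≤ 20 * (j : ℤ) + 32 ∨ q'.2 ≤ 20 * (j : ℤ) + 32) ∧
      (20 * (j : ℤ) ≤ q.2 ∨ 20 * (j : ℤ) ≤ q'.2)).card : ℝ) ≤
      ((((hi - lo + 52) / 20).toNat : ℕ) : ℝ) := by
    exact_mod_cast hc.trans h1
  rw [habs]
  linarith

/-- Every tour is long. -/
theorem tour_len (s : Equiv.Perm (pts D m)) (hs : IsTour (pts D m) s) :
    (bnd D m : ℝ) + 2 / 3 * m ≤ len (pts D m) s := by
  classical
  have h2 := tour_two s hs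
  have h1 : ∀ v : pts D m, v ≠ s v := by
    intro v h
    exact h2 v (by rw [← h, ← h])
  set σ : pts D m → ℝ := fun v => dst v (s v) - rad v - rad (s v) with hσ
  have hlen : len (pts D m) s = ∑ v, σ v + bnd D m := by
    rw [bnd_eq]
    unfold len
    rw [hσ]
    have h3 := Equiv.sum_comp s (fun v : pts D m => rad v)
    simp only [Finset.sum_sub_distrib]
    linarith
  have hσ2 : ∀ v : pts D m, ¬ Con v (s v) → 2 ≤ σ v := by
    intro v hv
    have := dst_far (mem_pts.1 v.2) (mem_pts.1 (s v).2) (fun h => h1 v (Subtype.ext h)) hv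
    simp only [hσ]
    linarith
  have hσ0 : ∀ v : pts D m, 0 ≤ σ v := by
    intro v
    by_cases hv : Con v (s v)
    · have := dst_con (mem_pts.1 v.2) (mem_pts.1 (s v).2) hv
      simp only [hσ]
      linarith
    · linarith [hσ2 v hv]
  have hserve : ∀ v : pts D m, ¬ Con v (s v) →
      (((range m).filter fun j => Serves j v (s v)).card : ℝ) ≤ 3 / 2 * σ v := by
    intro v hv
    have e1 := serves_card m (v : ℤ × ℤ) (s v : pts D m)
    have e2 : |(((v : ℤ × ℤ).2 : ℝ) - ((s v : pts D m) : ℤ × ℤ).2)| ≤ dst v (s v) := by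
      unfold dst
      apply Real.abs_le_sqrt
      push_cast
      nlinarith [sq_nonneg (((v : ℤ × ℤ).1 : ℝ) - ((s v : pts D m) : ℤ × ℤ).1)]
    have e3 : rad v ≤ 3 := by unfold rad; split_ifs <;> norm_num
    have e4 : rad (s v) ≤ 3 := by unfold rad; split_ifs <;> norm_num
    have e5 := hσ2 v hv
    have e6 : dst v (s v) ≤ σ v + 6 := by simp only [hσ]; linarith
    have e7 : (((range m).filter fun j => Serves j v (s v)).card : ℝ) ≤
        (|(((v : ℤ × ℤ).2 : ℝ) - ((s v : pts D m) : ℤ × ℤ).2)| + 32) / 20 + 1 := by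
      refine le_trans (le_of_eq ?_) e1
      congr 2
      ext j
      rw [Finset.mem_filter, Finset.mem_filter]
      exact Iff.rfl
    linarith
  have hcount : (m : ℝ) ≤ ∑ v : pts D m, 3 / 2 * σ v := by
    have e1 : ∀ j ∈ range m, (1 : ℝ) ≤
        ∑ v : pts D m, if Serves j v (s v) ∧ ¬ Con v (s v) then 1 else 0 := by
      intro j hj
      obtain ⟨v, hv⟩ := exists_bad s hs h2 j (Finset.mem_range.1 hj)
      have := Finset.single_le_sum
        (f := fun v : pts D m => if Serves j v (s v) ∧ ¬ Con v (s v) then (1 : ℝ) else 0)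
        (fun v _ => by split_ifs <;> norm_num) (Finset.mem_univ v)
      simp only [hv, not_false_eq_true, and_self, if_true] at this
      exact this
    calc (m : ℝ) = ∑ j ∈ range m, (1 : ℝ) := by simp
      _ ≤ ∑ j ∈ range m, ∑ v : pts D m, (if Serves j v (s v) ∧ ¬ Con v (s v) then 1 else 0) :=
          Finset.sum_le_sum e1
      _ = ∑ v : pts D m, ∑ j ∈ range m, (if Serves j v (s v) ∧ ¬ Con v (s v) then 1 else 0) :=
          Finset.sum_comm
      _ ≤ ∑ v : pts D m, 3 / 2 * σ v := by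
          refine Finset.sum_le_sum fun v _ => ?_
          by_cases hv : Con v (s v)
          · simp only [hv, not_true_eq_false, and_false, if_false, Finset.sum_const_zero]
            linarith [hσ0 v]
          · simp only [hv, not_false_eq_true, and_true]
            rw [Finset.sum_boole]
            exact hserve v hv
  rw [← Finset.mul_sum] at hcount
  rw [hlen]
  linarith

end tour

end Pool.Agent.T9h21.BC
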